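import Pool.Agent.H313.TE.Solv

/-!
Uniqueness of the decomposition up to twists.
-/

set_option autoImplicit false
set_option linter.all false
set_option maxHeartbeats 4000000

open Matrix Kronecker

namespace Pool.Agent.H313.TE

variable {G : Type} [Group G] {E : Type} [Field E] {n : ℕ}

/-- `A'` is isomorphic to `A` twisted by `χ`. -/
def IsTwist {k l : ℕ} (χ : G → E) (A : G →* GL (Fin k) E) (A' : G →* GL (Fin l) E) : Prop :=
  ∃ (T : Matrix (Fin l) (Fin k) E) (T' : Matrix (Fin k) (Fin l) E), T * T' = 1 ∧ T' * T = 1 ∧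
    ∀ g, matrixOf A' g = χ g • (T * matrixOf A g * T')

/-- a decomposition into a representation from the base and one irreducible on the fibre -/
def IsDecomposition {m a : ℕ} (ρ : G →* GL (Fin n) E) (N U : Subgroup G) (B : U →* GL (Fin m) E)
    (A : U →* GL (Fin a) E) : Prop :=
  m * a = n ∧ IsTensorProduct ρ U B A ∧ (∀ u : U, (u : G) ∈ N → B u = 1) ∧
    IrreducibleOn A (N.subgroupOf U) ∧
    (∀ u : U, (matrixOf A u).det ^ m = 1 ∧ (matrixOf B u).det ^ a = 1)

/-- Schur's lemma: the rank -/
theorem schur_rank {k l : ℕ} (hk : 0 < k) {A : G →* GL (Fin k) E} {A' : G →* GL (Fin l) E}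
    {K : Subgroup G}
    (hA : IrreducibleOn A K) (hA' : IrreducibleOn A' K) {T : Matrix (Fin l) (Fin k) E} (hT : T ≠ 0)
    (hTA : ∀ u ∈ K, T * matrixOf A u = matrixOf A' u * T) :
    Function.Bijective (Matrix.mulVecLin T) := by
  have hker : LinearMap.ker (Matrix.mulVecLin T) = ⊥ := by
    rcases hA (LinearMap.ker (Matrix.mulVecLin T)) (by
      intro u hu w hw
      rw [LinearMap.mem_ker, Matrix.mulVecLin_apply] at hw ⊢
      rw [Matrix.mulVec_mulVec, hTA u hu, ← Matrix.mulVec_mulVec, hw, Matrix.mulVec_zero]) with h | h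
    · exact h
    · exfalso
      apply hT
      rw [LinearMap.ker_eq_top] at h
      ext i j
      have h1 := congrFun (LinearMap.congr_fun h (Pi.single j 1)) i
      rw [Matrix.mulVecLin_apply, Matrix.mulVec_single_one] at h1
      exact h1
  have hrange : LinearMap.range (Matrix.mulVecLin T) = ⊤ := by
    rcases hA' (LinearMap.range (Matrix.mulVecLin T)) (by
      rintro u hu w ⟨v, rfl⟩
      refine ⟨matrixOf A u *ᵥ v, ?_⟩
      rw [Matrix.mulVecLin_apply, Matrix.mulVecLin_apply, Matrix.mulVec_mulVec, hTA u hu,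
        Matrix.mulVec_mulVec]) with h | h
    · exfalso
      apply hT
      rw [LinearMap.range_eq_bot] at h
      ext i j
      have h1 := congrFun (LinearMap.congr_fun h (Pi.single j 1)) i
      rw [Matrix.mulVecLin_apply, Matrix.mulVec_single_one] at h1
      exact h1
    · exact h
  exact ⟨LinearMap.ker_eq_bot.1 hker, LinearMap.range_eq_top.1 hrange⟩

/-- Schur's lemma: scalars -/
theorem schur_scalar [IsAlgClosed E] {k : ℕ} (hk : 0 < k) {A : G →* GL (Fin k) E}
    {K : Subgroup G} (hA : IrreducibleOn A K) {T : Matrix (Fin k) (Fin k) E}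
    (hTA : ∀ u ∈ K, T * matrixOf A u = matrixOf A u * T) : ∃ c : E, T = c • 1 := by
  haveI : Nonempty (Fin k) := ⟨⟨0, hk⟩⟩
  obtain ⟨c, hcc⟩ := Module.End.exists_eigenvalue (Matrix.mulVecLin T)
  refine ⟨c, ?_⟩
  have h4 : Module.End.eigenspace (Matrix.mulVecLin T) c = ⊤ := by
    rcases hA (Module.End.eigenspace (Matrix.mulVecLin T) c) (by
      intro u hu w hw
      rw [Module.End.mem_eigenspace_iff, Matrix.mulVecLin_apply] at hw ⊢
      rw [Matrix.mulVec_mulVec, hTA u hu, ← Matrix.mulVec_mulVec, hw, Matrix.mulVec_smul])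
      with h5 | h5
    · exact absurd h5 hcc
    · exact h5
  ext i j
  have h5 : (Pi.single j 1 : Fin k → E) ∈ Module.End.eigenspace (Matrix.mulVecLin T) c := by
    rw [h4]; trivial
  rw [Module.End.mem_eigenspace_iff, Matrix.mulVecLin_apply, Matrix.mulVec_single_one] at h5
  have h6 := congrFun h5 i
  rw [Matrix.smul_apply, Matrix.one_apply]
  simpa [Pi.single_apply, Matrix.col_apply] using h6

/-- uniqueness when the ranks agree -/
theorem unique_aux [IsAlgClosed E] {U : Subgroup G} {K : Subgroup U} {m a : ℕ} (hm : 0 < m)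
    (ha : 0 < a) {A A' : U →* GL (Fin a) E} {B B' : U →* GL (Fin m) E}
    (hB : ∀ u ∈ K, B u = 1) (hB' : ∀ u ∈ K, B' u = 1)
    (hA : IrreducibleOn A K) {R S : Matrix (Fin m × Fin a) (Fin m × Fin a) E} (hRS : R * S = 1)
    (hR : ∀ u : U, R * (matrixOf B u ⊗ₖ matrixOf A u) = (matrixOf B' u ⊗ₖ matrixOf A' u) * R)
    {T : Matrix (Fin a) (Fin a) E} (hT : IsUnit T)
    (hTA : ∀ u ∈ K, T * matrixOf A u = matrixOf A' u * T)
    (hdA : ∀ u, (matrixOf A u).det ^ m = 1) (hdA' : ∀ u, (matrixOf A' u).det ^ m = 1) :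
    ∃ χ : U →* E, (∀ u, χ u ^ (m * a) = 1) ∧ (∀ u ∈ K, χ u = 1) ∧ IsTwist χ A A' ∧
      IsTwist χ B' B := by
  obtain ⟨T1, hT1, hT2⟩ : ∃ T1 : Matrix (Fin a) (Fin a) E, T * T1 = 1 ∧ T1 * T = 1 := by
    obtain ⟨t, rfl⟩ := hT
    exact ⟨(t⁻¹ : (Matrix (Fin a) (Fin a) E)ˣ).val, t.mul_inv, t.inv_mul⟩
  have hblock : ∀ i j, ∃ c : E, (Matrix.of fun k l => R (i, k) (j, l)) = c • T := by
    intro i j
    set Rij : Matrix (Fin a) (Fin a) E := Matrix.of fun k l => R (i, k) (j, l) with hRij
    have h1 : ∀ u ∈ K, Rij * matrixOf A u = matrixOf A' u * Rij := by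
      intro u hu
      have h2 := hR u
      have h3 : matrixOf B u = 1 := by
        show ((B u : GL (Fin m) E) : Matrix (Fin m) (Fin m) E) = 1
        rw [hB u hu, Units.val_one]
      have h4 : matrixOf B' u = 1 := by
        show ((B' u : GL (Fin m) E) : Matrix (Fin m) (Fin m) E) = 1
        rw [hB' u hu, Units.val_one]
      rw [h3, h4] at h2
      ext k l
      have h5 := congrFun (congrFun h2 (i, k)) (j, l)
      rw [Matrix.mul_apply, Matrix.mul_apply, Fintype.sum_prod_type, Fintype.sum_prod_type,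
        Finset.sum_eq_single j, Finset.sum_eq_single i] at h5
      · simp only [Matrix.kronecker_apply, Matrix.one_apply_eq, one_mul] at h5
        rw [Matrix.mul_apply, Matrix.mul_apply]
        exact h5
      · intro b _ hb
        refine Finset.sum_eq_zero fun x _ => ?_
        rw [Matrix.kronecker_apply, Matrix.one_apply_ne hb.symm, zero_mul, zero_mul]
      · intro h; exact absurd (Finset.mem_univ _) h
      · intro b _ hb
        refine Finset.sum_eq_zero fun x _ => ?_
        rw [Matrix.kronecker_apply, Matrix.one_apply_ne hb, zero_mul, mul_zero]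
      · intro h; exact absurd (Finset.mem_univ _) h
    obtain ⟨c, hc⟩ := schur_scalar ha hA (T := T1 * Rij) (by
      intro u hu
      have h2 : T1 * matrixOf A' u = matrixOf A u * T1 := by
        calc T1 * matrixOf A' u = T1 * (matrixOf A' u * T) * T1 := by
              rw [Matrix.mul_assoc, Matrix.mul_assoc, hT1, Matrix.mul_one]
          _ = matrixOf A u * T1 := by
              rw [← hTA u hu, ← Matrix.mul_assoc, hT2, Matrix.one_mul]
      rw [Matrix.mul_assoc, h1 u hu, ← Matrix.mul_assoc, h2, Matrix.mul_assoc])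
    refine ⟨c, ?_⟩
    calc Rij = T * (T1 * Rij) := by rw [← Matrix.mul_assoc, hT1, Matrix.one_mul]
      _ = c • T := by rw [hc, Matrix.mul_smul, Matrix.mul_one]
  choose X hX using hblock
  have hRX : R = (Matrix.of X) ⊗ₖ T := by
    ext ⟨i, k⟩ ⟨j, l⟩
    have h1 := congrFun (congrFun (hX i j) k) l
    rw [Matrix.kronecker_apply]
    exact h1
  have hXdet : IsUnit (Matrix.of X) := by
    rw [Matrix.isUnit_iff_isUnit_det, isUnit_iff_ne_zero]
    intro h0
    have h1 := congrArg Matrix.det hRS
    rw [Matrix.det_mul, hRX, Matrix.det_kronecker, h0, Matrix.det_one, Fintype.card_fin,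
      zero_pow ha.ne', zero_mul, zero_mul] at h1
    exact zero_ne_one h1
  obtain ⟨X1, hX1, hX2⟩ : ∃ X1 : Matrix (Fin m) (Fin m) E, Matrix.of X * X1 = 1 ∧
      X1 * Matrix.of X = 1 := by
    obtain ⟨t, ht⟩ := hXdet
    rw [← ht]
    exact ⟨(t⁻¹ : (Matrix (Fin m) (Fin m) E)ˣ).val, t.mul_inv, t.inv_mul⟩
  -- the scalar
  have hχ : ∀ u : U, ∃ c : E, matrixOf A' u * T = c • (T * matrixOf A u) ∧
      Matrix.of X * matrixOf B u = c • (matrixOf B' u * Matrix.of X) := by
    intro u
    have h1 := hR u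
    rw [hRX, ← Matrix.mul_kronecker_mul, ← Matrix.mul_kronecker_mul] at h1
    set Y := Matrix.of X * matrixOf B u with hY
    set Z := T * matrixOf A u with hZ
    set Y' := matrixOf B' u * Matrix.of X with hY'
    set Z' := matrixOf A' u * T with hZ'
    have hent : ∀ i j k l, Y i j * Z k l = Y' i j * Z' k l := by
      intro i j k l
      have h2 := congrFun (congrFun h1 (i, k)) (j, l)
      rwa [Matrix.kronecker_apply, Matrix.kronecker_apply] at h2
    have hY'0 : Y' ≠ 0 := by
      intro h2
      have h3 : matrixOf B' u = 0 := by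
        calc matrixOf B' u = Y' * X1 := by rw [hY', Matrix.mul_assoc, hX1, Matrix.mul_one]
          _ = 0 := by rw [h2, Matrix.zero_mul]
      have h4 : matrixOf B' u * matrixOf B' u⁻¹ = 1 := by
        show (B' u).val * (B' u⁻¹).val = 1
        rw [← Units.val_mul, ← map_mul, mul_inv_cancel, map_one, Units.val_one]
      rw [h3, Matrix.zero_mul] at h4
      have h5 := congrFun (congrFun h4 ⟨0, hm⟩) ⟨0, hm⟩
      rw [Matrix.one_apply_eq] at h5
      exact zero_ne_one h5
    have hZ0 : Z ≠ 0 := by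
      intro h2
      have h3 : matrixOf A u = 0 := by
        calc matrixOf A u = T1 * Z := by rw [hZ, ← Matrix.mul_assoc, hT2, Matrix.one_mul]
          _ = 0 := by rw [h2, Matrix.mul_zero]
      have h4 : matrixOf A u * matrixOf A u⁻¹ = 1 := by
        show (A u).val * (A u⁻¹).val = 1
        rw [← Units.val_mul, ← map_mul, mul_inv_cancel, map_one, Units.val_one]
      rw [h3, Matrix.zero_mul] at h4
      have h5 := congrFun (congrFun h4 ⟨0, ha⟩) ⟨0, ha⟩
      rw [Matrix.one_apply_eq] at h5
      exact zero_ne_one h5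
    obtain ⟨i, j, hij⟩ : ∃ i j, Y' i j ≠ 0 := by
      by_contra hcon
      push Not at hcon
      exact hY'0 (Matrix.ext fun i j => hcon i j)
    obtain ⟨k, l, hkl⟩ : ∃ k l, Z k l ≠ 0 := by
      by_contra hcon
      push Not at hcon
      exact hZ0 (Matrix.ext fun k l => hcon k l)
    have h2 : Z' = (Y i j / Y' i j) • Z := by
      ext k l
      rw [Matrix.smul_apply, smul_eq_mul]
      field_simp
      rw [hent i j k l]
      ring
    refine ⟨Y i j / Y' i j, h2, ?_⟩
    ext i' j'
    have h3 := hent i' j' k l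
    rw [h2, Matrix.smul_apply, smul_eq_mul] at h3
    rw [Matrix.smul_apply, smul_eq_mul]
    apply mul_right_cancel₀ hkl
    rw [h3]
    ring
  choose c hc1 hc2 using hχ
  have hA'c : ∀ u, matrixOf A' u = c u • (T * matrixOf A u * T1) := by
    intro u
    calc matrixOf A' u = (matrixOf A' u * T) * T1 := by
          rw [Matrix.mul_assoc, hT1, Matrix.mul_one]
      _ = _ := by rw [hc1, Matrix.smul_mul]
  have hne : ∀ u, T * matrixOf A u * T1 ≠ 0 := by
    intro u h2
    have h3 : matrixOf A' u = 0 := by rw [hA'c u, h2, smul_zero]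
    have h4 : matrixOf A' u * matrixOf A' u⁻¹ = 1 := by
      show (A' u).val * (A' u⁻¹).val = 1
      rw [← Units.val_mul, ← map_mul, mul_inv_cancel, map_one, Units.val_one]
    rw [h3, Matrix.zero_mul] at h4
    have h5 := congrFun (congrFun h4 ⟨0, ha⟩) ⟨0, ha⟩
    rw [Matrix.one_apply_eq] at h5
    exact zero_ne_one h5
  have hmA : ∀ u v : U, matrixOf A (u * v) = matrixOf A u * matrixOf A v := fun u v => by
    show (A (u * v)).val = _
    rw [map_mul, Units.val_mul]
  have hmA' : ∀ u v : U, matrixOf A' (u * v) = matrixOf A' u * matrixOf A' v := fun u v => by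
    show (A' (u * v)).val = _
    rw [map_mul, Units.val_mul]
  let χ : U →* E :=
    { toFun := c
      map_one' := by
        have h1 := hA'c 1
        have h2 : matrixOf A' (1 : U) = 1 := by
          show (A' 1).val = 1
          rw [map_one, Units.val_one]
        have h3 : matrixOf A (1 : U) = 1 := by
          show (A 1).val = 1
          rw [map_one, Units.val_one]
        rw [h2, h3, Matrix.mul_one, hT1] at h1
        have h4 := congrFun (congrFun h1 ⟨0, ha⟩) ⟨0, ha⟩
        rw [Matrix.smul_apply, Matrix.one_apply_eq, smul_eq_mul, mul_one] at h4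
        exact h4.symm
      map_mul' := by
        intro u v
        have h1 : (c (u * v)) • (T * matrixOf A (u * v) * T1) =
            (c u * c v) • (T * matrixOf A (u * v) * T1) := by
          rw [← hA'c, hmA', hA'c u, hA'c v, hmA, Matrix.smul_mul, Matrix.mul_smul, smul_smul]
          congr 1
          calc T * matrixOf A u * T1 * (T * matrixOf A v * T1) =
                T * matrixOf A u * (T1 * T) * matrixOf A v * T1 := by
                simp only [Matrix.mul_assoc]
            _ = T * (matrixOf A u * matrixOf A v) * T1 := by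
                rw [hT2, Matrix.mul_one]
                simp only [Matrix.mul_assoc]
        exact smul_left_injective E (hne (u * v)) h1 }
  refine ⟨χ, ?_, ?_, ⟨T, T1, hT1, hT2, hA'c⟩, ⟨X1, Matrix.of X, hX2, hX1, ?_⟩⟩
  · intro u
    have h1 := congrArg Matrix.det (hA'c u)
    have h2 : (T * matrixOf A u * T1).det = (matrixOf A u).det := by
      rw [Matrix.det_mul, Matrix.det_mul, mul_right_comm, ← Matrix.det_mul, hT1, Matrix.det_one,
        one_mul]
    rw [Matrix.det_smul, h2, Fintype.card_fin] at h1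
    have h3 : (matrixOf A' u).det ^ m = (c u ^ a * (matrixOf A u).det) ^ m := by rw [h1]
    rw [mul_pow, hdA, hdA', mul_one, ← pow_mul, mul_comm a m] at h3
    exact h3.symm
  · intro u hu
    have h1 := hc2 u
    have h3 : matrixOf B u = 1 := by
      show ((B u : GL (Fin m) E) : Matrix (Fin m) (Fin m) E) = 1
      rw [hB u hu, Units.val_one]
    have h4 : matrixOf B' u = 1 := by
      show ((B' u : GL (Fin m) E) : Matrix (Fin m) (Fin m) E) = 1
      rw [hB' u hu, Units.val_one]
    rw [h3, h4, Matrix.mul_one, Matrix.one_mul] at h1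
    have h5 : (1 : Matrix (Fin m) (Fin m) E) = c u • 1 := by
      rw [← hX1, ← Matrix.smul_mul, ← h1]
    have h6 := congrFun (congrFun h5 ⟨0, hm⟩) ⟨0, hm⟩
    rw [Matrix.smul_apply, Matrix.one_apply_eq, smul_eq_mul, mul_one] at h6
    exact h6.symm
  · intro u
    show matrixOf B u = c u • (X1 * matrixOf B' u * Matrix.of X)
    calc matrixOf B u = X1 * (Matrix.of X * matrixOf B u) := by
          rw [← Matrix.mul_assoc, hX2, Matrix.one_mul]
      _ = _ := by rw [hc2, Matrix.mul_smul, Matrix.mul_assoc]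

/-- uniqueness -/
theorem unique [IsAlgClosed E] (hn : 0 < n) {ρ : G →* GL (Fin n) E} {N U : Subgroup G}
    {m a m' a' : ℕ} {B : U →* GL (Fin m) E} {A : U →* GL (Fin a) E} {B' : U →* GL (Fin m') E}
    {A' : U →* GL (Fin a') E} (h : IsDecomposition ρ N U B A) (h' : IsDecomposition ρ N U B' A') :
    ∃ χ : U →* E, (∀ u, χ u ^ n = 1) ∧ (∀ u : U, (u : G) ∈ N → χ u = 1) ∧ IsTwist χ A A' ∧
      IsTwist χ B' B := by
  obtain ⟨hma, ⟨P, Q, hPQ, hQP, hρ⟩, hB, hA, hd⟩ := h
  obtain ⟨hma', ⟨P', Q', hPQ', hQP', hρ'⟩, hB', hA', hd'⟩ := h'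
  have hm : 0 < m := Nat.pos_of_ne_zero fun h0 => by rw [h0, zero_mul] at hma; omega
  have ha : 0 < a := Nat.pos_of_ne_zero fun h0 => by rw [h0, mul_zero] at hma; omega
  have hRS : (Q' * P) * (Q * P') = 1 := by
    calc (Q' * P) * (Q * P') = Q' * (P * Q) * P' := by simp only [Matrix.mul_assoc]
      _ = 1 := by rw [hPQ, Matrix.mul_one, hQP']
  have hR : ∀ u : U, (Q' * P) * (matrixOf B u ⊗ₖ matrixOf A u) =
      (matrixOf B' u ⊗ₖ matrixOf A' u) * (Q' * P) := by
    intro u
    have h1 := (hρ u).symm.trans (hρ' u)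
    calc (Q' * P) * (matrixOf B u ⊗ₖ matrixOf A u) =
          Q' * (P * (matrixOf B u ⊗ₖ matrixOf A u) * Q) * P := by
          simp only [Matrix.mul_assoc]
          rw [hQP, Matrix.mul_one]
      _ = (Q' * P') * (matrixOf B' u ⊗ₖ matrixOf A' u) * (Q' * P) := by
          rw [h1]
          simp only [Matrix.mul_assoc]
      _ = _ := by rw [hQP', Matrix.one_mul]
  have hblock : ∀ (i : Fin m') (j : Fin m), ∀ u ∈ N.subgroupOf U,
      (Matrix.of fun k l => (Q' * P) (i, k) (j, l)) * matrixOf A u =
        matrixOf A' u * (Matrix.of fun k l => (Q' * P) (i, k) (j, l)) := by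
    intro i j u hu
    have h2 := hR u
    have h3 : matrixOf B u = 1 := by
      show ((B u : GL (Fin m) E) : Matrix (Fin m) (Fin m) E) = 1
      rw [hB u hu, Units.val_one]
    have h4 : matrixOf B' u = 1 := by
      show ((B' u : GL (Fin m') E) : Matrix (Fin m') (Fin m') E) = 1
      rw [hB' u hu, Units.val_one]
    rw [h3, h4] at h2
    ext k l
    have h5 := congrFun (congrFun h2 (i, k)) (j, l)
    rw [Matrix.mul_apply (M := Q' * P), Matrix.mul_apply (N := Q' * P), Fintype.sum_prod_type,
      Fintype.sum_prod_type, Finset.sum_eq_single j, Finset.sum_eq_single i] at h5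
    · simp only [Matrix.kronecker_apply, Matrix.one_apply_eq, one_mul] at h5
      rw [Matrix.mul_apply, Matrix.mul_apply]
      exact h5
    · intro b _ hb
      refine Finset.sum_eq_zero fun x _ => ?_
      rw [Matrix.kronecker_apply, Matrix.one_apply_ne hb.symm, zero_mul, zero_mul]
    · intro h; exact absurd (Finset.mem_univ _) h
    · intro b _ hb
      refine Finset.sum_eq_zero fun x _ => ?_
      rw [Matrix.kronecker_apply, Matrix.one_apply_ne hb, zero_mul, mul_zero]
    · intro h; exact absurd (Finset.mem_univ _) h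
  obtain ⟨i, j, hij⟩ : ∃ (i : Fin m') (j : Fin m),
      (Matrix.of fun k l => (Q' * P) (i, k) (j, l)) ≠ 0 := by
    by_contra hcon
    push Not at hcon
    have h0 : Q' * P = 0 := by
      ext ⟨i, k⟩ ⟨j, l⟩
      exact congrFun (congrFun (hcon i j) k) l
    have h1 : (Q * P') * (Q' * P) = 1 := by
      calc (Q * P') * (Q' * P) = Q * (P' * Q') * P := by simp only [Matrix.mul_assoc]
        _ = 1 := by rw [hPQ', Matrix.mul_one, hQP]
    rw [h0, Matrix.mul_zero] at h1
    have h5 := congrFun (congrFun h1 (⟨0, hm⟩, ⟨0, ha⟩)) (⟨0, hm⟩, ⟨0, ha⟩)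
    rw [Matrix.one_apply_eq] at h5
    exact zero_ne_one h5
  have hbij := schur_rank ha hA hA' hij (hblock i j)
  have haa : a' = a := by
    have h1 := (LinearEquiv.ofBijective _ hbij).finrank_eq
    rw [Module.finrank_fin_fun, Module.finrank_fin_fun] at h1
    exact h1.symm
  subst haa
  have hmm : m' = m := by
    rw [← hma] at hma'
    exact Nat.eq_of_mul_eq_mul_right ha hma'
  subst hmm
  have hT : IsUnit (Matrix.of fun k l => (Q' * P) (i, k) (j, l)) :=
    Matrix.mulVec_injective_iff_isUnit.1 hbij.1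
  obtain ⟨χ, h1, h2, h3, h4⟩ := unique_aux hm ha hB hB' hA hRS hR hT (hblock i j)
    (fun u => (hd u).1) (fun u => (hd' u).1)
  refine ⟨χ, fun u => ?_, h2, h3, h4⟩
  rw [← hma]
  exact h1 u

end Pool.Agent.H313.TE
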