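import Mathlib

/-!
Finitely generated groups of matrices with algebraic entries are close to one on subgroups of finite
index, for a suitable `p`-adic absolute value.
-/

set_option autoImplicit false
set_option linter.all false
set_option maxHeartbeats 4000000

open Matrix Polynomial Module Topology Filter

namespace Pool.Agent.H313.TE

section ultra

variable {K : Type} [NormedField K] [IsUltrametricDist K]

theorem sum_le {ι : Type} (s : Finset ι) (f : ι → K) {c : ℝ} (hc : 0 ≤ c)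
    (h : ∀ i ∈ s, ‖f i‖ ≤ c) : ‖∑ i ∈ s, f i‖ ≤ c := by
  classical
  induction s using Finset.induction_on with
  | empty => simpa using hc
  | insert a s ha ih =>
    rw [Finset.sum_insert ha]
    refine (IsUltrametricDist.norm_add_le_max _ _).trans (max_le ?_ ?_)
    · exact h a (Finset.mem_insert_self a s)
    · exact ih fun i hi => h i (Finset.mem_insert_of_mem hi)

theorem sum_lt {ι : Type} (s : Finset ι) (f : ι → K) {c : ℝ} (hc : 0 < c)
    (h : ∀ i ∈ s, ‖f i‖ < c) : ‖∑ i ∈ s, f i‖ < c := by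
  classical
  induction s using Finset.induction_on with
  | empty => simpa using hc
  | insert a s ha ih =>
    rw [Finset.sum_insert ha]
    refine (IsUltrametricDist.norm_add_le_max _ _).trans_lt (max_lt ?_ ?_)
    · exact h a (Finset.mem_insert_self a s)
    · exact ih fun i hi => h i (Finset.mem_insert_of_mem hi)

theorem int_le (z : ℤ) : ‖(z : K)‖ ≤ 1 := by
  rcases Int.natAbs_eq z with h | h
  · rw [h, Int.cast_natCast]
    exact IsUltrametricDist.norm_natCast_le_one K _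
  · rw [h, Int.cast_neg, norm_neg, Int.cast_natCast]
    exact IsUltrametricDist.norm_natCast_le_one K _

theorem integral_le {x : K} (hx : IsIntegral ℤ x) : ‖x‖ ≤ 1 := by
  by_contra hcon
  rw [not_le] at hcon
  obtain ⟨q, hq, hqx⟩ := hx
  rw [Polynomial.eval₂_eq_sum_range, Finset.sum_range_succ, hq.coeff_natDegree, map_one,
    one_mul] at hqx
  have h1 : x ^ q.natDegree = -∑ i ∈ Finset.range q.natDegree,
      (Int.castRingHom K) (q.coeff i) * x ^ i := by
    rw [eq_neg_iff_add_eq_zero, add_comm]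
    exact hqx
  rcases Nat.eq_zero_or_pos q.natDegree with h0 | h0
  · rw [h0] at h1
    simp at h1
  · have h2 : ‖x ^ q.natDegree‖ ≤ ‖x‖ ^ (q.natDegree - 1) := by
      rw [h1, norm_neg]
      refine sum_le _ _ (pow_nonneg (norm_nonneg _) _) fun i hi => ?_
      rw [norm_mul, norm_pow]
      have h3 : ‖(Int.castRingHom K) (q.coeff i)‖ ≤ 1 := int_le _
      have h4 : ‖x‖ ^ i ≤ ‖x‖ ^ (q.natDegree - 1) :=
        pow_le_pow_right₀ hcon.le (by have := Finset.mem_range.1 hi; omega)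
      calc ‖(Int.castRingHom K) (q.coeff i)‖ * ‖x‖ ^ i ≤ 1 * ‖x‖ ^ i :=
            mul_le_mul_of_nonneg_right h3 (pow_nonneg (norm_nonneg _) _)
        _ ≤ _ := by rw [one_mul]; exact h4
    rw [norm_pow] at h2
    have h3 : ‖x‖ ^ (q.natDegree - 1) < ‖x‖ ^ q.natDegree :=
      pow_lt_pow_right₀ hcon (by omega)
    exact absurd h2 (not_le.2 h3)

variable {n : ℕ} {G : Type} [Group G]

/-- the elements near one -/
def nearOne (r : G →* GL (Fin n) K) (hb : ∀ g i j, ‖(r g : Matrix (Fin n) (Fin n) K) i j‖ ≤ 1)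
    {ε : ℝ} (hε : 0 < ε) : Subgroup G where
  carrier := {g | ∀ i j, ‖((r g : Matrix (Fin n) (Fin n) K) - 1) i j‖ < ε}
  one_mem' := by
    intro i j
    rw [map_one, Units.val_one, sub_self, Matrix.zero_apply, norm_zero]
    exact hε
  mul_mem' := by
    intro g h hg hh i j
    have h1 : ((r (g * h) : Matrix (Fin n) (Fin n) K) - 1) =
        (r g : Matrix (Fin n) (Fin n) K) * ((r h : Matrix (Fin n) (Fin n) K) - 1) +
          ((r g : Matrix (Fin n) (Fin n) K) - 1) := by
      rw [map_mul, Units.val_mul, mul_sub, mul_one]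
      abel
    rw [h1, Matrix.add_apply]
    refine (IsUltrametricDist.norm_add_le_max _ _).trans_lt (max_lt ?_ (hg i j))
    rw [Matrix.mul_apply]
    refine sum_lt _ _ hε fun k _ => ?_
    rw [norm_mul]
    calc _ ≤ 1 * ‖((r h : Matrix (Fin n) (Fin n) K) - 1) k j‖ :=
          mul_le_mul_of_nonneg_right (hb g i k) (norm_nonneg _)
      _ < ε := by rw [one_mul]; exact hh k j
  inv_mem' := by
    intro g hg i j
    have h1 : ((r g⁻¹ : Matrix (Fin n) (Fin n) K) - 1) =
        -((r g⁻¹ : Matrix (Fin n) (Fin n) K) * ((r g : Matrix (Fin n) (Fin n) K) - 1)) := by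
      have h2 : (r g⁻¹ : Matrix (Fin n) (Fin n) K) * (r g : Matrix (Fin n) (Fin n) K) = 1 := by
        rw [← Units.val_mul, ← map_mul, inv_mul_cancel, map_one, Units.val_one]
      rw [mul_sub, h2, mul_one]
      abel
    rw [h1, Matrix.neg_apply, norm_neg, Matrix.mul_apply]
    refine sum_lt _ _ hε fun k _ => ?_
    rw [norm_mul]
    calc _ ≤ 1 * ‖((r g : Matrix (Fin n) (Fin n) K) - 1) k j‖ :=
          mul_le_mul_of_nonneg_right (hb g⁻¹ i k) (norm_nonneg _)
      _ < ε := by rw [one_mul]; exact hg k j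

/-- they form a subgroup of finite index, if the entries lie in a proper subspace -/
theorem nearOne_finite (r : G →* GL (Fin n) K)
    (hb : ∀ g i j, ‖(r g : Matrix (Fin n) (Fin n) K) i j‖ ≤ 1) {ε : ℝ} (hε : 0 < ε)
    (T : Set K) (hT : ∀ δ > 0, ∃ t : Set K, t.Finite ∧ ∀ x ∈ T, ‖x‖ ≤ 1 → ∃ y ∈ t, ‖x - y‖ < δ)
    (hr : ∀ g i j, (r g : Matrix (Fin n) (Fin n) K) i j ∈ T) :
    (nearOne r hb hε).FiniteIndex := by
  classical
  obtain ⟨t, ht, htc⟩ := hT ε hε
  choose c hc1 hc2 using fun (g : G) (i j : Fin n) => htc _ (hr g i j) (hb g i j)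
  haveI : Finite t := ht
  let f : G → Fin n → Fin n → t := fun g i j => ⟨c g i j, hc1 g i j⟩
  have hf : ∀ g h, f g = f h → g⁻¹ * h ∈ nearOne r hb hε := by
    intro g h hgh i j
    have h1 : ∀ k l, ‖((r h : Matrix (Fin n) (Fin n) K) - (r g : Matrix (Fin n) (Fin n) K)) k l‖
        < ε := by
      intro k l
      have h2 : c g k l = c h k l := congrArg Subtype.val (congrFun (congrFun hgh k) l)
      have h3 : ((r h : Matrix (Fin n) (Fin n) K) - (r g : Matrix (Fin n) (Fin n) K)) k l =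
          ((r h : Matrix (Fin n) (Fin n) K) k l - c h k l) +
          -((r g : Matrix (Fin n) (Fin n) K) k l - c g k l) := by
        rw [Matrix.sub_apply, h2]
        ring
      rw [h3]
      refine (IsUltrametricDist.norm_add_le_max _ _).trans_lt (max_lt (hc2 h k l) ?_)
      rw [norm_neg]
      exact hc2 g k l
    have h2 : ((r (g⁻¹ * h) : Matrix (Fin n) (Fin n) K) - 1) =
        (r g⁻¹ : Matrix (Fin n) (Fin n) K) *
          ((r h : Matrix (Fin n) (Fin n) K) - (r g : Matrix (Fin n) (Fin n) K)) := by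
      have h3 : (r g⁻¹ : Matrix (Fin n) (Fin n) K) * (r g : Matrix (Fin n) (Fin n) K) = 1 := by
        rw [← Units.val_mul, ← map_mul, inv_mul_cancel, map_one, Units.val_one]
      rw [map_mul, Units.val_mul, mul_sub, h3]
    rw [h2, Matrix.mul_apply]
    refine sum_lt _ _ hε fun k _ => ?_
    rw [norm_mul]
    calc _ ≤ 1 * ‖((r h : Matrix (Fin n) (Fin n) K) - (r g : Matrix (Fin n) (Fin n) K)) k j‖ :=
          mul_le_mul_of_nonneg_right (hb g⁻¹ i k) (norm_nonneg _)
      _ < ε := by rw [one_mul]; exact h1 k j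
  have hfin : Finite (G ⧸ nearOne r hb hε) := by
    refine Finite.of_injective (fun q : G ⧸ nearOne r hb hε => f q.out) fun q q' h => ?_
    have h1 := hf _ _ h
    rw [← QuotientGroup.out_eq' q, ← QuotientGroup.out_eq' q']
    exact QuotientGroup.eq.2 h1
  exact Subgroup.finiteIndex_of_finite_quotient

end ultra

theorem alg1 : Algebra.IsAlgebraic ℚ (AlgebraicClosure ℚ) := AlgebraicClosure.isAlgebraic ℚ

theorem alg2 (s : Finset (AlgebraicClosure ℚ)) :
    ∃ d : ℤ, d ≠ 0 ∧ ∀ x ∈ s, IsIntegral ℤ ((d : AlgebraicClosure ℚ) * x) := by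
  haveI : Algebra.IsAlgebraic ℤ ℚ := IsLocalization.isAlgebraic ℚ (nonZeroDivisors ℤ)
  haveI := alg1
  haveI : Algebra.IsAlgebraic ℤ (AlgebraicClosure ℚ) := Algebra.IsAlgebraic.trans ℤ ℚ _
  obtain ⟨d, hd, h⟩ := Algebra.IsAlgebraic.exists_integral_multiples ℤ s
  refine ⟨d, hd, fun x hx => ?_⟩
  have := h x hx
  rwa [zsmul_eq_mul] at this

/-- an embedding for which finitely many elements have absolute value at most one -/
theorem exists_emb (s : Finset (AlgebraicClosure ℚ)) :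
    ∃ (p : ℕ) (_ : Fact p.Prime) (i : AlgebraicClosure ℚ →+* PadicAlgCl p),
      ∀ x ∈ s, ‖i x‖ ≤ 1 := by
  obtain ⟨d, hd, h⟩ := alg2 s
  obtain ⟨p, hp1, hp2⟩ := Nat.exists_infinite_primes (d.natAbs + 1)
  haveI : Fact p.Prime := ⟨hp2⟩
  haveI := alg1
  letI : Algebra ℚ (PadicAlgCl p) := DivisionRing.toRatAlgebra
  let i : AlgebraicClosure ℚ →+* PadicAlgCl p :=
    (IsAlgClosed.lift (R := ℚ) (S := AlgebraicClosure ℚ) (M := PadicAlgCl p)).toRingHom
  refine ⟨p, ⟨hp2⟩, i, fun x hx => ?_⟩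
  have h1 : IsIntegral ℤ (i ((d : AlgebraicClosure ℚ) * x)) := by
    exact (h x hx).map i.toIntAlgHom
  have h2 := integral_le h1
  rw [map_mul, norm_mul, map_intCast] at h2
  have h3 : ‖((d : ℤ) : PadicAlgCl p)‖ = 1 := by
    have h4 : ((d : ℤ) : PadicAlgCl p) = algebraMap ℚ_[p] (PadicAlgCl p) (d : ℚ_[p]) := by
      rw [map_intCast]
    rw [h4, PadicAlgCl.norm_extends]
    refine le_antisymm (Padic.norm_int_le_one d) (not_lt.1 fun h5 => ?_)
    rw [Padic.norm_intCast_lt_one_iff] at h5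
    have h6 := Int.natAbs_dvd_natAbs.2 h5
    rw [Int.natAbs_natCast] at h6
    have h7 := Nat.le_of_dvd (Int.natAbs_pos.2 hd) h6
    omega
  rwa [h3, one_mul] at h2

/-- the elements of a finite extension of `ℚ_p` -/
theorem finite_net (p : ℕ) [Fact p.Prime] (s : Finset (PadicAlgCl p)) :
    ∀ δ > 0, ∃ t : Set (PadicAlgCl p), t.Finite ∧
      ∀ x ∈ (IntermediateField.adjoin ℚ_[p] (s : Set (PadicAlgCl p)) : Set (PadicAlgCl p)),
        ‖x‖ ≤ 1 → ∃ y ∈ t, ‖x - y‖ < δ := by
  intro δ hδ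
  let L := IntermediateField.adjoin ℚ_[p] (s : Set (PadicAlgCl p))
  haveI : FiniteDimensional ℚ_[p] L := by
    refine IntermediateField.finiteDimensional_adjoin fun x _ => ?_
    exact Algebra.IsIntegral.isIntegral x
  have hnorm : ∀ x : L, ‖x‖ = ‖(x : PadicAlgCl p)‖ := fun x => rfl
  haveI : ProperSpace L := FiniteDimensional.proper ℚ_[p] L
  have h1 : TotallyBounded (Metric.closedBall (0 : L) 1) :=
    (isCompact_closedBall (0 : L) 1).totallyBounded
  obtain ⟨t, ht, htc⟩ := Metric.totallyBounded_iff.1 h1 δ hδ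
  refine ⟨Subtype.val '' t, ht.image _, fun x hx hx1 => ?_⟩
  have h2 : (⟨x, hx⟩ : L) ∈ Metric.closedBall (0 : L) 1 := by
    rw [mem_closedBall_zero_iff]
    exact hx1
  have h3 := htc h2
  rw [Set.mem_iUnion₂] at h3
  obtain ⟨y, hy, hyx⟩ := h3
  refine ⟨y, ⟨y, hy, rfl⟩, ?_⟩
  rw [Metric.mem_ball, dist_eq_norm] at hyx
  exact hyx

/-- the absolute value -/
theorem exists_padic {n : ℕ} {G : Type} [Group G] [Group.FG G]
    (ρ : G →* GL (Fin n) (AlgebraicClosure ℚ)) :
    ∃ (p : ℕ) (_ : Fact p.Prime) (i : AlgebraicClosure ℚ →+* PadicAlgCl p),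
      ∀ ε : ℝ, 0 < ε → ∃ U : Subgroup G, U.FiniteIndex ∧ ∀ g ∈ U, ∀ k l,
        ‖i (((ρ g : Matrix (Fin n) (Fin n) (AlgebraicClosure ℚ)) - 1) k l)‖ < ε := by
  classical
  obtain ⟨T, hT⟩ := Group.fg_def.1 (inferInstance : Group.FG G)
  let s : Finset (AlgebraicClosure ℚ) := T.biUnion fun t => Finset.univ.biUnion fun i : Fin n =>
    Finset.univ.biUnion fun j : Fin n => {(ρ t).val i j, (ρ t⁻¹).val i j}
  have hs1 : ∀ t ∈ T, ∀ i j, (ρ t).val i j ∈ s := by
    intro t ht i j
    simp only [s, Finset.mem_biUnion]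
    exact ⟨t, ht, i, by simp, j, by simp, by simp⟩
  have hs2 : ∀ t ∈ T, ∀ i j, (ρ t⁻¹).val i j ∈ s := by
    intro t ht i j
    simp only [s, Finset.mem_biUnion]
    exact ⟨t, ht, i, by simp, j, by simp, by simp⟩
  obtain ⟨p, hp, i, hi⟩ := exists_emb s
  haveI := hp
  refine ⟨p, hp, i, ?_⟩
  let r : G →* GL (Fin n) (PadicAlgCl p) := (Matrix.GeneralLinearGroup.map i).comp ρ
  have hr : ∀ g k l, (r g : Matrix (Fin n) (Fin n) (PadicAlgCl p)) k l = i ((ρ g).val k l) :=
    fun g k l => rfl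
  -- an induction principle
  have hind : ∀ (C : Set (PadicAlgCl p)), (0 : PadicAlgCl p) ∈ C → (1 : PadicAlgCl p) ∈ C →
      (∀ x ∈ C, ∀ y ∈ C, x + y ∈ C) → (∀ x ∈ C, ∀ y ∈ C, x * y ∈ C) →
      (∀ x ∈ s, i x ∈ C) → ∀ g k l, (r g : Matrix (Fin n) (Fin n) (PadicAlgCl p)) k l ∈ C := by
    intro C h0 h1 hadd hmul hC g
    have hg : g ∈ Subgroup.closure (T : Set G) := by rw [hT]; trivial
    have hsum : ∀ (ι : Finset (Fin n)) (f : Fin n → PadicAlgCl p), (∀ a, f a ∈ C) →
        ∑ a ∈ ι, f a ∈ C := by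
      intro ι f hf
      induction ι using Finset.induction_on with
      | empty => simpa using h0
      | insert a ι ha ih =>
        rw [Finset.sum_insert ha]
        exact hadd _ (hf a) _ ih
    have hmm : ∀ x y : G, (∀ k l, (r x : Matrix (Fin n) (Fin n) (PadicAlgCl p)) k l ∈ C) →
        (∀ k l, (r y : Matrix (Fin n) (Fin n) (PadicAlgCl p)) k l ∈ C) →
        ∀ k l, (r (x * y) : Matrix (Fin n) (Fin n) (PadicAlgCl p)) k l ∈ C := by
      intro x y hx hy k l
      rw [map_mul, Units.val_mul, Matrix.mul_apply]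
      exact hsum _ _ fun a => hmul _ (hx k a) _ (hy a l)
    refine Subgroup.closure_induction_left (p := fun g _ => ∀ k l,
      (r g : Matrix (Fin n) (Fin n) (PadicAlgCl p)) k l ∈ C) ?_ ?_ ?_ hg
    · intro k l
      rw [map_one, Units.val_one, Matrix.one_apply]
      split_ifs
      · exact h1
      · exact h0
    · intro x hx y _ hy
      exact hmm x y (fun k l => by rw [hr]; exact hC _ (hs1 x hx k l)) hy
    · intro x hx y _ hy
      exact hmm x⁻¹ y (fun k l => by rw [hr]; exact hC _ (hs2 x hx k l)) hy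
  have hb : ∀ g k l, ‖(r g : Matrix (Fin n) (Fin n) (PadicAlgCl p)) k l‖ ≤ 1 := by
    refine hind {x | ‖x‖ ≤ 1} ?_ ?_ ?_ ?_ ?_
    · show ‖(0 : PadicAlgCl p)‖ ≤ 1
      rw [norm_zero]; exact zero_le_one
    · show ‖(1 : PadicAlgCl p)‖ ≤ 1
      rw [norm_one]
    · intro x hx y hy
      exact (IsUltrametricDist.norm_add_le_max _ _).trans (max_le hx hy)
    · intro x hx y hy
      show ‖x * y‖ ≤ 1
      rw [norm_mul]
      exact mul_le_one₀ hx (norm_nonneg _) hy
    · exact hi
  have hL : ∀ g k l, (r g : Matrix (Fin n) (Fin n) (PadicAlgCl p)) k l ∈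
      (IntermediateField.adjoin ℚ_[p] ((s.image i : Finset (PadicAlgCl p)) : Set (PadicAlgCl p)) :
        Set (PadicAlgCl p)) := by
    refine hind _ ?_ ?_ ?_ ?_ ?_
    · exact zero_mem _
    · exact one_mem _
    · intro x hx y hy
      exact add_mem (S := IntermediateField ℚ_[p] (PadicAlgCl p)) hx hy
    · intro x hx y hy
      exact mul_mem (S := IntermediateField ℚ_[p] (PadicAlgCl p)) hx hy
    · intro x hx
      refine IntermediateField.subset_adjoin _ _ ?_
      rw [Finset.coe_image]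
      exact ⟨x, hx, rfl⟩
  intro ε hε
  refine ⟨nearOne r hb hε, nearOne_finite r hb hε _ (finite_net p (s.image i)) hL, ?_⟩
  intro g hg k l
  have h1 := hg k l
  rw [Matrix.sub_apply, hr] at h1
  rw [Matrix.sub_apply, map_sub]
  have h2 : i ((1 : Matrix (Fin n) (Fin n) (AlgebraicClosure ℚ)) k l) =
      (1 : Matrix (Fin n) (Fin n) (PadicAlgCl p)) k l := by
    rw [Matrix.one_apply, Matrix.one_apply]
    split_ifs
    · rw [map_one]
    · rw [map_zero]
  rw [h2]
  exact h1

end Pool.Agent.H313.TE
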