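import Pool.Agent.H313.TD.Cor
import Pool.Agent.H313.TE.Padic

/-!
The decomposition for finitely generated groups and representations over the algebraic numbers.
-/

set_option autoImplicit false
set_option linter.all false
set_option maxHeartbeats 4000000

open Matrix Topology Filter Kronecker

namespace Pool.Agent.H313.TE

section top

/-- the subgroups of finite index as a basis of neighbourhoods of one -/
@[instance_reducible] def fiBasis (G : Type) [Group G] : GroupFilterBasis G where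
  sets := {s | ∃ V : Subgroup G, V.Normal ∧ V.FiniteIndex ∧ (V : Set G) = s}
  nonempty := ⟨_, ⊤, inferInstance, inferInstance, rfl⟩
  inter_sets := by
    rintro x y ⟨V, hV, hVi, rfl⟩ ⟨W, hW, hWi, rfl⟩
    refine ⟨_, ⟨V ⊓ W, ?_, ?_, rfl⟩, ?_⟩
    · exact Subgroup.normal_inf_normal V W
    · exact inferInstance
    · intro z hz
      exact ⟨hz.1, hz.2⟩
  one' := by
    rintro U ⟨V, hV, hVi, rfl⟩
    exact V.one_mem
  mul' := by
    rintro U ⟨V, hV, hVi, rfl⟩
    refine ⟨_, ⟨V, hV, hVi, rfl⟩, ?_⟩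
    rintro z ⟨a, ha, b, hb, rfl⟩
    exact V.mul_mem ha hb
  inv' := by
    rintro U ⟨V, hV, hVi, rfl⟩
    refine ⟨_, ⟨V, hV, hVi, rfl⟩, ?_⟩
    intro z hz
    exact V.inv_mem hz
  conj' := by
    rintro x U ⟨V, hV, hVi, rfl⟩
    refine ⟨_, ⟨V, hV, hVi, rfl⟩, ?_⟩
    intro z hz
    exact hV.conj_mem z hz x

variable {G : Type} [Group G]

theorem isOpen_iff (U : Subgroup G) :
    @IsOpen G (fiBasis G).topology (U : Set G) ↔ U.FiniteIndex := by
  letI := (fiBasis G).topology
  haveI := (fiBasis G).isTopologicalGroup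
  constructor
  · intro h
    have h1 : (U : Set G) ∈ 𝓝 (1 : G) := h.mem_nhds U.one_mem
    rw [(fiBasis G).nhds_one_hasBasis.mem_iff] at h1
    obtain ⟨_, ⟨V, hV, hVi, rfl⟩, hVU⟩ := h1
    exact Subgroup.finiteIndex_of_le (H := V) hVU
  · intro h
    refine Subgroup.isOpen_of_mem_nhds (g := 1) U ?_
    rw [(fiBasis G).nhds_one_hasBasis.mem_iff]
    exact ⟨_, ⟨U.normalCore, inferInstance, inferInstance, rfl⟩, U.normalCore_le⟩

theorem basis1 : @Pool.Agent.H313.TD.Basis1 G _ (fiBasis G).topology := by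
  letI := (fiBasis G).topology
  intro W hW h1
  have h2 : W ∈ 𝓝 (1 : G) := hW.mem_nhds h1
  rw [(fiBasis G).nhds_one_hasBasis.mem_iff] at h2
  obtain ⟨_, ⟨V, hV, hVi, rfl⟩, hVW⟩ := h2
  exact ⟨V, hV, (isOpen_iff V).2 hVi, hVW⟩

end top

section defs

variable {G : Type} [Group G] {E : Type} [Field E] {n : ℕ}

/-- the matrix of `ρ g` -/
abbrev matrixOf (ρ : G →* GL (Fin n) E) (g : G) : Matrix (Fin n) (Fin n) E :=
  (ρ g : Matrix (Fin n) (Fin n) E)

/-- The restriction of `ρ` to the subgroup `M` has no stable subspaces except zero and everything. -/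
def IrreducibleOn (ρ : G →* GL (Fin n) E) (M : Subgroup G) : Prop :=
  ∀ W : Submodule E (Fin n → E), (∀ h ∈ M, ∀ w ∈ W, matrixOf ρ h *ᵥ w ∈ W) → W = ⊥ ∨ W = ⊤

/-- The restriction of `ρ` to `M ∩ U` is irreducible for all subgroups `U` of finite index. -/
def LieIrreducibleOn (ρ : G →* GL (Fin n) E) (M : Subgroup G) : Prop :=
  ∀ U : Subgroup G, U.FiniteIndex → IrreducibleOn ρ (M ⊓ U)

/-- `ρ` is trivial on `N ∩ U` for some subgroup `U` of finite index. -/
def ComesFromBase (ρ : G →* GL (Fin n) E) (N : Subgroup G) : Prop :=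
  ∃ U : Subgroup G, U.FiniteIndex ∧ ∀ h ∈ N ⊓ U, ρ h = 1

/-- The determinants of the `ρ g` are `M`-th roots of unity for some `M > 0`. -/
def HasFiniteDet (ρ : G →* GL (Fin n) E) : Prop :=
  ∃ M : ℕ, 0 < M ∧ ∀ g, (matrixOf ρ g).det ^ M = 1

/-- The restriction of `ρ` to `U` is isomorphic to the tensor product `B ⊗ A`. -/
def IsTensorProduct {m a : ℕ} (ρ : G →* GL (Fin n) E) (U : Subgroup G) (B : U →* GL (Fin m) E)
    (A : U →* GL (Fin a) E) : Prop :=
  ∃ (P : Matrix (Fin n) (Fin m × Fin a) E) (Q : Matrix (Fin m × Fin a) (Fin n) E),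
    P * Q = 1 ∧ Q * P = 1 ∧ ∀ u : U, matrixOf ρ u = P * (matrixOf B u ⊗ₖ matrixOf A u) * Q

/-- the decomposition -/
def HasDecomposition (ρ : G →* GL (Fin n) E) (N : Subgroup G) : Prop :=
  ∃ (U : Subgroup G) (m a : ℕ) (A : U →* GL (Fin a) E) (B : U →* GL (Fin m) E),
    U.FiniteIndex ∧ m * a = n ∧ IsTensorProduct ρ U B A ∧
    (∀ u : U, (u : G) ∈ N → B u = 1) ∧
    LieIrreducibleOn A (N.subgroupOf U) ∧ LieIrreducibleOn B ⊤ ∧
    (∀ u : U, ρ u = 1 → A u = 1 ∧ B u = 1) ∧
    (∀ u : U, (matrixOf A u).det ^ m = 1 ∧ (matrixOf B u).det ^ a = 1)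

/-- For some subgroup `U` of finite index, the restriction of `ρ` to `N ∩ U` has an eigenvector. -/
def HasLine (ρ : G →* GL (Fin n) E) (N : Subgroup G) : Prop :=
  ∃ v : Fin n → E, v ≠ 0 ∧ ∃ U : Subgroup G, U.FiniteIndex ∧
    ∀ h ∈ N ⊓ U, ∃ c : E, matrixOf ρ h *ᵥ v = c • v

end defs

/-- the decomposition for representations which are near one on subgroups of finite index -/
theorem disc {G : Type} [Group G] (N : Subgroup G) (hN : N.Normal) {E : Type} [NormedField E]
    [CharZero E] [IsAlgClosed E] {n : ℕ} (hn : 0 < n) (ρ : G →* GL (Fin n) E)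
    (hnear : ∀ ε : ℝ, 0 < ε → ∃ U : Subgroup G, U.FiniteIndex ∧ ∀ g ∈ U, ∀ k l,
      ‖((ρ g : Matrix (Fin n) (Fin n) E) - 1) k l‖ < ε)
    (hlie : LieIrreducibleOn ρ ⊤) (hfin : HasFiniteDet ρ) :
    HasDecomposition ρ N ∧ (HasLine ρ N → ComesFromBase ρ N) ∧
      (n.Prime → LieIrreducibleOn ρ N ∨ ComesFromBase ρ N) := by
  letI := (fiBasis G).topology
  haveI := (fiBasis G).isTopologicalGroup
  have hcont : Continuous ρ := by
    have h1 : Continuous fun g => (ρ g : Matrix (Fin n) (Fin n) E) := by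
      rw [continuous_iff_continuousAt]
      intro g
      have h2 : Tendsto (fun h => (ρ h : Matrix (Fin n) (Fin n) E)) (𝓝 1) (𝓝 1) := by
        refine tendsto_pi_nhds.2 fun k => tendsto_pi_nhds.2 fun l => ?_
        rw [Metric.tendsto_nhds]
        intro ε hε
        obtain ⟨U, hU, hUe⟩ := hnear ε hε
        have h3 : (U : Set G) ∈ 𝓝 (1 : G) := ((isOpen_iff U).2 hU).mem_nhds U.one_mem
        filter_upwards [h3] with h hh
        rw [dist_eq_norm]
        have h4 := hUe h hh k l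
        rwa [Matrix.sub_apply] at h4
      have h3 : Tendsto (fun h => g⁻¹ * h) (𝓝 g) (𝓝 1) := by
        have h4 : Tendsto (fun h => g⁻¹ * h) (𝓝 g) (𝓝 (g⁻¹ * g)) :=
          (continuous_const.mul continuous_id).continuousAt
        rwa [inv_mul_cancel] at h4
      have h4 : Tendsto (fun h => (ρ g : Matrix (Fin n) (Fin n) E) *
          (ρ (g⁻¹ * h) : Matrix (Fin n) (Fin n) E)) (𝓝 g)
          (𝓝 ((ρ g : Matrix (Fin n) (Fin n) E) * 1)) :=
        (h2.comp h3).const_mul _
      rw [mul_one] at h4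
      refine h4.congr fun h => ?_
      rw [← Units.val_mul, ← map_mul, mul_inv_cancel_left]
    rw [Units.continuous_iff]
    refine ⟨h1, ?_⟩
    have h2 : (fun u : G => ((ρ u)⁻¹ : GL (Fin n) E).val) =
        fun u => (ρ u⁻¹ : Matrix (Fin n) (Fin n) E) := by
      funext u
      rw [← map_inv]
    show Continuous fun u : G => ((ρ u)⁻¹ : GL (Fin n) E).val
    rw [h2]
    exact h1.comp continuous_inv
  have hlie' : Pool.Agent.H313.TD.Cor.LieIrreducibleOn ρ ⊤ := by
    intro U hU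
    exact hlie U ((isOpen_iff U).1 hU)
  obtain ⟨h1, h2, h3⟩ := Pool.Agent.H313.TD.Cor.full basis1 N hN hn
    (Pool.Agent.H313.TD.roots_normed E hn) ρ hcont hlie' hfin
  have hbase : Pool.Agent.H313.TD.Cor.ComesFromBase ρ N → ComesFromBase ρ N := by
    rintro ⟨U, hU, h⟩
    exact ⟨U, (isOpen_iff U).1 hU, h⟩
  refine ⟨?_, ?_, ?_⟩
  · obtain ⟨U, m, a, A, B, hUo, hma, hT, -, -, hBN, hA, hB, hker, hdet⟩ := h1
    have hUf : U.FiniteIndex := (isOpen_iff U).1 hUo
    have hop : ∀ V : Subgroup U, V.FiniteIndex → IsOpen (V : Set U) := by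
      intro V hV
      have h4 : (V.map U.subtype).FiniteIndex := by
        refine ⟨?_⟩
        rw [Subgroup.index_map_subtype]
        exact mul_ne_zero hV.index_ne_zero hUf.index_ne_zero
      have h5 : IsOpen ((V.map U.subtype : Subgroup G) : Set G) := (isOpen_iff _).2 h4
      have h6 := h5.preimage (continuous_subtype_val : Continuous (Subtype.val : U → G))
      convert h6 using 1
      ext u
      constructor
      · intro hu
        exact ⟨u, hu, rfl⟩
      · rintro ⟨u', hu', h7⟩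
        have h8 : u' = u := Subtype.ext h7
        rwa [h8] at hu'
    refine ⟨U, m, a, A, B, hUf, hma, hT, hBN, ?_, ?_, hker, hdet⟩
    · intro V hV
      exact hA V (hop V hV)
    · intro V hV
      exact hB V (hop V hV)
  · rintro ⟨v, hv, U, hU, h⟩
    exact hbase (h2 ⟨v, hv, U, (isOpen_iff U).2 hU, h⟩)
  · intro hp
    rcases h3 hp with h | h
    · left
      intro U hU
      exact h U ((isOpen_iff U).2 hU)
    · exact Or.inr (hbase h)

/-- the decomposition for finitely generated groups -/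
theorem full {G : Type} [Group G] [Group.FG G] (N : Subgroup G) (hN : N.Normal) {n : ℕ}
    (hn : 0 < n) (ρ : G →* GL (Fin n) (AlgebraicClosure ℚ))
    (hlie : LieIrreducibleOn ρ ⊤) (hfin : HasFiniteDet ρ) :
    HasDecomposition ρ N ∧ (HasLine ρ N → ComesFromBase ρ N) ∧
      (n.Prime → LieIrreducibleOn ρ N ∨ ComesFromBase ρ N) := by
  obtain ⟨p, hp, i, hi⟩ := exists_padic ρ
  letI : NormedField (AlgebraicClosure ℚ) :=
    NormedField.induced (AlgebraicClosure ℚ) (PadicAlgCl p) i i.injective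
  exact disc N hN hn ρ hi hlie hfin

end Pool.Agent.H313.TE
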