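import Mathlib

/-!
Transvections of free groups.
-/

set_option autoImplicit false
set_option linter.all false
set_option maxHeartbeats 4000000

namespace Pool.Agent.H313.TE.TV

open FreeGroup

variable {ι : Type} [DecidableEq ι]

/-- the endomorphism `x_i ↦ x_i y`, other generators fixed -/
def tvHom (i : ι) (y : FreeGroup ι) : FreeGroup ι →* FreeGroup ι :=
  FreeGroup.lift fun k => if k = i then of i * y else of k

theorem tvHom_of (i : ι) (y : FreeGroup ι) (k : ι) :
    tvHom i y (of k) = if k = i then of i * y else of k := by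
  rw [tvHom, FreeGroup.lift_apply_of]

/-- the transvection `x_i ↦ x_i x_j` -/
def tv (i j : ι) (h : j ≠ i) : MulAut (FreeGroup ι) :=
  MonoidHom.toMulEquiv (tvHom i (of j)) (tvHom i (of j)⁻¹)
    (by
      ext k
      by_cases hk : k = i
      · subst hk
        simp [tvHom_of, h]
      · simp [tvHom_of, hk])
    (by
      ext k
      by_cases hk : k = i
      · subst hk
        simp [tvHom_of, h]
      · simp [tvHom_of, hk])

theorem tv_of (i j : ι) (h : j ≠ i) (k : ι) :
    tv i j h (of k) = if k = i then of i * of j else of k := tvHom_of i (of j) k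

theorem ext_gen {σ τ : MulAut (FreeGroup ι)} (h : ∀ k, σ (of k) = τ (of k)) : σ = τ := by
  have h1 : (σ : FreeGroup ι →* FreeGroup ι) = (τ : FreeGroup ι →* FreeGroup ι) := by
    ext k
    exact h k
  apply MulEquiv.ext
  intro w
  exact DFunLike.congr_fun h1 w

theorem tv_pow_ne (i j : ι) (h : j ≠ i) (m : ℕ) (k : ι) (hk : k ≠ i) :
    (tv i j h ^ m) (of k) = of k := by
  induction m with
  | zero => rw [pow_zero, MulAut.one_apply]
  | succ m ih => rw [pow_succ, MulAut.mul_apply, tv_of, if_neg hk, ih]

theorem tv_pow_eq (i j : ι) (h : j ≠ i) (m : ℕ) :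
    (tv i j h ^ m) (of i) = of i * of j ^ m := by
  induction m with
  | zero => rw [pow_zero, MulAut.one_apply, pow_zero, mul_one]
  | succ m ih =>
    rw [pow_succ, MulAut.mul_apply, tv_of, if_pos rfl, _root_.map_mul, ih, tv_pow_ne i j h m j h,
      mul_assoc, ← pow_succ]

section rel

variable {i j k : ι} (hji : j ≠ i) (hjk : j ≠ k) (hik : i ≠ k)

include hji hjk hik

theorem rel_comm : tv i j hji * tv k j hjk = tv k j hjk * tv i j hji := by
  apply ext_gen
  intro x
  simp only [MulAut.mul_apply, tv_of]
  by_cases h1 : x = i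
  · subst h1
    simp [tv_of, hik, hji, hjk, hji.symm, hjk.symm, hik.symm]
  · by_cases h2 : x = k
    · subst h2
      simp [tv_of, hik, hji, hjk, hji.symm, hjk.symm, hik.symm]
    · simp [tv_of, h1, h2]

end rel

end Pool.Agent.H313.TE.TV
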