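import Pool.Agent.H313.TE.LinB
import Pool.Agent.H313.TE.Trans

/-!
The type of a characteristic representation of a free group of rank at least three.
-/

set_option autoImplicit false
set_option linter.all false
set_option maxHeartbeats 4000000

open Matrix

namespace Pool.Agent.H313.TE.Typ

theorem sval_mul {d : ℕ} (a b : SpecialLinearGroup (Fin d) ℂ) : (a * b).val = a.val * b.val := rfl

theorem sval_one {d : ℕ} : (1 : SpecialLinearGroup (Fin d) ℂ).val = 1 := rfl

section general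

variable {F : Type} [Group F] {d : ℕ} (ρ : F →* SpecialLinearGroup (Fin d) ℂ)

/-- the coefficient functions -/
noncomputable def coef : Matrix (Fin d) (Fin d) ℂ →ₗ[ℂ] (F → ℂ) where
  toFun C := fun w => (C * (ρ w).val).trace
  map_add' C D := by
    funext w
    simp only [Matrix.add_mul, Matrix.trace_add, Pi.add_apply]
  map_smul' c C := by
    funext w
    simp only [Matrix.smul_mul, Matrix.trace_smul, Pi.smul_apply, RingHom.id_apply]

/-- the space of coefficient functions -/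
noncomputable def Coef : Submodule ℂ (F → ℂ) := LinearMap.range (coef ρ)

noncomputable instance : FiniteDimensional ℂ (Coef ρ) := by
  unfold Coef
  infer_instance

variable {ρ}

theorem stable_aut {V : Subgroup (MulAut F)} (hρ : ∀ σ ∈ V, ∃ g : SpecialLinearGroup (Fin d) ℂ,
    ∀ w, ρ (σ w) = g * ρ w * g⁻¹) (σ : V) :
    ∀ f ∈ Coef ρ, LinearMap.funLeft ℂ ℂ (fun w => σ.val w) f ∈ Coef ρ := by
  rintro _ ⟨C, rfl⟩
  obtain ⟨g, hg⟩ := hρ σ.val σ.2
  refine ⟨(g⁻¹).val * C * g.val, ?_⟩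
  funext w
  show ((g⁻¹).val * C * g.val * (ρ w).val).trace = (C * (ρ (σ.val w)).val).trace
  rw [hg, sval_mul, sval_mul, mul_assoc, mul_assoc, Matrix.trace_mul_comm (g⁻¹).val]
  simp only [mul_assoc]

theorem stable_trans (u : F) :
    ∀ f ∈ Coef ρ, LinearMap.funLeft ℂ ℂ (fun w => w * u) f ∈ Coef ρ := by
  rintro _ ⟨C, rfl⟩
  refine ⟨(ρ u).val * C, ?_⟩
  funext w
  show ((ρ u).val * C * (ρ w).val).trace = (C * (ρ (w * u)).val).trace
  rw [map_mul, sval_mul, mul_assoc, Matrix.trace_mul_comm (ρ u).val, mul_assoc]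

/-- the action of automorphisms -/
noncomputable def theta {V : Subgroup (MulAut F)}
    (hρ : ∀ σ ∈ V, ∃ g : SpecialLinearGroup (Fin d) ℂ,
    ∀ w, ρ (σ w) = g * ρ w * g⁻¹) : V →* Module.End ℂ (Coef ρ) where
  toFun σ := (LinearMap.funLeft ℂ ℂ (fun w => (σ⁻¹).val w)).restrict (stable_aut hρ σ⁻¹)
  map_one' := by
    apply LinearMap.ext
    intro f
    apply Subtype.ext
    funext w
    show f.val (((1 : V)⁻¹).val w) = f.val w
    rw [inv_one, Subgroup.coe_one, MulAut.one_apply]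
  map_mul' σ τ := by
    apply LinearMap.ext
    intro f
    apply Subtype.ext
    funext w
    show f.val (((σ * τ)⁻¹).val w) = f.val ((τ⁻¹).val ((σ⁻¹).val w))
    rw [_root_.mul_inv_rev, Subgroup.coe_mul, MulAut.mul_apply]

variable (ρ) in
/-- the action of translations -/
noncomputable def trans : F →* Module.End ℂ (Coef ρ) where
  toFun u := (LinearMap.funLeft ℂ ℂ (fun w => w * u)).restrict (stable_trans u)
  map_one' := by
    apply LinearMap.ext
    intro f
    apply Subtype.ext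
    funext w
    show f.val (w * 1) = f.val w
    rw [mul_one]
  map_mul' u v := by
    apply LinearMap.ext
    intro f
    apply Subtype.ext
    funext w
    show f.val (w * (u * v)) = f.val (w * u * v)
    rw [mul_assoc]

theorem theta_trans {V : Subgroup (MulAut F)} (hρ : ∀ σ ∈ V, ∃ g : SpecialLinearGroup (Fin d) ℂ,
    ∀ w, ρ (σ w) = g * ρ w * g⁻¹) (σ : V) (u : F) :
    theta hρ σ * trans ρ u = trans ρ (σ.val u) * theta hρ σ := by
  apply LinearMap.ext
  intro f
  apply Subtype.ext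
  funext w
  show f.val ((σ⁻¹).val w * u) = f.val ((σ⁻¹).val (w * σ.val u))
  rw [map_mul, Subgroup.coe_inv, MulAut.inv_apply_self]

theorem unit_of {G : Type} [Group G] {A : Type} [Monoid A] (f : G →* A) (g : G) : IsUnit (f g) :=
  (Group.isUnit g).map f

/-- eigenvalues of the matrix are eigenvalues of the translation -/
theorem eig_trans {u : F} {c : ℂ} {z : Fin d → ℂ} (hz : z ≠ 0) (h : (ρ u).val *ᵥ z = c • z) :
    ∃ f : Coef ρ, f ≠ 0 ∧ trans ρ u f = c • f := by
  obtain ⟨a, ha⟩ : ∃ a, z a ≠ 0 := by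
    by_contra hcon
    push Not at hcon
    exact hz (funext hcon)
  have hval : ∀ M : Matrix (Fin d) (Fin d) ℂ,
      (vecMulVec z (Pi.single a 1) * M).trace = (M *ᵥ z) a := by
    intro M
    rw [Matrix.trace_mul_comm]
    simp [Matrix.trace, Matrix.mul_apply, Matrix.diag, vecMulVec_apply, Matrix.mulVec, dotProduct,
      Pi.single_apply]
  refine ⟨⟨coef ρ (vecMulVec z (Pi.single a 1)), ⟨_, rfl⟩⟩, ?_, ?_⟩
  · intro h0
    have h1 := congrFun (congrArg Subtype.val h0) 1
    have h2 : (vecMulVec z (Pi.single a 1) * (ρ 1).val).trace = 0 := h1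
    rw [hval, map_one, sval_one, Matrix.one_mulVec] at h2
    exact ha h2
  · apply Subtype.ext
    funext w
    show (vecMulVec z (Pi.single a 1) * (ρ (w * u)).val).trace =
      c * (vecMulVec z (Pi.single a 1) * (ρ w).val).trace
    rw [hval, hval, map_mul, sval_mul, ← Matrix.mulVec_mulVec, h,
      Matrix.mulVec_smul, Pi.smul_apply, smul_eq_mul]

end general

open Pool.Agent.H313.TE.TV Pool.Agent.H313.TE.LA

theorem eig_root {n d : ℕ} {ρ : FreeGroup (Fin n) →* SpecialLinearGroup (Fin d) ℂ}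
    {V : Subgroup (MulAut (FreeGroup (Fin n)))} (hV : V.FiniteIndex)
    (hρ : ∀ σ ∈ V, ∃ g : SpecialLinearGroup (Fin d) ℂ,
    ∀ w, ρ (σ w) = g * ρ w * g⁻¹) {i j k : Fin n} (hji : j ≠ i) (hjk : j ≠ k) (hik : i ≠ k)
    {c : ℂ} {z : Fin d → ℂ} (hz : z ≠ 0)
    (h : (ρ (FreeGroup.of j)).val *ᵥ z = c • z) : ∃ K : ℕ, 0 < K ∧ c ^ K = 1 := by
  obtain ⟨m1, hm1, -, hV1⟩ := Subgroup.exists_pow_mem_of_index_ne_zero hV.index_ne_zero (tv i j hji)
  obtain ⟨m2, hm2, -, hV2⟩ := Subgroup.exists_pow_mem_of_index_ne_zero hV.index_ne_zero (tv k j hjk)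
  let m := m1 * m2
  have hm : 0 < m := Nat.mul_pos hm1 hm2
  have hVr : tv i j hji ^ m ∈ V := by
    rw [pow_mul]
    exact V.pow_mem hV1 _
  have hVs : tv k j hjk ^ m ∈ V := by
    show tv k j hjk ^ (m1 * m2) ∈ V
    rw [mul_comm, pow_mul]
    exact V.pow_mem hV2 _
  let r : V := ⟨tv i j hji ^ m, hVr⟩
  let s : V := ⟨tv k j hjk ^ m, hVs⟩
  let Θ := theta hρ
  set R := Θ r with hR
  set S := Θ s with hS
  set T := trans ρ (FreeGroup.of j ^ m) with hT
  have hRT : R * T = T * R := by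
    rw [hR, hT, theta_trans]
    show trans ρ ((tv i j hji ^ m) (FreeGroup.of j ^ m)) * _ = _
    rw [map_pow, tv_pow_ne i j hji m j hji]
  have hST : S * T = T * S := by
    rw [hS, hT, theta_trans]
    show trans ρ ((tv k j hjk ^ m) (FreeGroup.of j ^ m)) * _ = _
    rw [map_pow, tv_pow_ne k j hjk m j hjk]
  have hRQ : R * trans ρ (FreeGroup.of i) = trans ρ (FreeGroup.of i) * T * R := by
    rw [hR, theta_trans]
    show trans ρ ((tv i j hji ^ m) (FreeGroup.of i)) * _ = _
    rw [tv_pow_eq, map_mul]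
  have hSA : S * trans ρ (FreeGroup.of k) = trans ρ (FreeGroup.of k) * T * S := by
    rw [hS, theta_trans]
    show trans ρ ((tv k j hjk ^ m) (FreeGroup.of k)) * _ = _
    rw [tv_pow_eq, map_mul]
  have hRA : R * trans ρ (FreeGroup.of k) = trans ρ (FreeGroup.of k) * R := by
    rw [hR, theta_trans]
    show trans ρ ((tv i j hji ^ m) (FreeGroup.of k)) * _ = _
    rw [tv_pow_ne i j hji m k hik.symm]
  have hrs : s * r = r * s := by
    apply Subtype.ext
    show tv k j hjk ^ m * tv i j hji ^ m = tv i j hji ^ m * tv k j hjk ^ m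
    have h1 : Commute (tv k j hjk) (tv i j hji) := (rel_comm hji hjk hik).symm
    exact (h1.pow_pow m m).eq
  have hrel : Rel3 R T (trans ρ (FreeGroup.of k)) S (trans ρ (FreeGroup.of i)) :=
    { uR := unit_of _ _
      uT := unit_of _ _
      uA := unit_of _ _
      uB := unit_of _ _
      uQ := unit_of _ _
      comm := hRT
      conj := by rw [hRT, ← mul_assoc, hRQ]
      commA := hRA.symm
      commB := by rw [hS, hR, ← map_mul, ← map_mul, hrs]
      brak := by rw [mul_assoc, hST, ← mul_assoc, hSA] }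
  have hzm : ∀ q : ℕ, (ρ (FreeGroup.of j ^ q)).val *ᵥ z = c ^ q • z := by
    intro q
    induction q with
    | zero => rw [pow_zero, map_one, sval_one, Matrix.one_mulVec, pow_zero, one_smul]
    | succ q ih =>
      rw [pow_succ, map_mul, sval_mul, ← Matrix.mulVec_mulVec, h, Matrix.mulVec_smul, ih,
        smul_smul, pow_succ, mul_comm]
  obtain ⟨f, hf0, hf⟩ := eig_trans hz (hzm m)
  obtain ⟨K, hK, hcK⟩ := root_of_unity3 hrel
    (Module.End.hasEigenvalue_of_hasEigenvector ⟨Module.End.mem_eigenspace_iff.2 hf, hf0⟩)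
  exact ⟨m * K, Nat.mul_pos hm hK, by rw [pow_mul]; exact hcK⟩

theorem dvd_aux {α M : Type} [CommMonoid M] (s : Multiset α) (f g : α → M)
    (h : ∀ a ∈ s, f a ∣ g a) : (s.map f).prod ∣ (s.map g).prod := by
  induction s using Multiset.induction_on with
  | empty => simp
  | cons a s ih =>
    rw [Multiset.map_cons, Multiset.prod_cons, Multiset.map_cons, Multiset.prod_cons]
    exact mul_dvd_mul (h a (Multiset.mem_cons_self a s))
      (ih fun b hb => h b (Multiset.mem_cons_of_mem hb))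

/-- a matrix whose eigenvalues are roots of unity has a unipotent power -/
theorem unip {d : ℕ} (A : Matrix (Fin d) (Fin d) ℂ)
    (h : ∀ (c : ℂ) (z : Fin d → ℂ), z ≠ 0 → A *ᵥ z = c • z → ∃ K : ℕ, 0 < K ∧ c ^ K = 1) :
    ∃ K : ℕ, 0 < K ∧ IsNilpotent (A ^ K - 1) := by
  have hroot : ∀ c ∈ A.charpoly.roots, ∃ K : ℕ, 0 < K ∧ c ^ K = 1 := by
    intro c hc
    have h1 : Module.End.HasEigenvalue (Matrix.toLin' A) c := by
      rw [Module.End.hasEigenvalue_iff_isRoot_charpoly, Matrix.charpoly_toLin']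
      exact Polynomial.isRoot_of_mem_roots hc
    obtain ⟨z, hz, hz0⟩ := h1.exists_hasEigenvector
    rw [Module.End.mem_eigenspace_iff, Matrix.toLin'_apply] at hz
    exact h c z hz0 hz
  have hK : ∃ K : ℕ, 0 < K ∧ ∀ c ∈ A.charpoly.roots, c ^ K = 1 := by
    generalize A.charpoly.roots = s at hroot
    induction s using Multiset.induction_on with
    | empty => exact ⟨1, one_pos, by simp⟩
    | cons a s ih =>
      obtain ⟨K, hK, hs⟩ := ih fun c hc => hroot c (Multiset.mem_cons_of_mem hc)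
      obtain ⟨K', hK', ha⟩ := hroot a (Multiset.mem_cons_self a s)
      refine ⟨K * K', Nat.mul_pos hK hK', fun c hc => ?_⟩
      rcases Multiset.mem_cons.1 hc with rfl | hc
      · rw [mul_comm, pow_mul, ha, one_pow]
      · rw [pow_mul, hs c hc, one_pow]
  obtain ⟨K, hK, hc⟩ := hK
  refine ⟨K, hK, ⟨Multiset.card A.charpoly.roots, ?_⟩⟩
  have h1 : A.charpoly ∣ (Polynomial.X ^ K - 1) ^ (Multiset.card A.charpoly.roots) := by
    have h2 : A.charpoly = (A.charpoly.roots.map fun a => Polynomial.X - Polynomial.C a).prod :=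
      ((IsAlgClosed.splits A.charpoly).eq_prod_roots_of_monic A.charpoly_monic)
    rw [← Multiset.prod_replicate, ← Multiset.map_const']
    nth_rewrite 1 [h2]
    refine dvd_aux _ _ _ ?_
    intro a ha
    rw [Polynomial.dvd_iff_isRoot, Polynomial.IsRoot.def]
    simp [hc a ha]
  obtain ⟨q, hq⟩ := h1
  have h2 := congrArg (Polynomial.aeval A) hq
  rw [map_mul, Matrix.aeval_self_charpoly, zero_mul] at h2
  simpa using h2

theorem exists_two {n : ℕ} (hn : 3 ≤ n) (j : Fin n) : ∃ i k : Fin n, j ≠ i ∧ j ≠ k ∧ i ≠ k := by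
  have h1 : 1 < ((Finset.univ : Finset (Fin n)).erase j).card := by
    rw [Finset.card_erase_of_mem (Finset.mem_univ j), Finset.card_univ, Fintype.card_fin]
    omega
  obtain ⟨i, hi, k, hk, hik⟩ := Finset.one_lt_card.1 h1
  exact ⟨i, k, (Finset.ne_of_mem_erase hi).symm, (Finset.ne_of_mem_erase hk).symm, hik⟩

theorem type_unip {n d : ℕ} (hn : 3 ≤ n) {ρ : FreeGroup (Fin n) →* SpecialLinearGroup (Fin d) ℂ}
    {V : Subgroup (MulAut (FreeGroup (Fin n)))} (hV : V.FiniteIndex)
    (hρ : ∀ σ ∈ V, ∃ g : SpecialLinearGroup (Fin d) ℂ, ∀ w, ρ (σ w) = g * ρ w * g⁻¹)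
    (τ : MulAut (FreeGroup (Fin n))) (j : Fin n) :
    ∃ K : ℕ, 0 < K ∧ IsNilpotent ((ρ (τ (FreeGroup.of j))).val ^ K - 1) := by
  obtain ⟨i, k, hji, hjk, hik⟩ := exists_two hn j
  refine unip _ fun c z hz h => ?_
  let V' : Subgroup (MulAut (FreeGroup (Fin n))) := V.comap (MulAut.conj τ).toMonoidHom
  have hV' : V'.FiniteIndex := by
    refine ⟨?_⟩
    rw [Subgroup.index_comap_of_surjective _ (MulAut.conj τ).surjective]
    exact hV.index_ne_zero
  refine eig_root (ρ := ρ.comp τ.toMonoidHom) hV' ?_ hji hjk hik hz h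
  intro σ hσ
  have hσ' : τ * σ * τ⁻¹ ∈ V := hσ
  obtain ⟨g, hg⟩ := hρ _ hσ'
  refine ⟨g, fun w => ?_⟩
  show ρ (τ (σ w)) = g * ρ (τ w) * g⁻¹
  rw [← hg, MulAut.mul_apply, MulAut.mul_apply, MulAut.inv_apply_self]

end Pool.Agent.H313.TE.Typ
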