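import Pool.Agent.H313.TE.LinC
import Pool.Agent.H313.TE.Typ

/-!
Representations with finite orbit on proper free factors.
-/

set_option autoImplicit false
set_option linter.all false
set_option maxHeartbeats 4000000

open Matrix

namespace Pool.Agent.H313.TE.Fac

open Pool.Agent.H313.TE.TV Pool.Agent.H313.TE.Typ

section tv

variable {ι : Type} [DecidableEq ι]

/-- the free factor generated by the other generators -/
def fac (i : ι) : Subgroup (FreeGroup ι) := Subgroup.closure {x | ∃ j, j ≠ i ∧ x = FreeGroup.of j}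

theorem tvHom_fix (i : ι) (y : FreeGroup ι) (u : FreeGroup ι) (hu : u ∈ fac i) :
    tvHom i y u = u := by
  have h1 : fac i ≤ (tvHom i y).eqLocus (MonoidHom.id _) := by
    unfold fac
    rw [Subgroup.closure_le]
    rintro _ ⟨j, hj, rfl⟩
    show tvHom i y (FreeGroup.of j) = FreeGroup.of j
    rw [tvHom_of, if_neg hj]
  exact h1 hu

theorem tvHom_comp (i : ι) (y : FreeGroup ι) (hy : y ∈ fac i) :
    (tvHom i y⁻¹).comp (tvHom i y) = MonoidHom.id _ := by
  ext k
  show tvHom i y⁻¹ (tvHom i y (FreeGroup.of k)) = FreeGroup.of k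
  rw [tvHom_of]
  by_cases hk : k = i
  · rw [if_pos hk, _root_.map_mul, tvHom_of, if_pos rfl, tvHom_fix i y⁻¹ y hy, inv_mul_cancel_right,
      hk]
  · rw [if_neg hk, tvHom_of, if_neg hk]

/-- the transvection `x_i ↦ x_i y` -/
def tw (i : ι) (y : FreeGroup ι) (hy : y ∈ fac i) : MulAut (FreeGroup ι) :=
  MonoidHom.toMulEquiv (tvHom i y) (tvHom i y⁻¹) (tvHom_comp i y hy) (by
    have h := tvHom_comp i y⁻¹ ((fac i).inv_mem hy)
    rwa [inv_inv] at h)

theorem tw_pow_fix (i : ι) (y : FreeGroup ι) (hy : y ∈ fac i) (m : ℕ) (u : FreeGroup ι)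
    (hu : u ∈ fac i) : (tw i y hy ^ m) u = u := by
  induction m with
  | zero => rw [pow_zero, MulAut.one_apply]
  | succ m ih =>
    rw [pow_succ, MulAut.mul_apply]
    have h1 : tw i y hy u = u := tvHom_fix i y u hu
    rw [h1, ih]

theorem tw_pow_of (i : ι) (y : FreeGroup ι) (hy : y ∈ fac i) (m : ℕ) :
    (tw i y hy ^ m) (FreeGroup.of i) = FreeGroup.of i * y ^ m := by
  induction m with
  | zero => rw [pow_zero, MulAut.one_apply, pow_zero, mul_one]
  | succ m ih =>
    rw [pow_succ, MulAut.mul_apply]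
    have h1 : tw i y hy (FreeGroup.of i) = FreeGroup.of i * y := by
      show tvHom i y (FreeGroup.of i) = _
      rw [tvHom_of, if_pos rfl]
    rw [h1, _root_.map_mul, ih, tw_pow_fix i y hy m y hy, mul_assoc, ← pow_succ]

end tv

open Pool.Agent.H313.TE.LA Pool.Agent.H313.TE.LC

/-- the action on a stable subspace -/
noncomputable def rhom {F : Type} [Group F] {d : ℕ} (ρ : F →* SpecialLinearGroup (Fin d) ℂ)
    (K : Subgroup F) (E : Submodule ℂ (Coef ρ)) (hE : ∀ u : K, ∀ x ∈ E, trans ρ u.val x ∈ E) :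
    K →* Module.End ℂ E where
  toFun u := (trans ρ u.val).restrict (hE u)
  map_one' := by
    apply LinearMap.ext
    intro x
    apply Subtype.ext
    show trans ρ (1 : F) x.val = x.val
    rw [map_one, Module.End.one_apply]
  map_mul' u v := by
    apply LinearMap.ext
    intro x
    apply Subtype.ext
    show trans ρ (u.val * v.val) x.val = trans ρ u.val (trans ρ v.val x.val)
    rw [map_mul, Module.End.mul_apply]

/-- the determinant character on a stable subspace -/
noncomputable def chi {F : Type} [Group F] {d : ℕ} (ρ : F →* SpecialLinearGroup (Fin d) ℂ)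
    (K : Subgroup F) (E : Submodule ℂ (Coef ρ)) (hE : ∀ u : K, ∀ x ∈ E, trans ρ u.val x ∈ E) :
    K →* ℂ := (LinearMap.det (M := E) (A := ℂ)).comp (rhom ρ K E hE)

theorem chi_one {F : Type} [Group F] {d : ℕ} (ρ : F →* SpecialLinearGroup (Fin d) ℂ)
    (K : Subgroup F) (E : Submodule ℂ (Coef ρ)) (hE : ∀ u : K, ∀ x ∈ E, trans ρ u.val x ∈ E)
    (u : K) (hu : u ∈ commutator K) : chi ρ K E hE u = 1 := by
  have h1 := Abelianization.commutator_subset_ker (chi ρ K E hE).toHomUnits hu
  exact congrArg Units.val (MonoidHom.mem_ker.1 h1)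

theorem eig_comm {n d : ℕ} {ρ : FreeGroup (Fin n) →* SpecialLinearGroup (Fin d) ℂ}
    {V : Subgroup (MulAut (FreeGroup (Fin n)))} (hV : V.FiniteIndex)
    (hρ : ∀ σ ∈ V, ∃ g : SpecialLinearGroup (Fin d) ℂ,
    ∀ w, ρ (σ w) = g * ρ w * g⁻¹) (i : Fin n) (y : fac i) (hy : y ∈ commutator (fac i))
    {c : ℂ} {z : Fin d → ℂ} (hz : z ≠ 0)
    (h : (ρ y.val).val *ᵥ z = c • z) : ∃ K : ℕ, 0 < K ∧ c ^ K = 1 := by
  obtain ⟨m, hm, -, hV1⟩ := Subgroup.exists_pow_mem_of_index_ne_zero hV.index_ne_zero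
    (tw i y.val y.2)
  let r : V := ⟨tw i y.val y.2 ^ m, hV1⟩
  let Θ := theta hρ
  set R := Θ r with hR
  set T := trans ρ (y.val ^ m) with hT
  have hfix : ∀ u : fac i, trans ρ u.val * R = R * trans ρ u.val := by
    intro u
    rw [hR, theta_trans]
    show _ = trans ρ ((tw i y.val y.2 ^ m) u.val) * _
    rw [tw_pow_fix i y.val y.2 m u.val u.2]
  have hRT : R * T = T * R := (hfix (y ^ m)).symm
  have hRQ : R * trans ρ (FreeGroup.of i) = trans ρ (FreeGroup.of i) * T * R := by
    rw [hR, theta_trans]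
    show trans ρ ((tw i y.val y.2 ^ m) (FreeGroup.of i)) * _ = _
    rw [tw_pow_of, map_mul]
  have hrel : Rel3 R T (trans ρ (FreeGroup.of i)) :=
    { uR := unit_of _ _
      uT := unit_of _ _
      uQ := unit_of _ _
      comm := hRT
      conj := by rw [hRT, ← mul_assoc, hRQ]
      det1 := by
        intro a h
        exact chi_one ρ (fac i) (R.maxGenEigenspace a)
          (fun u => stable_gen (hfix u) a) (y ^ m) ((commutator (fac i)).pow_mem hy m) }
  have hzm : ∀ q : ℕ, (ρ (y.val ^ q)).val *ᵥ z = c ^ q • z := by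
    intro q
    induction q with
    | zero => rw [pow_zero, map_one, sval_one, Matrix.one_mulVec, pow_zero, one_smul]
    | succ q ih =>
      rw [pow_succ, map_mul, sval_mul, ← Matrix.mulVec_mulVec, h, Matrix.mulVec_smul, ih,
        smul_smul, pow_succ, mul_comm]
  obtain ⟨f, hf0, hf⟩ := eig_trans hz (hzm m)
  obtain ⟨K, hK, hcK⟩ := Pool.Agent.H313.TE.LC.root_of_unity3 hrel
    (Module.End.hasEigenvalue_of_hasEigenvector ⟨Module.End.mem_eigenspace_iff.2 hf, hf0⟩)
  exact ⟨m * K, Nat.mul_pos hm hK, by rw [pow_mul]; exact hcK⟩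

end Pool.Agent.H313.TE.Fac
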