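import Pool.Agent.H313.TE.LinD
import Pool.Agent.H313.TE.Fac

/-!
Representations with finite orbit on proper free factors: all elements.
-/

set_option autoImplicit false
set_option linter.all false
set_option maxHeartbeats 400000

open Matrix

namespace Pool.Agent.H313.TE.Fac2

open Pool.Agent.H313.TE.TV Pool.Agent.H313.TE.Typ Pool.Agent.H313.TE.Fac

section one

open Pool.Agent.H313.TE.LA

theorem trans_root {n d : ℕ} {ρ : FreeGroup (Fin n) →* SpecialLinearGroup (Fin d) ℂ}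
    {V : Subgroup (MulAut (FreeGroup (Fin n)))} (hV : V.FiniteIndex)
    (hρ : ∀ σ ∈ V, ∃ g : SpecialLinearGroup (Fin d) ℂ,
    ∀ w, ρ (σ w) = g * ρ w * g⁻¹) {i j k : Fin n} (hji : j ≠ i) (hjk : j ≠ k) (hik : i ≠ k)
    {c : ℂ} {f : Coef ρ} (hf0 : f ≠ 0)
    (h : trans ρ (FreeGroup.of j) f = c • f) : ∃ K : ℕ, 0 < K ∧ c ^ K = 1 := by
  obtain ⟨m1, hm1, -, hV1⟩ := Subgroup.exists_pow_mem_of_index_ne_zero hV.index_ne_zero (tv i j hji)
  obtain ⟨m2, hm2, -, hV2⟩ := Subgroup.exists_pow_mem_of_index_ne_zero hV.index_ne_zero (tv k j hjk)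
  let m := m1 * m2
  have hm : 0 < m := Nat.mul_pos hm1 hm2
  have hVr : tv i j hji ^ m ∈ V := by
    rw [pow_mul]
    exact V.pow_mem hV1 _
  have hVs : tv k j hjk ^ m ∈ V := by
    show tv k j hjk ^ (m1 * m2) ∈ V
    rw [mul_comm, pow_mul]
    exact V.pow_mem hV2 _
  let r : V := ⟨tv i j hji ^ m, hVr⟩
  let s : V := ⟨tv k j hjk ^ m, hVs⟩
  let Θ := theta hρ
  set R := Θ r with hR
  set S := Θ s with hS
  set T := trans ρ (FreeGroup.of j ^ m) with hT
  have hRT : R * T = T * R := by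
    rw [hR, hT, theta_trans]
    show trans ρ ((tv i j hji ^ m) (FreeGroup.of j ^ m)) * _ = _
    rw [map_pow, tv_pow_ne i j hji m j hji]
  have hST : S * T = T * S := by
    rw [hS, hT, theta_trans]
    show trans ρ ((tv k j hjk ^ m) (FreeGroup.of j ^ m)) * _ = _
    rw [map_pow, tv_pow_ne k j hjk m j hjk]
  have hRQ : R * trans ρ (FreeGroup.of i) = trans ρ (FreeGroup.of i) * T * R := by
    rw [hR, theta_trans]
    show trans ρ ((tv i j hji ^ m) (FreeGroup.of i)) * _ = _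
    rw [tv_pow_eq, map_mul]
  have hSA : S * trans ρ (FreeGroup.of k) = trans ρ (FreeGroup.of k) * T * S := by
    rw [hS, theta_trans]
    show trans ρ ((tv k j hjk ^ m) (FreeGroup.of k)) * _ = _
    rw [tv_pow_eq, map_mul]
  have hRA : R * trans ρ (FreeGroup.of k) = trans ρ (FreeGroup.of k) * R := by
    rw [hR, theta_trans]
    show trans ρ ((tv i j hji ^ m) (FreeGroup.of k)) * _ = _
    rw [tv_pow_ne i j hji m k hik.symm]
  have hrs : s * r = r * s := by
    apply Subtype.ext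
    show tv k j hjk ^ m * tv i j hji ^ m = tv i j hji ^ m * tv k j hjk ^ m
    have h1 : Commute (tv k j hjk) (tv i j hji) := (rel_comm hji hjk hik).symm
    exact (h1.pow_pow m m).eq
  have hrel : Rel3 R T (trans ρ (FreeGroup.of k)) S (trans ρ (FreeGroup.of i)) :=
    { uR := unit_of _ _
      uT := unit_of _ _
      uA := unit_of _ _
      uB := unit_of _ _
      uQ := unit_of _ _
      comm := hRT
      conj := by rw [hRT, ← mul_assoc, hRQ]
      commA := hRA.symm
      commB := by rw [hS, hR, ← map_mul, ← map_mul, hrs]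
      brak := by rw [mul_assoc, hST, ← mul_assoc, hSA] }
  have hzm : ∀ q : ℕ, trans ρ (FreeGroup.of j ^ q) f = c ^ q • f := by
    intro q
    induction q with
    | zero => rw [pow_zero, map_one, Module.End.one_apply, pow_zero, one_smul]
    | succ q ih =>
      rw [pow_succ, map_mul, Module.End.mul_apply, h, map_smul, ih, smul_smul, pow_succ, mul_comm]
  have hf := hzm m
  obtain ⟨K, hK, hcK⟩ := root_of_unity3 hrel
    (Module.End.hasEigenvalue_of_hasEigenvector ⟨Module.End.mem_eigenspace_iff.2 hf, hf0⟩)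
  exact ⟨m * K, Nat.mul_pos hm hK, by rw [pow_mul]; exact hcK⟩

end one

open Pool.Agent.H313.TE.LA Pool.Agent.H313.TE.LD

theorem prod_root (s : Multiset ℂ) (h : ∀ x ∈ s, ∃ K : ℕ, 0 < K ∧ x ^ K = 1) :
    ∃ K : ℕ, 0 < K ∧ s.prod ^ K = 1 := by
  induction s using Multiset.induction_on with
  | empty => exact ⟨1, one_pos, by simp⟩
  | cons a s ih =>
    obtain ⟨K, hK, hs⟩ := ih fun c hc => h c (Multiset.mem_cons_of_mem hc)
    obtain ⟨K', hK', ha⟩ := h a (Multiset.mem_cons_self a s)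
    refine ⟨K * K', Nat.mul_pos hK hK', ?_⟩
    rw [Multiset.prod_cons, mul_pow, mul_comm K, pow_mul, ha, one_pow, one_mul, mul_comm K',
      pow_mul, hs, one_pow]

theorem chi_eq {F : Type} [Group F] {d : ℕ} (ρ : F →* SpecialLinearGroup (Fin d) ℂ)
    (K : Subgroup F) (E : Submodule ℂ (Coef ρ)) (hE : ∀ u : K, ∀ x ∈ E, trans ρ u.val x ∈ E)
    (u : K) : chi ρ K E hE u = LinearMap.det (M := E) (A := ℂ) (rhom ρ K E hE u) := rfl

theorem det_roots {W : Type} [AddCommGroup W] [Module ℂ W] [FiniteDimensional ℂ W]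
    (T : Module.End ℂ W) : LinearMap.det T = T.charpoly.roots.prod :=
  Module.End.det_eq_prod_roots_charpoly_of_splits (IsAlgClosed.splits _)

theorem exists_eig {W : Type} [AddCommGroup W] [Module ℂ W] [FiniteDimensional ℂ W]
    (T : Module.End ℂ W) (c : ℂ) (hc : c ∈ T.charpoly.roots) : ∃ v : W, v ≠ 0 ∧ T v = c • v := by
  have h1 : T.HasEigenvalue c := by
    rw [Module.End.hasEigenvalue_iff_isRoot_charpoly]
    exact Polynomial.isRoot_of_mem_roots hc
  obtain ⟨v, hv, hv0⟩ := h1.exists_hasEigenvector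
  exact ⟨v, hv0, Module.End.mem_eigenspace_iff.1 hv⟩

/-- the determinant character has finite order values -/
theorem chi_root {n d : ℕ} (hn : 3 ≤ n) {ρ : FreeGroup (Fin n) →* SpecialLinearGroup (Fin d) ℂ}
    {V : Subgroup (MulAut (FreeGroup (Fin n)))} (hV : V.FiniteIndex)
    (hρ : ∀ σ ∈ V, ∃ g : SpecialLinearGroup (Fin d) ℂ,
    ∀ w, ρ (σ w) = g * ρ w * g⁻¹) (i : Fin n) (E : Submodule ℂ (Coef ρ))
    (hE : ∀ u : fac i, ∀ x ∈ E, trans ρ u.val x ∈ E) (y : fac i) :
    ∃ K : ℕ, 0 < K ∧ chi ρ (fac i) E hE y ^ K = 1 := by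
  let X : Set (FreeGroup (Fin n)) := {x | ∃ j, j ≠ i ∧ x = FreeGroup.of j}
  let k : Set (fac i) := (fac i).subtype ⁻¹' X
  have hk : Subgroup.closure k = ⊤ := Subgroup.closure_closure_coe_preimage
  let S : Subgroup (fac i) := (CommGroup.torsion ℂˣ).comap (chi ρ (fac i) E hE).toHomUnits
  have hS : ∀ u : fac i, u ∈ S ↔ ∃ K : ℕ, 0 < K ∧ chi ρ (fac i) E hE u ^ K = 1 := by
    intro u
    show IsOfFinOrder ((chi ρ (fac i) E hE).toHomUnits u) ↔ _
    rw [isOfFinOrder_iff_pow_eq_one]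
    constructor
    · rintro ⟨K, hK, h⟩
      exact ⟨K, hK, congrArg Units.val h⟩
    · rintro ⟨K, hK, h⟩
      exact ⟨K, hK, Units.ext h⟩
  have hle : Subgroup.closure k ≤ S := by
    rw [Subgroup.closure_le]
    rintro u ⟨j, hji, hu⟩
    rw [SetLike.mem_coe, hS]
    have hu' : u.val = FreeGroup.of j := hu
    obtain ⟨a, b, ha, hb, hab⟩ := exists_two hn j
    rw [chi_eq, det_roots]
    refine prod_root _ fun c hc => ?_
    obtain ⟨v, hv0, hv⟩ := exists_eig _ c hc
    have hv1 : trans ρ u.val v.val = c • v.val := congrArg Subtype.val hv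
    rw [hu'] at hv1
    exact trans_root hV hρ ha hb hab (fun h0 => hv0 (Subtype.ext h0)) hv1
  rw [hk] at hle
  exact (hS y).1 (hle trivial)

theorem eig_fac {n d : ℕ} (hn : 3 ≤ n) {ρ : FreeGroup (Fin n) →* SpecialLinearGroup (Fin d) ℂ}
    {V : Subgroup (MulAut (FreeGroup (Fin n)))} (hV : V.FiniteIndex)
    (hρ : ∀ σ ∈ V, ∃ g : SpecialLinearGroup (Fin d) ℂ,
    ∀ w, ρ (σ w) = g * ρ w * g⁻¹) (i : Fin n) (y : fac i)
    {c : ℂ} {z : Fin d → ℂ} (hz : z ≠ 0)
    (h : (ρ y.val).val *ᵥ z = c • z) : ∃ K : ℕ, 0 < K ∧ c ^ K = 1 := by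
  obtain ⟨m, hm, -, hV1⟩ := Subgroup.exists_pow_mem_of_index_ne_zero hV.index_ne_zero
    (tw i y.val y.2)
  let r : V := ⟨tw i y.val y.2 ^ m, hV1⟩
  let Θ := theta hρ
  set R := Θ r with hR
  set T := trans ρ (y.val ^ m) with hT
  have hfix : ∀ u : fac i, trans ρ u.val * R = R * trans ρ u.val := by
    intro u
    rw [hR, theta_trans]
    show _ = trans ρ ((tw i y.val y.2 ^ m) u.val) * _
    rw [tw_pow_fix i y.val y.2 m u.val u.2]
  have hRT : R * T = T * R := (hfix (y ^ m)).symm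
  have hRQ : R * trans ρ (FreeGroup.of i) = trans ρ (FreeGroup.of i) * T * R := by
    rw [hR, theta_trans]
    show trans ρ ((tw i y.val y.2 ^ m) (FreeGroup.of i)) * _ = _
    rw [tw_pow_of, map_mul]
  have hrel : Rel3 R T (trans ρ (FreeGroup.of i)) :=
    { uR := unit_of _ _
      uT := unit_of _ _
      uQ := unit_of _ _
      comm := hRT
      conj := by rw [hRT, ← mul_assoc, hRQ]
      det1 := by
        intro a h
        exact chi_root hn hV hρ i (R.maxGenEigenspace a)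
          (fun u => stable_gen (hfix u) a) (y ^ m) }
  have hzm : ∀ q : ℕ, (ρ (y.val ^ q)).val *ᵥ z = c ^ q • z := by
    intro q
    induction q with
    | zero => rw [pow_zero, map_one, sval_one, Matrix.one_mulVec, pow_zero, one_smul]
    | succ q ih =>
      rw [pow_succ, map_mul, sval_mul, ← Matrix.mulVec_mulVec, h, Matrix.mulVec_smul, ih,
        smul_smul, pow_succ, mul_comm]
  obtain ⟨f, hf0, hf⟩ := eig_trans hz (hzm m)
  obtain ⟨K, hK, hcK⟩ := Pool.Agent.H313.TE.LD.root_of_unity3 hrel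
    (Module.End.hasEigenvalue_of_hasEigenvector ⟨Module.End.mem_eigenspace_iff.2 hf, hf0⟩)
  exact ⟨m * K, Nat.mul_pos hm hK, by rw [pow_mul]; exact hcK⟩

end Pool.Agent.H313.TE.Fac2
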