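import Pool.Agent.Y759.TS.Kol

/-!
Groups of unipotent matrices are solvable.
-/

set_option autoImplicit false
set_option linter.all false
set_option maxHeartbeats 4000000

namespace Pool.Agent.H313.TE.KS

open scoped commutatorElement

variable {G : Type} [Group G] {V : Type} [AddCommGroup V] [Module ℂ V]
  (φ : G →* Module.End ℂ V)

/-- the span of the products of at least `k` factors -/
def J (k : ℕ) : Submodule ℂ (Module.End ℂ V) :=
  Submodule.span ℂ {x | ∃ l : List G, k ≤ l.length ∧ x = (l.map fun g => φ g - 1).prod}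

theorem J_mul {a b : ℕ} {x y : Module.End ℂ V} (hx : x ∈ J φ a) (hy : y ∈ J φ b) :
    x * y ∈ J φ (a + b) := by
  have h1 : J φ a * J φ b ≤ J φ (a + b) := by
    unfold J
    rw [Submodule.span_mul_span]
    refine Submodule.span_mono ?_
    rintro _ ⟨_, ⟨l1, h1, rfl⟩, _, ⟨l2, h2, rfl⟩, rfl⟩
    refine ⟨l1 ++ l2, ?_, ?_⟩
    · rw [List.length_append]
      omega
    · show _ * _ = _
      rw [List.map_append, List.prod_append]
  exact h1 (Submodule.mul_mem_mul hx hy)

theorem J_anti {a b : ℕ} (h : a ≤ b) : J φ b ≤ J φ a := by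
  refine Submodule.span_mono ?_
  rintro _ ⟨l, hl, rfl⟩
  exact ⟨l, h.trans hl, rfl⟩

theorem J_one (g : G) : φ g - 1 ∈ J φ 1 :=
  Submodule.subset_span ⟨[g], by simp, by simp⟩

theorem J_zero (g : G) : φ g ∈ J φ 0 := by
  have h1 : (1 : Module.End ℂ V) ∈ J φ 0 := Submodule.subset_span ⟨[], by simp, by simp⟩
  have h2 := (J φ 0).add_mem (J_anti φ (Nat.zero_le 1) (J_one φ g)) h1
  rwa [sub_add_cancel] at h2

/-- the congruence subgroups -/
def H (k : ℕ) : Subgroup G where
  carrier := {g | φ g - 1 ∈ J φ k}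
  one_mem' := by
    show φ 1 - 1 ∈ J φ k
    rw [map_one, sub_self]
    exact (J φ k).zero_mem
  mul_mem' := by
    intro g h hg hh
    show φ (g * h) - 1 ∈ J φ k
    have h1 : φ (g * h) - 1 = (φ g - 1) * φ h + (φ h - 1) := by
      rw [map_mul, sub_mul, one_mul]
      abel
    rw [h1]
    refine (J φ k).add_mem ?_ hh
    have h2 := J_mul φ (a := k) (b := 0) hg (J_zero φ h)
    rwa [add_zero] at h2
  inv_mem' := by
    intro g hg
    show φ g⁻¹ - 1 ∈ J φ k
    have h1 : φ g⁻¹ - 1 = - (φ g⁻¹ * (φ g - 1)) := by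
      rw [mul_sub, ← map_mul, inv_mul_cancel, map_one, mul_one]
      abel
    rw [h1]
    refine (J φ k).neg_mem ?_
    have h2 := J_mul φ (a := 0) (b := k) (J_zero φ g⁻¹) hg
    rwa [zero_add] at h2

theorem comm_le (a b : ℕ) : ⁅H φ a, H φ b⁆ ≤ H φ (a + b) := by
  rw [Subgroup.commutator_le]
  intro g hg h hh
  show φ ⁅g, h⁆ - 1 ∈ J φ (a + b)
  have h1 : φ ⁅g, h⁆ - 1 = ((φ g - 1) * (φ h - 1) - (φ h - 1) * (φ g - 1)) * φ (g⁻¹ * h⁻¹) := by
    have e1 : (φ g - 1) * (φ h - 1) - (φ h - 1) * (φ g - 1) = φ (g * h) - φ (h * g) := by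
      rw [map_mul, map_mul]
      noncomm_ring
    rw [e1, sub_mul, ← map_mul, ← map_mul, commutatorElement_def]
    congr 1
    · congr 1
      group
    · have e2 : h * g * (g⁻¹ * h⁻¹) = 1 := by group
      rw [e2, map_one]
  rw [h1]
  have h2 : (φ g - 1) * (φ h - 1) - (φ h - 1) * (φ g - 1) ∈ J φ (a + b) := by
    refine (J φ (a + b)).sub_mem (J_mul φ hg hh) ?_
    rw [add_comm a b]
    exact J_mul φ hh hg
  have h3 := J_mul φ (b := 0) h2 (J_zero φ (g⁻¹ * h⁻¹))
  rwa [add_zero] at h3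

theorem derived_le (k : ℕ) : derivedSeries G k ≤ H φ (k + 1) := by
  induction k with
  | zero =>
    intro g _
    exact J_one φ g
  | succ k ih =>
    rw [derivedSeries_succ]
    refine (Subgroup.commutator_mono ih ih).trans ((comm_le φ _ _).trans ?_)
    intro g hg
    exact J_anti φ (by omega) hg

theorem solvable_of_unipotent [FiniteDimensional ℂ V] (hφ : ∀ g, IsNilpotent (φ g - 1))
    (hinj : Function.Injective φ) : Group.IsSolvable G := by
  have h1 := Pool.Agent.Y759.TS.prod_zero (Module.finrank ℂ V) V φ hφ le_rfl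
  have hJ : J φ (Module.finrank ℂ V + 1) = ⊥ := by
    rw [eq_bot_iff]
    refine Submodule.span_le.2 ?_
    rintro _ ⟨l, hl, rfl⟩
    rw [SetLike.mem_coe, Submodule.mem_bot]
    have h2 : l = l.take (Module.finrank ℂ V) ++ l.drop (Module.finrank ℂ V) :=
      (List.take_append_drop _ l).symm
    rw [h2, List.map_append, List.prod_append, h1 _ (by rw [List.length_take]; omega), zero_mul]
  refine ⟨⟨Module.finrank ℂ V, ?_⟩⟩
  rw [eq_bot_iff]
  intro g hg
  have h2 := derived_le φ _ hg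
  have h3 : φ g - 1 ∈ J φ (Module.finrank ℂ V + 1) := h2
  rw [hJ, Submodule.mem_bot, sub_eq_zero] at h3
  exact hinj (by rw [h3, map_one])

end Pool.Agent.H313.TE.KS
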