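import Mathlib

/-!
Logarithm-like functions and generalised eigenspaces of commuting operators.
-/

set_option autoImplicit false
set_option linter.all false
set_option maxHeartbeats 4000000

namespace Pool.Agent.H313.TE.LA

open Module Module.End

/-- logarithm-like functions -/
def IsLog (l : ℂ → ℚ) : Prop := ∀ x y : ℂ, x ≠ 0 → y ≠ 0 → l (x * y) = l x + l y

theorem IsLog.one {l : ℂ → ℚ} (h : IsLog l) : l 1 = 0 := by
  have := h 1 1 one_ne_zero one_ne_zero
  rw [mul_one] at this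
  linarith

theorem IsLog.prod {l : ℂ → ℚ} (h : IsLog l) (s : Multiset ℂ) (hs : ∀ x ∈ s, x ≠ 0) :
    l s.prod = (s.map l).sum ∧ s.prod ≠ 0 := by
  induction s using Multiset.induction_on with
  | empty => simp [h.one]
  | cons a s ih =>
    obtain ⟨h1, h2⟩ := ih fun x hx => hs x (Multiset.mem_cons_of_mem hx)
    have ha := hs a (Multiset.mem_cons_self a s)
    rw [Multiset.prod_cons, Multiset.map_cons, Multiset.sum_cons, h a _ ha h2, h1]
    exact ⟨rfl, mul_ne_zero ha h2⟩

theorem sum_nonpos (s : Multiset ℂ) (l : ℂ → ℚ) (hs : ∀ x ∈ s, l x ≤ 0) : (s.map l).sum ≤ 0 := by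
  induction s using Multiset.induction_on with
  | empty => simp
  | cons a s ih =>
    rw [Multiset.map_cons, Multiset.sum_cons]
    have h1 := hs a (Multiset.mem_cons_self a s)
    have h2 := ih fun x hx => hs x (Multiset.mem_cons_of_mem hx)
    linarith

theorem eq_zero_of_sum (s : Multiset ℂ) (l : ℂ → ℚ) (hs : ∀ x ∈ s, l x ≤ 0)
    (h0 : (s.map l).sum = 0) (x : ℂ) (hx : x ∈ s) : l x = 0 := by
  obtain ⟨t, rfl⟩ := Multiset.exists_cons_of_mem hx
  rw [Multiset.map_cons, Multiset.sum_cons] at h0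
  have h1 := hs x (Multiset.mem_cons_self x t)
  have h2 := sum_nonpos t l fun y hy => hs y (Multiset.mem_cons_of_mem hy)
  linarith

theorem exists_log (a : ℂ) (ha : a ≠ 0) (hna : ∀ k : ℕ, 0 < k → a ^ k ≠ 1) :
    ∃ l : ℂ → ℚ, IsLog l ∧ l a = 1 := by
  classical
  let u : Additive ℂˣ := Additive.ofMul (Units.mk0 a ha)
  let f : ℤ →+ Additive ℂˣ := (zmultiplesHom _) u
  have hf : Function.Injective f := by
    rw [injective_iff_map_eq_zero]
    intro n hn
    by_contra hn0
    have h1 : (Units.mk0 a ha) ^ n = 1 := hn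
    have h2 : a ^ n = 1 := by
      have := congrArg Units.val h1
      simpa using this
    have h3 : a ^ n.natAbs = 1 := by
      rcases Int.natAbs_eq n with h | h
      · rw [h] at h2
        rwa [zpow_natCast] at h2
      · rw [h] at h2
        rw [zpow_neg, zpow_natCast, inv_eq_one] at h2
        exact h2
    exact hna _ (Int.natAbs_pos.2 hn0) h3
  obtain ⟨g, hg⟩ := (Module.Baer.of_divisible ℚ).extension_property_addMonoidHom f hf
    (Int.castAddHom ℚ)
  refine ⟨fun x => if h : x ≠ 0 then g (Additive.ofMul (Units.mk0 x h)) else 0, ?_, ?_⟩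
  · intro x y hx hy
    dsimp only
    rw [dif_pos hx, dif_pos hy, dif_pos (mul_ne_zero hx hy), ← map_add, ← ofMul_mul]
    congr 2
    apply Units.ext
    rfl
  · dsimp only
    rw [dif_pos ha]
    have h1 := DFunLike.congr_fun hg 1
    simpa [f, u] using h1

variable {V : Type} [AddCommGroup V] [Module ℂ V]

/-- the part of the space on which `l` is `M` -/
def part (l : ℂ → ℚ) (M : ℚ) (T : End ℂ V) : Submodule ℂ V :=
  ⨆ c ∈ {c : ℂ | l c = M}, T.maxGenEigenspace c

theorem conj_gen {Q T T' : End ℂ V} (h : Q * T = T' * Q) (c : ℂ) :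
    (T.maxGenEigenspace c).map Q ≤ T'.maxGenEigenspace c := by
  rintro _ ⟨v, hv, rfl⟩
  rw [SetLike.mem_coe, mem_maxGenEigenspace] at hv
  rw [mem_maxGenEigenspace]
  obtain ⟨k, hk⟩ := hv
  refine ⟨k, ?_⟩
  have h1 : SemiconjBy Q (T - c • 1) (T' - c • 1) := by
    show Q * (T - c • 1) = (T' - c • 1) * Q
    rw [mul_sub, sub_mul, h, mul_smul_comm, smul_mul_assoc, one_mul, mul_one]
  have h2 := (h1.pow_right k).eq
  rw [← Module.End.mul_apply, ← h2, Module.End.mul_apply, hk, map_zero]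

theorem conj_part {l : ℂ → ℚ} {M : ℚ} {Q T T' : End ℂ V} (h : Q * T = T' * Q) :
    (part l M T).map Q ≤ part l M T' := by
  unfold part
  rw [Submodule.map_iSup]
  refine iSup_mono fun c => ?_
  rw [Submodule.map_iSup]
  exact iSup_mono fun hc => conj_gen h c

theorem gen_mul {R S : End ℂ V} (h : Commute R S) (a b : ℂ) :
    R.maxGenEigenspace a ⊓ S.maxGenEigenspace b ≤ (R * S).maxGenEigenspace (a * b) := by
  rintro v ⟨hv1, hv2⟩
  rw [SetLike.mem_coe, mem_maxGenEigenspace] at hv1 hv2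
  obtain ⟨k, hk⟩ := hv1
  obtain ⟨m, hm⟩ := hv2
  have e1 : Commute (R - a • 1) S := by
    refine Commute.sub_left h ?_
    rw [← Algebra.algebraMap_eq_smul_one]
    exact Algebra.commutes _ _
  have h1 : v ∈ ((R - a • 1) * S).maxGenEigenspace 0 := by
    rw [mem_maxGenEigenspace]
    refine ⟨k, ?_⟩
    rw [zero_smul, sub_zero, e1.mul_pow, (e1.pow_pow k k).eq, Module.End.mul_apply, hk, map_zero]
  have h2 : v ∈ (a • (S - b • 1)).maxGenEigenspace 0 := by
    rw [mem_maxGenEigenspace]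
    refine ⟨m, ?_⟩
    rw [zero_smul, sub_zero, smul_pow, LinearMap.smul_apply, hm, smul_zero]
  have h3 : Commute ((R - a • 1) * S) (a • (S - b • 1)) := by
    have e2 : Commute (R - a • (1 : End ℂ V)) (S - b • 1) := by
      refine Commute.sub_right e1 ?_
      rw [← Algebra.algebraMap_eq_smul_one b]
      exact (Algebra.commutes _ _).symm
    have e3 : Commute S (S - b • (1 : End ℂ V)) := by
      refine Commute.sub_right (Commute.refl S) ?_
      rw [← Algebra.algebraMap_eq_smul_one b]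
      exact (Algebra.commutes _ _).symm
    exact (e2.mul_left e3).smul_right a
  have h4 := genEigenspace_inf_le_add _ _ 0 0 ⊤ ⊤ h3 ⟨h1, h2⟩
  have h5 : (R - a • 1) * S + a • (S - b • 1) = R * S - (a * b) • 1 := by
    rw [sub_mul, smul_mul_assoc, one_mul, smul_sub, smul_smul]
    abel
  rw [h5, add_zero] at h4
  have h6 : v ∈ (R * S - (a * b) • (1 : End ℂ V)).maxGenEigenspace 0 := h4
  rw [mem_maxGenEigenspace] at h6 ⊢
  simpa using h6

theorem last_nonzero (N : End ℂ V) (w : V) (hw : w ≠ 0) (h : ∃ k : ℕ, (N ^ k) w = 0) :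
    ∃ k : ℕ, (N ^ k) w ≠ 0 ∧ N ((N ^ k) w) = 0 := by
  classical
  have h1 := Nat.find_spec h
  have h2 : Nat.find h ≠ 0 := by
    intro h0
    rw [h0, pow_zero, Module.End.one_apply] at h1
    exact hw h1
  obtain ⟨k, hk⟩ := Nat.exists_eq_succ_of_ne_zero h2
  refine ⟨k, Nat.find_min h (by omega), ?_⟩
  rw [hk, pow_succ', Module.End.mul_apply] at h1
  exact h1

theorem common_vec {R S : End ℂ V} (h : Commute R S) (a b : ℂ) (w : V) (hw : w ≠ 0)
    (hw1 : w ∈ R.maxGenEigenspace a) (hw2 : w ∈ S.maxGenEigenspace b) :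
    ∃ v : V, v ≠ 0 ∧ R v = a • v ∧ S v = b • v := by
  rw [mem_maxGenEigenspace] at hw1 hw2
  have e0 : Commute (R - a • (1 : End ℂ V)) (S - b • 1) := by
    rw [← Algebra.algebraMap_eq_smul_one, ← Algebra.algebraMap_eq_smul_one]
    refine Commute.sub_right (Commute.sub_left h (Algebra.commutes _ _)) ?_
    exact (Algebra.commutes _ _).symm
  obtain ⟨k, hk1, hk2⟩ := last_nonzero (S - b • 1) w hw hw2
  have h1 : ∃ m : ℕ, ((R - a • (1 : End ℂ V)) ^ m) (((S - b • 1) ^ k) w) = 0 := by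
    obtain ⟨m, hm⟩ := hw1
    refine ⟨m, ?_⟩
    rw [← Module.End.mul_apply, (e0.pow_pow m k).eq, Module.End.mul_apply, hm, map_zero]
  obtain ⟨m, hm1, hm2⟩ := last_nonzero (R - a • 1) _ hk1 h1
  refine ⟨_, hm1, ?_, ?_⟩
  · rw [LinearMap.sub_apply, sub_eq_zero] at hm2
    exact hm2
  · have h2 : (S - b • (1 : End ℂ V)) (((R - a • (1 : End ℂ V)) ^ m) (((S - b • 1) ^ k) w)) = 0 := by
      rw [← Module.End.mul_apply, ← (e0.pow_left m).eq, Module.End.mul_apply, hk2, map_zero]
    rw [LinearMap.sub_apply, sub_eq_zero] at h2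
    exact h2

variable [FiniteDimensional ℂ V]

theorem inj_of_unit {T : End ℂ V} (h : IsUnit T) : Function.Injective T :=
  ((Module.End.isUnit_iff _).1 h).1

theorem restrict_det_ne {T : End ℂ V} (h : IsUnit T) {E : Submodule ℂ V} (hE : ∀ x ∈ E, T x ∈ E) :
    LinearMap.det (T.restrict hE) ≠ 0 := by
  have h1 : Function.Injective (T.restrict hE) := by
    intro x y hxy
    exact Subtype.ext (inj_of_unit h (congrArg Subtype.val hxy))
  have h2 : IsUnit (T.restrict hE) := by
    rw [LinearMap.isUnit_iff_ker_eq_bot, LinearMap.ker_eq_bot]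
    exact h1
  exact (LinearMap.isUnit_iff_isUnit_det _).1 h2 |>.ne_zero

theorem stable_gen {T R : End ℂ V} (h : T * R = R * T) (c : ℂ) :
    ∀ x ∈ R.maxGenEigenspace c, T x ∈ R.maxGenEigenspace c := by
  intro x hx
  exact conj_gen h c ⟨x, hx, rfl⟩

end Pool.Agent.H313.TE.LA
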