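import Pool.Agent.H313.TE.LinA

/-!
An operator in the derived group of the centraliser of an operator `R`, whose product with `R` is
conjugate to `R`, has only roots of unity as eigenvalues.
-/

set_option autoImplicit false
set_option linter.all false
set_option maxHeartbeats 4000000

namespace Pool.Agent.H313.TE.LA

open Module Module.End

variable {V : Type} [AddCommGroup V] [Module ℂ V] [FiniteDimensional ℂ V]

/-- the relations between the operators -/
structure Rel3 (R T A B Q : End ℂ V) : Prop where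
  uR : IsUnit R
  uT : IsUnit T
  uA : IsUnit A
  uB : IsUnit B
  uQ : IsUnit Q
  comm : R * T = T * R
  conj : R * Q = Q * (R * T)
  commA : A * R = R * A
  commB : B * R = R * B
  brak : B * A = A * B * T

theorem zero_of_nonpos {R T A B Q : End ℂ V} (h : Rel3 R T A B Q) {l : ℂ → ℚ} (hl : IsLog l)
    {a : ℂ} (hle : ∀ c, R.maxGenEigenspace a ⊓ T.maxGenEigenspace c ≠ ⊥ → l c ≤ 0) {b : ℂ}
    (hb : R.maxGenEigenspace a ⊓ T.maxGenEigenspace b ≠ ⊥) : l b = 0 := by
  have key : ∀ c : ℂ, (∃ w : V, w ≠ 0 ∧ w ∈ R.maxGenEigenspace a ∧ w ∈ T.maxGenEigenspace c) →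
      c ≠ 0 ∧ l c ≤ 0 := by
    rintro c ⟨w, hw, hw1, hw2⟩
    obtain ⟨v, hv, hv1, hv2⟩ := common_vec h.comm a c w hw hw1 hw2
    refine ⟨?_, ?_⟩
    · intro h0
      rw [h0, zero_smul] at hv2
      exact hv (inj_of_unit h.uT (by rw [hv2, map_zero]))
    · refine hle c ?_
      intro hbot
      have h1 : w ∈ R.maxGenEigenspace a ⊓ T.maxGenEigenspace c := ⟨hw1, hw2⟩
      rw [hbot, Submodule.mem_bot] at h1
      exact hw h1
  have hb' : ∃ w : V, w ≠ 0 ∧ w ∈ R.maxGenEigenspace a ∧ w ∈ T.maxGenEigenspace b := by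
    obtain ⟨w, hw, hw0⟩ := Submodule.exists_mem_ne_zero_of_ne_bot hb
    exact ⟨w, hw0, hw.1, hw.2⟩
  set E := R.maxGenEigenspace a with hE
  have sS := stable_gen (T := T) (R := R) h.comm.symm a
  have sA := stable_gen (T := A) (R := R) h.commA a
  have sB := stable_gen (T := B) (R := R) h.commB a
  have hdet : LinearMap.det (T.restrict sS) = 1 := by
    have h1 : (B.restrict sB) * (A.restrict sA) = (A.restrict sA) * (B.restrict sB) *
        (T.restrict sS) := by
      apply LinearMap.ext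
      intro x
      apply Subtype.ext
      exact congrArg (fun T => T x.val) h.brak
    have h2 := congrArg LinearMap.det h1
    rw [map_mul, map_mul, map_mul, mul_comm (LinearMap.det (B.restrict sB))] at h2
    have h3 : LinearMap.det (A.restrict sA) * LinearMap.det (B.restrict sB) ≠ 0 :=
      mul_ne_zero (restrict_det_ne h.uA sA) (restrict_det_ne h.uB sB)
    exact (mul_left_cancel₀ h3 (by rw [mul_one]; exact h2)).symm
  have hev : ∀ c : ℂ, Module.End.HasEigenvalue (T.restrict sS) c → c ≠ 0 ∧ l c ≤ 0 := by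
    intro c hc
    obtain ⟨v, hv, hv0⟩ := hc.exists_hasEigenvector
    rw [mem_eigenspace_iff] at hv
    refine key c ⟨v.val, fun h0 => hv0 (Subtype.ext h0), v.2, ?_⟩
    rw [mem_maxGenEigenspace]
    refine ⟨1, ?_⟩
    rw [pow_one, LinearMap.sub_apply, sub_eq_zero]
    exact congrArg Subtype.val hv
  have hroots : ∀ c ∈ (T.restrict sS).charpoly.roots, c ≠ 0 ∧ l c ≤ 0 := by
    intro c hc
    refine hev c ?_
    rw [hasEigenvalue_iff_isRoot_charpoly]
    exact Polynomial.isRoot_of_mem_roots hc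
  have hsum : ((T.restrict sS).charpoly.roots.map l).sum = 0 := by
    rw [← (hl.prod _ fun x hx => (hroots x hx).1).1, ← det_eq_prod_roots_charpoly_of_splits
      (IsAlgClosed.splits _), hdet, hl.one]
  refine eq_zero_of_sum _ l (fun x hx => (hroots x hx).2) hsum b ?_
  obtain ⟨w, hw, hw1, hw2⟩ := hb'
  obtain ⟨v, hv, hv1, hv2⟩ := common_vec h.comm a b w hw hw1 hw2
  have hvE : v ∈ E := by
    rw [hE, mem_maxGenEigenspace]
    refine ⟨1, ?_⟩
    rw [pow_one, LinearMap.sub_apply, sub_eq_zero]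
    exact hv1
  have h1 : Module.End.HasEigenvalue (T.restrict sS) b := by
    refine hasEigenvalue_of_hasEigenvector (x := ⟨v, hvE⟩) ⟨?_, ?_⟩
    · rw [mem_eigenspace_iff]
      exact Subtype.ext hv2
    · intro h0
      exact hv (congrArg Subtype.val h0)
  rw [Polynomial.mem_roots (LinearMap.charpoly_monic _).ne_zero, ← hasEigenvalue_iff_isRoot_charpoly]
  exact h1

theorem ne_zero_of_gen {R : End ℂ V} (hR : IsUnit R) {a : ℂ} (h : R.maxGenEigenspace a ≠ ⊥) :
    a ≠ 0 ∧ R.HasEigenvalue a := by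
  obtain ⟨w, hw, hw0⟩ := Submodule.exists_mem_ne_zero_of_ne_bot h
  rw [mem_maxGenEigenspace] at hw
  obtain ⟨k, hk1, hk2⟩ := last_nonzero (R - a • 1) w hw0 hw
  rw [LinearMap.sub_apply, sub_eq_zero] at hk2
  generalize ((R - a • (1 : End ℂ V)) ^ k) w = x at hk1 hk2
  refine ⟨?_, hasEigenvalue_of_hasEigenvector ⟨mem_eigenspace_iff.2 hk2, hk1⟩⟩
  rintro rfl
  rw [LinearMap.smul_apply, zero_smul] at hk2
  exact hk1 (inj_of_unit hR (by rw [hk2, map_zero]))

theorem no_positive {R T A B Q : End ℂ V} (h : Rel3 R T A B Q) {l : ℂ → ℚ} (hl : IsLog l)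
    (a b : ℂ) (hab : R.maxGenEigenspace a ⊓ T.maxGenEigenspace b ≠ ⊥) : l b ≤ 0 := by
  by_contra hcon
  push Not at hcon
  let P : Set ℂ := {a | ∃ b, R.maxGenEigenspace a ⊓ T.maxGenEigenspace b ≠ ⊥ ∧ 0 < l b}
  have hgen : ∀ a b, R.maxGenEigenspace a ⊓ T.maxGenEigenspace b ≠ ⊥ →
      (a ≠ 0 ∧ R.HasEigenvalue a) ∧ (b ≠ 0 ∧ T.HasEigenvalue b) := by
    intro a b hab
    refine ⟨ne_zero_of_gen h.uR fun h0 => hab ?_, ne_zero_of_gen h.uT fun h0 => hab ?_⟩
    · rw [h0, bot_inf_eq]
    · rw [h0, inf_bot_eq]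
  have hfin : P.Finite := by
    refine (R.charpoly.roots.toFinset.finite_toSet).subset fun a ha => ?_
    obtain ⟨b, hb, -⟩ := ha
    simp only [Finset.mem_coe, Multiset.mem_toFinset]
    rw [Polynomial.mem_roots (LinearMap.charpoly_monic _).ne_zero,
      ← hasEigenvalue_iff_isRoot_charpoly]
    exact (hgen a b hb).1.2
  obtain ⟨a0, ⟨b0, hb0, hlb0⟩, hmax⟩ := hfin.exists_maximalFor l _ ⟨a, b, hab, hcon⟩
  have hle : ∀ x ∈ P, l x ≤ l a0 := by
    intro x hx
    by_contra hlt
    push Not at hlt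
    exact absurd (hmax hx hlt.le) (not_le.2 hlt)
  obtain ⟨⟨ha00, -⟩, ⟨hb00, -⟩⟩ := hgen a0 b0 hb0
  set M := l (a0 * b0) with hMdef
  have hM : M = l a0 + l b0 := hl a0 b0 ha00 hb00
  have hM0 : l a0 < M := by rw [hM]; linarith
  have h1 : part l M R ≤ part l M (R * T) := by
    refine iSup₂_le fun c hc => ?_
    have hc' : l c = M := hc
    have sS := stable_gen (T := T) (R := R) h.comm.symm c
    have h2 : R.maxGenEigenspace c = ⨆ b, R.maxGenEigenspace c ⊓ T.maxGenEigenspace b := by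
      have h2 := Submodule.inf_iSup_genEigenspace (p := R.maxGenEigenspace c) (f := T) sS ⊤
      have h3 : ⨆ b, T.maxGenEigenspace b = ⊤ := iSup_maxGenEigenspace_eq_top T
      calc R.maxGenEigenspace c = R.maxGenEigenspace c ⊓ ⨆ b, T.maxGenEigenspace b := by
            rw [h3, inf_top_eq]
        _ = _ := h2
    rw [h2]
    refine iSup_le fun b => ?_
    by_cases hb : R.maxGenEigenspace c ⊓ T.maxGenEigenspace b = ⊥
    · rw [hb]
      exact bot_le
    · have hz : l b = 0 := by
        refine zero_of_nonpos h hl (a := c) (fun e he => ?_) hb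
        by_contra hpos
        push Not at hpos
        have := hle c ⟨e, he, hpos⟩
        linarith
      obtain ⟨⟨hc0, -⟩, ⟨hb0, -⟩⟩ := hgen c b hb
      refine (gen_mul h.comm c b).trans ?_
      refine le_iSup₂_of_le (c * b) ?_ le_rfl
      show l (c * b) = M
      rw [hl c b hc0 hb0, hc', hz, add_zero]
  have h2 : R.maxGenEigenspace a0 ⊓ T.maxGenEigenspace b0 ≤ part l M (R * T) :=
    (gen_mul h.comm a0 b0).trans
      (le_iSup₂_of_le (f := fun c (_ : c ∈ {c : ℂ | l c = M}) => (R * T).maxGenEigenspace c)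
        (a0 * b0) rfl le_rfl)
  have h3 : Disjoint (part l M R) (R.maxGenEigenspace a0 ⊓ T.maxGenEigenspace b0) := by
    refine Disjoint.mono_right (inf_le_left.trans (le_iSup₂_of_le
      (f := fun c (_ : c ∈ {c : ℂ | l c = l a0}) => R.maxGenEigenspace c) a0 rfl le_rfl)) ?_
    refine (independent_maxGenEigenspace R).disjoint_biSup_biSup ?_
    rw [Set.disjoint_left]
    intro c hc hc'
    have e1 : l c = M := hc
    have e2 : l c = l a0 := hc'
    rw [e2] at e1
    exact hM0.ne e1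
  have hQ := inj_of_unit h.uQ
  have h6 : Module.finrank ℂ (part l M (R * T)) ≤ Module.finrank ℂ (part l M R) := by
    have e1 : (part l M (R * T)).map Q ≤ part l M R := conj_part h.conj.symm
    have e2 := Submodule.finrank_mono e1
    rwa [← (Submodule.equivMapOfInjective Q hQ _).finrank_eq] at e2
  have h7 := Submodule.finrank_mono (sup_le h1 h2)
  have h8 := Submodule.finrank_sup_add_finrank_inf_eq (part l M R)
    (R.maxGenEigenspace a0 ⊓ T.maxGenEigenspace b0)
  rw [h3.eq_bot, finrank_bot, add_zero] at h8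
  have h9 : Module.finrank ℂ ↥(R.maxGenEigenspace a0 ⊓ T.maxGenEigenspace b0) = 0 := by omega
  exact hb0 (Submodule.finrank_eq_zero.1 h9)

/-- the eigenvalues are roots of unity -/
theorem root_of_unity3 {R T A B Q : End ℂ V} (h : Rel3 R T A B Q) {c : ℂ}
    (hc : T.HasEigenvalue c) : ∃ k : ℕ, 0 < k ∧ c ^ k = 1 := by
  by_contra hcon
  push Not at hcon
  have hgenT : T.maxGenEigenspace c ≠ ⊥ := by
    obtain ⟨v, hv, hv0⟩ := hc.exists_hasEigenvector
    rw [mem_eigenspace_iff] at hv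
    intro hbot
    have h2 : v ∈ T.maxGenEigenspace c := by
      rw [mem_maxGenEigenspace]
      exact ⟨1, by rw [pow_one, LinearMap.sub_apply, sub_eq_zero]; exact hv⟩
    rw [hbot, Submodule.mem_bot] at h2
    exact hv0 h2
  obtain ⟨hc0, -⟩ := ne_zero_of_gen h.uT hgenT
  obtain ⟨l, hl, hlc⟩ := exists_log c hc0 hcon
  have sS := stable_gen (T := R) (R := T) h.comm c
  have h2 : T.maxGenEigenspace c = ⨆ b, T.maxGenEigenspace c ⊓ R.maxGenEigenspace b := by
    have h2 := Submodule.inf_iSup_genEigenspace (p := T.maxGenEigenspace c) (f := R) sS ⊤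
    have h3 : ⨆ b, R.maxGenEigenspace b = ⊤ := iSup_maxGenEigenspace_eq_top R
    calc T.maxGenEigenspace c = T.maxGenEigenspace c ⊓ ⨆ b, R.maxGenEigenspace b := by
          rw [h3, inf_top_eq]
      _ = _ := h2
  have h3 : ∃ b, T.maxGenEigenspace c ⊓ R.maxGenEigenspace b ≠ ⊥ := by
    by_contra hall
    push Not at hall
    apply hgenT
    rw [h2]
    simp [hall]
  obtain ⟨b, hb⟩ := h3
  rw [inf_comm] at hb
  have h4 := no_positive h hl b c hb
  rw [hlc] at h4
  exact absurd h4 (by norm_num)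

end Pool.Agent.H313.TE.LA
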