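import Pool.Agent.H313.TE.Uniq

/-!
Virtually solvable base.
-/

set_option autoImplicit false
set_option linter.all false
set_option maxHeartbeats 4000000

open Matrix Kronecker

namespace Pool.Agent.H313.TE

/-- `G / N` has a solvable subgroup of finite index. -/
def VirtuallySolvableQuotient {G : Type} [Group G] (N : Subgroup G) [N.Normal] : Prop :=
  ∃ S : Subgroup (G ⧸ N), Group.IsSolvable S ∧ S.FiniteIndex

/-- if `m = 1` then `ρ` is irreducible with `A` -/
theorem lie_of_one {G : Type} [Group G] {E : Type} [Field E] {n : ℕ} {ρ : G →* GL (Fin n) E}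
    {N U : Subgroup G} {a : ℕ} {B : U →* GL (Fin 1) E} {A : U →* GL (Fin a) E}
    (hU : U.FiniteIndex) (hT : IsTensorProduct ρ U B A) (hB : ∀ u : U, (u : G) ∈ N → B u = 1)
    (hA : LieIrreducibleOn A (N.subgroupOf U)) : LieIrreducibleOn ρ N := by
  obtain ⟨P, Q, hPQ, hQP, hρAB⟩ := hT
  intro U' hU' W hW
  let T : (Fin a → E) →ₗ[E] (Fin n → E) :=
    (Matrix.mulVecLin P).comp (LinearMap.funLeft E E (Prod.snd : Fin 1 × Fin a → Fin a))
  have hT : ∀ w, T w = P *ᵥ fun p => w p.2 := fun w => rfl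
  have hTs : ∀ v, ∃ w, T w = v := by
    intro v
    refine ⟨fun j => (Q *ᵥ v) (0, j), ?_⟩
    rw [hT]
    have h1 : (fun p : Fin 1 × Fin a => (Q *ᵥ v) (0, p.2)) = Q *ᵥ v := by
      funext p
      rw [Subsingleton.elim (0 : Fin 1) p.1]
    show P *ᵥ (fun p : Fin 1 × Fin a => (Q *ᵥ v) (0, p.2)) = v
    rw [h1, Matrix.mulVec_mulVec, hPQ, Matrix.one_mulVec]
  have hTA : ∀ u : U, (u : G) ∈ N → ∀ w, T (matrixOf A u *ᵥ w) = matrixOf ρ u *ᵥ T w := by
    intro u hu w
    have h1 : matrixOf ρ u = P * (matrixOf B u ⊗ₖ matrixOf A u) * Q := hρAB u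
    have h2 : matrixOf B u = 1 := by
      show ((B u : GL (Fin 1) E) : Matrix (Fin 1) (Fin 1) E) = 1
      rw [hB u hu, Units.val_one]
    rw [h1, h2, hT, hT, Matrix.mulVec_mulVec, Matrix.mul_assoc, hQP, Matrix.mul_one,
      ← Matrix.mulVec_mulVec]
    congr 1
    funext p
    obtain ⟨i, j⟩ := p
    show (∑ k, matrixOf A u j k * w k) = ∑ p : Fin 1 × Fin a,
      ((1 : Matrix (Fin 1) (Fin 1) E) ⊗ₖ matrixOf A u) (i, j) p * w p.2
    rw [Fintype.sum_prod_type, Finset.sum_eq_single i]
    · refine Finset.sum_congr rfl fun k _ => ?_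
      rw [Matrix.kronecker_apply, Matrix.one_apply_eq, one_mul]
    · intro k _ hk
      exact absurd (Subsingleton.elim k i) hk
    · intro h3
      exact absurd (Finset.mem_univ i) h3
  rcases hA (U'.subgroupOf U) inferInstance (W.comap T) (by
    intro u hu w hw
    show T (matrixOf A u *ᵥ w) ∈ W
    rw [hTA u hu.1]
    exact hW u ⟨hu.1, hu.2⟩ _ hw) with h1 | h1
  · left
    rw [eq_bot_iff]
    intro v hv
    obtain ⟨w, rfl⟩ := hTs v
    have h2 : w ∈ W.comap T := hv
    rw [h1, Submodule.mem_bot] at h2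
    rw [Submodule.mem_bot, h2, map_zero]
  · right
    rw [eq_top_iff]
    intro v _
    obtain ⟨w, rfl⟩ := hTs v
    have h2 : w ∈ W.comap T := by rw [h1]; trivial
    exact h2

theorem quot_irr {G : Type} [Group G] [Group.FG G] (N : Subgroup G) (hN : N.Normal) {n : ℕ}
    (hn : 0 < n) (ρ : G →* GL (Fin n) (AlgebraicClosure ℚ))
    (hlie : LieIrreducibleOn ρ ⊤) (hfin : HasFiniteDet ρ)
    (hv : VirtuallySolvableQuotient N) : LieIrreducibleOn ρ N := by
  obtain ⟨⟨U, m, a, A, B, hU, hma, hT, hBN, hA, hB, hker, hd⟩, -, -⟩ := full N hN hn ρ hlie hfin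
  have hm : 0 < m := Nat.pos_of_ne_zero fun h0 => by rw [h0, zero_mul] at hma; omega
  have ha : 0 < a := Nat.pos_of_ne_zero fun h0 => by rw [h0, mul_zero] at hma; omega
  haveI : Group.FG U := inferInstance
  obtain ⟨S, hS, hSf⟩ := hv
  -- the image of `B` is virtually solvable
  obtain ⟨k, hk⟩ := der_solvable S hS
  let S' : Subgroup G := S.comap (QuotientGroup.mk' N)
  have hS'f : S'.FiniteIndex := by
    refine ⟨?_⟩
    rw [Subgroup.index_comap_of_surjective S (QuotientGroup.mk'_surjective N)]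
    exact hSf.index_ne_zero
  have hS'k : der k S' ≤ N := by
    intro x hx
    have h1 : QuotientGroup.mk' N x ∈ (der k S').map (QuotientGroup.mk' N) :=
      Subgroup.mem_map_of_mem _ hx
    rw [der_map] at h1
    have h2 := der_mono k (Subgroup.map_comap_le (QuotientGroup.mk' N) S) h1
    rw [hk, Subgroup.mem_bot] at h2
    exact (QuotientGroup.eq_one_iff x).1 h2
  have hBv : VirtuallySolvableOn B ⊤ := by
    refine ⟨(S'.subgroupOf U).map B, ?_, ?_⟩
    · rw [Group.isSolvable_def]
      refine ⟨k, ?_⟩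
      have h1 : der k ((S'.subgroupOf U).map B) = ⊥ := by
        rw [← der_map, eq_bot_iff]
        rintro _ ⟨u, hu, rfl⟩
        rw [Subgroup.mem_bot]
        refine hBN u (hS'k ?_)
        have h2 : (u : G) ∈ (der k (S'.subgroupOf U)).map U.subtype :=
          Subgroup.mem_map_of_mem U.subtype hu
        rw [der_map] at h2
        refine der_mono k ?_ h2
        rintro _ ⟨v, hv, rfl⟩
        exact hv
      have h2 := der_map ((S'.subgroupOf U).map B).subtype k ⊤
      rw [der_top, ← MonoidHom.range_eq_map, Subgroup.range_subtype, h1] at h2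
      rwa [Subgroup.map_eq_bot_iff_of_injective] at h2
      exact Subgroup.subtype_injective _
    · haveI h1 : (S'.subgroupOf U).FiniteIndex := inferInstance
      rw [Subgroup.relIndex_map_map, top_sup_eq, Subgroup.relIndex_top_right]
      have h2 : (S'.subgroupOf U ⊔ B.ker).FiniteIndex := Subgroup.finiteIndex_of_le le_sup_left
      exact h2.index_ne_zero
  have hBfin : HasFiniteDet B := ⟨a, ha, fun u => (hd u).2⟩
  obtain ⟨V, hV, hVB⟩ := full2 (⊤ : Subgroup U) inferInstance hm B hB hBfin hBv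
  have hm1 : m = 1 := by
    have h1 := hB V hV (Submodule.span _ {Pi.single ⟨0, hm⟩ 1}) (by
      intro u hu w hw
      have h2 : matrixOf B u = 1 := by
        show (B u).val = 1
        rw [hVB u hu, Units.val_one]
      rw [h2, Matrix.one_mulVec]
      exact hw)
    rcases h1 with h1 | h1
    · exfalso
      rw [Submodule.span_singleton_eq_bot] at h1
      have h2 := congrFun h1 ⟨0, hm⟩
      simp at h2
    · have h3 : (Pi.single ⟨0, hm⟩ 1 : Fin m → AlgebraicClosure ℚ) ≠ 0 := by simp
      have h2 := finrank_span_singleton (K := AlgebraicClosure ℚ) h3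
      rw [h1, finrank_top, Module.finrank_fin_fun] at h2
      exact h2
  subst hm1
  exact lie_of_one hU hT hBN hA

end Pool.Agent.H313.TE
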