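import Pool.Agent.H698R4.Malcev
import Pool.Agent.H313.TE.Typ

/-!
Virtually unipotent elements of a suitable subgroup of finite index are unipotent.
-/

set_option autoImplicit false
set_option linter.all false
set_option maxHeartbeats 4000000

open Matrix

namespace Pool.Agent.H313.TE.Two

open Pool.Agent.H313.TE.Typ

theorem unip1 {d : ℕ} (A : Matrix (Fin d) (Fin d) ℂ)
    (h : ∀ (c : ℂ) (z : Fin d → ℂ), z ≠ 0 → A *ᵥ z = c • z → c = 1) :
    IsNilpotent (A - 1) := by
  have hc : ∀ c ∈ A.charpoly.roots, c = 1 := by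
    intro c hc
    have h1 : Module.End.HasEigenvalue (Matrix.toLin' A) c := by
      rw [Module.End.hasEigenvalue_iff_isRoot_charpoly, Matrix.charpoly_toLin']
      exact Polynomial.isRoot_of_mem_roots hc
    obtain ⟨z, hz, hz0⟩ := h1.exists_hasEigenvector
    rw [Module.End.mem_eigenspace_iff, Matrix.toLin'_apply] at hz
    exact h c z hz0 hz
  refine ⟨Multiset.card A.charpoly.roots, ?_⟩
  have h1 : A.charpoly ∣ (Polynomial.X - 1) ^ (Multiset.card A.charpoly.roots) := by
    have h2 : A.charpoly = (A.charpoly.roots.map fun a => Polynomial.X - Polynomial.C a).prod :=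
      ((IsAlgClosed.splits A.charpoly).eq_prod_roots_of_monic A.charpoly_monic)
    rw [← Multiset.prod_replicate, ← Multiset.map_const']
    nth_rewrite 1 [h2]
    refine dvd_aux _ _ _ ?_
    intro a ha
    rw [hc a ha, Polynomial.C_1]
  obtain ⟨q, hq⟩ := h1
  have h2 := congrArg (Polynomial.aeval A) hq
  rw [map_mul, Matrix.aeval_self_charpoly, zero_mul] at h2
  simpa using h2

/-- no eigenvalue of order `q` when the matrix is one modulo a prime over `p ≠ q` -/
theorem no_order {A : Subalgebra ℤ ℂ} (P : Ideal A) [hP : P.IsMaximal] {p q : ℕ} (hp : p.Prime)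
    (hq : q.Prime) (hpq : p ≠ q) (hpP : (p : A) ∈ P) {d : ℕ} (M : Matrix (Fin d) (Fin d) A)
    (hM : ∀ a b, M a b - (1 : Matrix (Fin d) (Fin d) A) a b ∈ P) {c : ℂ}
    (hc : (c • (1 : Matrix (Fin d) (Fin d) ℂ) - M.map (algebraMap A ℂ)).det = 0)
    (hcq : c ^ q = 1) : c = 1 := by
  by_contra hc1
  let S := integralClosure A ℂ
  have hint : IsIntegral A c := by
    refine ⟨Polynomial.X ^ q - 1, Polynomial.monic_X_pow_sub_C 1 hq.ne_zero, ?_⟩
    simp [hcq]
  let cS : S := ⟨c, hint⟩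
  have hker : RingHom.ker (algebraMap A S) ≤ P := by
    intro x hx
    have h1 : algebraMap A S x = 0 := hx
    have h2 : (x : ℂ) = 0 := congrArg Subtype.val h1
    have h3 : x = 0 := Subtype.ext h2
    rw [h3]
    exact P.zero_mem
  obtain ⟨Q, hQ, hQP⟩ := Ideal.exists_ideal_over_maximal_of_isIntegral (S := S) P hker
  let π : S →+* S ⧸ Q := Ideal.Quotient.mk Q
  haveI : IsDomain (S ⧸ Q) := (Ideal.Quotient.isDomain_iff_prime Q).2 hQ.isPrime
  have hmem : ∀ x : A, x ∈ P → π (algebraMap A S x) = 0 := by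
    intro x hx
    rw [← hQP] at hx
    exact Ideal.Quotient.eq_zero_iff_mem.2 hx
  -- the determinant
  let N : Matrix (Fin d) (Fin d) S := cS • 1 - M.map (algebraMap A S)
  have hN : N.det = 0 := by
    have h1 : (algebraMap S ℂ) N.det = 0 := by
      rw [RingHom.map_det, ← hc]
      congr 1
      ext a b
      simp only [N, RingHom.mapMatrix_apply, Matrix.map_apply, Matrix.sub_apply, Matrix.smul_apply,
        map_sub, smul_eq_mul, map_mul]
      congr 1
      rw [Matrix.one_apply, Matrix.one_apply]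
      split_ifs <;> simp [cS]
    exact Subtype.ext h1
  have hπN : π.mapMatrix N = (π cS - 1) • (1 : Matrix (Fin d) (Fin d) (S ⧸ Q)) := by
    ext a b
    have h1 : π (algebraMap A S (M a b)) = π (algebraMap A S ((1 : Matrix (Fin d) (Fin d) A) a b)) := by
      rw [← sub_eq_zero, ← map_sub, ← map_sub]
      exact hmem _ (hM a b)
    simp only [N, RingHom.mapMatrix_apply, Matrix.map_apply, Matrix.sub_apply, Matrix.smul_apply,
      map_sub, smul_eq_mul, map_mul]
    rw [h1, Matrix.one_apply, Matrix.one_apply, Matrix.one_apply]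
    split_ifs <;> simp
  have hπ1 : π cS = 1 := by
    have h1 := congrArg π hN
    rw [RingHom.map_det, hπN, Matrix.det_smul, Matrix.det_one, mul_one, map_zero] at h1
    have h2 := eq_zero_of_pow_eq_zero h1
    exact sub_eq_zero.1 h2
  have hsum : ∑ i ∈ Finset.range q, cS ^ i = 0 := by
    have h1 : ∑ i ∈ Finset.range q, c ^ i = 0 := by
      have h2 := mul_geom_sum c q
      rw [hcq, sub_self] at h2
      exact (mul_eq_zero.1 h2).resolve_left (sub_ne_zero.2 hc1)
    have h3 : (algebraMap S ℂ) (∑ i ∈ Finset.range q, cS ^ i) = 0 := by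
      rw [map_sum, ← h1]
      refine Finset.sum_congr rfl fun i _ => ?_
      rw [map_pow]
      rfl
    exact Subtype.ext h3
  have hq0 : ((q : A)) ∈ P := by
    rw [← hQP]
    show algebraMap A S (q : A) ∈ Q
    rw [← Ideal.Quotient.eq_zero_iff_mem]
    have h1 := congrArg π hsum
    rw [map_sum, map_zero] at h1
    simp only [map_pow, hπ1, one_pow, Finset.sum_const, Finset.card_range, nsmul_eq_mul,
      mul_one] at h1
    rw [map_natCast, map_natCast]
    exact h1
  have h1 : (1 : A) ∈ P := by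
    have h2 : IsCoprime (p : ℤ) (q : ℤ) :=
      Nat.isCoprime_iff_coprime.2 ((Nat.coprime_primes hp hq).2 hpq)
    obtain ⟨x, y, hxy⟩ := h2
    have h3 : (x : A) * (p : A) + (y : A) * (q : A) = 1 := by
      have h4 := congrArg (Int.cast : ℤ → A) hxy
      push_cast at h4
      exact h4
    rw [← h3]
    exact P.add_mem (P.mul_mem_left _ hpP) (P.mul_mem_left _ hq0)
  exact hP.ne_top ((Ideal.eq_top_iff_one P).2 h1)

/-- maximal ideals avoiding a given element -/
theorem exists_max {A : Subalgebra ℤ ℂ} (hft : Algebra.FiniteType ℤ A) (t : A) (ht0 : t ≠ 0) :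
    ∃ P : Ideal A, P.IsMaximal ∧ t ∉ P ∧ Finite (A ⧸ P) ∧ ∃ p : ℕ, p.Prime ∧ (p : A) ∈ P := by
  have := Pool.Agent.H698R4.jacobson_int
  have hJ : IsJacobsonRing A := isJacobsonRing_of_finiteType (A := ℤ)
  have hjac : (⊥ : Ideal A).jacobson = ⊥ := hJ.out (Ideal.isRadical_bot)
  have hmax : ∃ P : Ideal A, P.IsMaximal ∧ t ∉ P := by
    by_contra hcon
    push Not at hcon
    have : t ∈ (⊥ : Ideal A).jacobson := by
      rw [Ideal.jacobson, Ideal.mem_sInf]
      rintro P ⟨-, hP⟩
      exact hcon P hP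
    rw [hjac, Ideal.mem_bot] at this
    exact ht0 this
  obtain ⟨P, hP, htP⟩ := hmax
  have hKft : Algebra.FiniteType ℤ (A ⧸ P) :=
    Algebra.FiniteType.of_surjective (Ideal.Quotient.mkₐ ℤ P) (Ideal.Quotient.mkₐ_surjective ℤ P)
  have hK : Finite (A ⧸ P) := Pool.Agent.H698R4.finite_field_of_finiteType (A ⧸ P)
    ((Ideal.Quotient.maximal_ideal_iff_isField_quotient P).mp hP)
  haveI : IsDomain (A ⧸ P) := (Ideal.Quotient.isDomain_iff_prime P).2 hP.isPrime
  obtain ⟨p, hp⟩ := CharP.exists (A ⧸ P)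
  have hp0 : p ≠ 0 := by
    rintro rfl
    haveI : CharZero (A ⧸ P) := CharP.charP_to_charZero (A ⧸ P)
    exact not_finite_iff_infinite.2 (Infinite.of_injective _ (Nat.cast_injective (R := A ⧸ P))) hK
  haveI : NeZero p := ⟨hp0⟩
  have hpp : p.Prime := (CharP.char_is_prime_of_pos (A ⧸ P) p).out
  refine ⟨P, hP, htP, hK, p, hpp, ?_⟩
  rw [← Ideal.Quotient.eq_zero_iff_mem, map_natCast]
  exact CharP.cast_eq_zero _ p

/-- the ring of entries -/
theorem entries {G ι : Type} [Group G] [Finite ι] (s : ι → G)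
    (hs : Subgroup.closure (Set.range s) = ⊤) {m : ℕ} (ψ : G →* Matrix (Fin m) (Fin m) ℂ) :
    ∃ (A : Subalgebra ℤ ℂ) (M : G →* Matrix (Fin m) (Fin m) A), Algebra.FiniteType ℤ A ∧
      ∀ x, (M x).map (algebraMap A ℂ) = ψ x := by
  classical
  let T : Set ℂ := Set.range (fun p : (ι × Bool) × (Fin m × Fin m) =>
    ψ (if p.1.2 then s p.1.1 else (s p.1.1)⁻¹) p.2.1 p.2.2)
  have hT : T.Finite := Set.finite_range _
  let A := Algebra.adjoin ℤ T
  have hfg : A.FG := Subalgebra.fg_def.mpr ⟨T, hT, rfl⟩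
  have hft : Algebra.FiniteType ℤ A := (Subalgebra.fg_iff_finiteType A).mp hfg
  have hent : ∀ x : G, (∀ a b, ψ x a b ∈ A) ∧ (∀ a b, ψ x⁻¹ a b ∈ A) := by
    intro x
    have hx : x ∈ Subgroup.closure (Set.range s) := by rw [hs]; trivial
    induction hx using Subgroup.closure_induction with
    | mem x hx =>
      obtain ⟨i, rfl⟩ := hx
      exact ⟨fun a b => Algebra.subset_adjoin ⟨((i, true), (a, b)), rfl⟩,
        fun a b => Algebra.subset_adjoin ⟨((i, false), (a, b)), rfl⟩⟩
    | one =>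
      have h1 : ∀ a b, (1 : Matrix (Fin m) (Fin m) ℂ) a b ∈ A := by
        intro a b
        rw [Matrix.one_apply]
        split_ifs
        · exact A.one_mem
        · exact A.zero_mem
      rw [inv_one, map_one]
      exact ⟨h1, h1⟩
    | mul x y _ _ hx hy =>
      rw [_root_.mul_inv_rev, map_mul, map_mul]
      refine ⟨fun a b => ?_, fun a b => ?_⟩
      · rw [Matrix.mul_apply]
        exact A.sum_mem fun c _ => A.mul_mem (hx.1 a c) (hy.1 c b)
      · rw [Matrix.mul_apply]
        exact A.sum_mem fun c _ => A.mul_mem (hy.2 a c) (hx.2 c b)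
    | inv x _ hx =>
      rw [inv_inv]
      exact ⟨hx.2, hx.1⟩
  let M : G →* Matrix (Fin m) (Fin m) A :=
    { toFun := fun x => Matrix.of fun a b => ⟨ψ x a b, (hent x).1 a b⟩
      map_one' := by
        ext a b
        show ψ 1 a b = (((1 : Matrix (Fin m) (Fin m) A) a b : A) : ℂ)
        rw [map_one, Matrix.one_apply, Matrix.one_apply]
        split_ifs <;> simp
      map_mul' := fun x y => by
        ext a b
        show ψ (x * y) a b = _
        rw [map_mul, Matrix.mul_apply, Matrix.mul_apply]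
        simp }
  exact ⟨A, M, hft, fun x => rfl⟩

/-- the congruence subgroup -/
theorem cong_sub {G : Type} [Group G] {A : Subalgebra ℤ ℂ} {m : ℕ}
    (M : G →* Matrix (Fin m) (Fin m) A) (P : Ideal A) (hK : Finite (A ⧸ P)) :
    ∃ U : Subgroup G, U.FiniteIndex ∧ ∀ u ∈ U, ∀ a b,
      M u a b - (1 : Matrix (Fin m) (Fin m) A) a b ∈ P := by
  let R : G →* Matrix (Fin m) (Fin m) (A ⧸ P) :=
    (Ideal.Quotient.mk P).mapMatrix.toMonoidHom.comp M
  refine ⟨R.toHomUnits.ker, Subgroup.finiteIndex_ker _, fun u hu a b => ?_⟩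
  have h1 : R u = 1 := congrArg Units.val (MonoidHom.mem_ker.1 hu)
  have h2 : Ideal.Quotient.mk P (M u a b) = (1 : Matrix (Fin m) (Fin m) (A ⧸ P)) a b :=
    congrFun (congrFun h1 a) b
  have h3 : Ideal.Quotient.mk P ((1 : Matrix (Fin m) (Fin m) A) a b) =
      (1 : Matrix (Fin m) (Fin m) (A ⧸ P)) a b := by
    rw [Matrix.one_apply, Matrix.one_apply]
    split_ifs <;> simp
  rw [← Ideal.Quotient.eq_zero_iff_mem, map_sub, h2, h3, sub_self]

/-- a subgroup of finite index in which elements with roots of unity as eigenvalues are unipotent -/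
theorem exists_good {G ι : Type} [Group G] [Finite ι] (s : ι → G)
    (hs : Subgroup.closure (Set.range s) = ⊤) {d : ℕ} (ψ : G →* Matrix (Fin d) (Fin d) ℂ) :
    ∃ U : Subgroup G, U.FiniteIndex ∧ ∀ u ∈ U,
      (∀ (c : ℂ) (z : Fin d → ℂ), z ≠ 0 → ψ u *ᵥ z = c • z → ∃ K : ℕ, 0 < K ∧ c ^ K = 1) →
      IsNilpotent (ψ u - 1) := by
  obtain ⟨A, M, hft, hM⟩ := entries s hs ψ
  obtain ⟨P1, hP1, -, hK1, p1, hp1, hp1P⟩ := exists_max hft 1 one_ne_zero
  obtain ⟨P2, hP2, hP12, hK2, p2, hp2, hp2P⟩ := exists_max hft (p1 : A) (by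
    exact_mod_cast hp1.ne_zero)
  have hp12 : p1 ≠ p2 := by
    rintro rfl
    exact hP12 hp2P
  obtain ⟨U1, hU1, hU1M⟩ := cong_sub M P1 hK1
  obtain ⟨U2, hU2, hU2M⟩ := cong_sub M P2 hK2
  refine ⟨U1 ⊓ U2, inferInstance, fun u hu hroot => unip1 _ fun c z hz hcz => ?_⟩
  by_contra hc1
  obtain ⟨K, hK, hcK⟩ := hroot c z hz hcz
  have hfo : IsOfFinOrder c := isOfFinOrder_iff_pow_eq_one.2 ⟨K, hK, hcK⟩
  set m := orderOf c with hm
  have hm0 : 0 < m := hfo.orderOf_pos
  have hm1 : m ≠ 1 := fun h => hc1 (orderOf_eq_one_iff.1 h)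
  set q := m.minFac with hq
  have hqp : q.Prime := Nat.minFac_prime hm1
  obtain ⟨r, hr⟩ := Nat.minFac_dvd m
  have hr0 : 0 < r := Nat.pos_of_ne_zero (by rintro rfl; omega)
  have hzr : ∀ k : ℕ, ψ (u ^ k) *ᵥ z = c ^ k • z := by
    intro k
    induction k with
    | zero => rw [pow_zero, map_one, Matrix.one_mulVec, pow_zero, one_smul]
    | succ k ih =>
      rw [pow_succ, map_mul, ← Matrix.mulVec_mulVec, hcz, Matrix.mulVec_smul, ih,
        smul_smul, pow_succ, mul_comm]
  have hcr1 : c ^ r ≠ 1 := by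
    intro h
    have h1 := orderOf_dvd_of_pow_eq_one h
    have h2 := Nat.le_of_dvd hr0 h1
    rw [← hm, hr] at h2
    have h3 := hqp.two_le
    rw [← hq] at h2
    nlinarith
  have hcrq : (c ^ r) ^ q = 1 := by
    rw [← pow_mul, mul_comm, hq, ← hr, hm, pow_orderOf_eq_one]
  have hdet : ((c ^ r) • (1 : Matrix (Fin d) (Fin d) ℂ) -
      (M (u ^ r)).map (algebraMap A ℂ)).det = 0 := by
    rw [hM]
    by_contra hne
    have h1 := Matrix.eq_zero_of_mulVec_eq_zero hne (v := z) (by
      rw [Matrix.sub_mulVec, Matrix.smul_mulVec, Matrix.one_mulVec, hzr, sub_self])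
    exact hz h1
  by_cases hqp1 : q = p1
  · have hne : p2 ≠ q := by rw [hqp1]; exact hp12.symm
    exact hcr1 (no_order P2 hp2 hqp hne hp2P (M (u ^ r)) (hU2M _ (U2.pow_mem hu.2 r)) hdet hcrq)
  · exact hcr1 (no_order P1 hp1 hqp (fun h => hqp1 h.symm) hp1P (M (u ^ r))
      (hU1M _ (U1.pow_mem hu.1 r)) hdet hcrq)

end Pool.Agent.H313.TE.Two
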