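import Pool.Agent.H313.TE.Ksol
import Pool.Agent.H313.TE.Two
import Pool.Agent.H313.TE.Fac

/-!
Images of proper free factors are virtually solvable.
-/

set_option autoImplicit false
set_option linter.all false
set_option maxHeartbeats 4000000

open Matrix

namespace Pool.Agent.H313.TE.VS

open Pool.Agent.H313.TE.Typ Pool.Agent.H313.TE.Fac Pool.Agent.H313.TE.Two

open scoped commutatorElement

/-- the inclusion into matrices -/
def toM {d : ℕ} : SpecialLinearGroup (Fin d) ℂ →* Matrix (Fin d) (Fin d) ℂ where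
  toFun := Subtype.val
  map_one' := rfl
  map_mul' := fun _ _ => rfl

/-- the action on column vectors -/
noncomputable def act {d : ℕ} : SpecialLinearGroup (Fin d) ℂ →* Module.End ℂ (Fin d → ℂ) :=
  ((Matrix.toLinAlgEquiv' : Matrix (Fin d) (Fin d) ℂ ≃ₐ[ℂ] _) :
      Matrix (Fin d) (Fin d) ℂ →* Module.End ℂ (Fin d → ℂ)).comp toM

theorem act_inj {d : ℕ} : Function.Injective (act (d := d)) := by
  intro x y hxy
  apply Subtype.ext
  exact (Matrix.toLinAlgEquiv' : Matrix (Fin d) (Fin d) ℂ ≃ₐ[ℂ] _).injective hxy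

theorem act_nil {d : ℕ} (x : SpecialLinearGroup (Fin d) ℂ) (h : IsNilpotent (x.val - 1)) :
    IsNilpotent (act x - 1) := by
  have h1 : act x - 1 = (Matrix.toLinAlgEquiv' : Matrix (Fin d) (Fin d) ℂ ≃ₐ[ℂ] _) (x.val - 1) := by
    rw [map_sub, map_one]
    rfl
  rw [h1]
  exact h.map (Matrix.toLinAlgEquiv' : Matrix (Fin d) (Fin d) ℂ ≃ₐ[ℂ] _)

/-- a group whose commutators are unipotent is solvable -/
theorem solv_of_comm {Γ : Type} [Group Γ] {d : ℕ} (f : Γ →* SpecialLinearGroup (Fin d) ℂ)
    (hf : Function.Injective f) (h : ∀ x ∈ commutator Γ, IsNilpotent ((f x).val - 1)) :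
    Group.IsSolvable Γ := by
  haveI h1 : Group.IsSolvable (commutator Γ) :=
    Pool.Agent.H313.TE.KS.solvable_of_unipotent ((act.comp f).comp (commutator Γ).subtype)
      (fun g => act_nil _ (h g.val g.2)) ((act_inj.comp hf).comp Subtype.val_injective)
  refine solvable_of_ker_le_range (commutator Γ).subtype (Abelianization.of (G := Γ)) ?_
  intro x hx
  rw [Subgroup.range_subtype]
  have h2 : x ∈ (Abelianization.of (G := Γ)).ker := hx
  rwa [Abelianization.ker_of] at h2

theorem virt {n d : ℕ} {ρ : FreeGroup (Fin n) →* SpecialLinearGroup (Fin d) ℂ}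
    {V : Subgroup (MulAut (FreeGroup (Fin n)))} (hV : V.FiniteIndex)
    (hρ : ∀ σ ∈ V, ∃ g : SpecialLinearGroup (Fin d) ℂ,
    ∀ w, ρ (σ w) = g * ρ w * g⁻¹) (i : Fin n) :
    ∃ S : Subgroup (ρ.comp (fac i).subtype).range, S.FiniteIndex ∧ Group.IsSolvable S := by
  let X : Set (FreeGroup (Fin n)) := {x | ∃ j, j ≠ i ∧ x = FreeGroup.of j}
  have hX : X.Finite := by
    refine (Set.finite_range (fun j : Fin n => FreeGroup.of j)).subset ?_
    rintro _ ⟨j, -, rfl⟩
    exact ⟨j, rfl⟩
  let k : Set (fac i) := (fac i).subtype ⁻¹' X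
  haveI : Finite k := (hX.preimage Subtype.val_injective.injOn).to_subtype
  let f : fac i →* SpecialLinearGroup (Fin d) ℂ := ρ.comp (fac i).subtype
  obtain ⟨U, hU, hUg⟩ := exists_good (fun x : k => x.val) (by
    rw [Subtype.range_coe]
    exact Subgroup.closure_closure_coe_preimage) (toM.comp f)
  refine ⟨U.map f.rangeRestrict, ?_, ?_⟩
  · refine ⟨?_⟩
    intro h0
    have h1 := Subgroup.index_map_dvd U f.rangeRestrict_surjective
    rw [h0, zero_dvd_iff] at h1
    exact hU.index_ne_zero h1
  · refine solv_of_comm (f.range.subtype.comp (U.map f.rangeRestrict).subtype)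
      (Subtype.val_injective.comp Subtype.val_injective) ?_
    intro x hx
    have h1 : x.val ∈ ⁅U.map f.rangeRestrict, U.map f.rangeRestrict⁆ := by
      have h2 : (U.map f.rangeRestrict).subtype x ∈
          (commutator (U.map f.rangeRestrict)).map (U.map f.rangeRestrict).subtype := ⟨x, hx, rfl⟩
      rw [commutator_def, Subgroup.map_commutator, ← MonoidHom.range_eq_map,
        Subgroup.range_subtype] at h2
      exact h2
    rw [← Subgroup.map_commutator] at h1
    obtain ⟨w, hw, hwx⟩ := h1
    have hwU : w ∈ U := Subgroup.commutator_le_self U hw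
    have hwc : w ∈ commutator (fac i) := by
      rw [commutator_def]
      exact Subgroup.commutator_mono le_top le_top hw
    have h3 := hUg w hwU (fun c z hz hc => eig_comm hV hρ i w hwc hz hc)
    have h4 : (f.range.subtype.comp (U.map f.rangeRestrict).subtype) x = f w := by
      show x.val.val = f w
      rw [← hwx]
      rfl
    rw [h4]
    exact h3

end Pool.Agent.H313.TE.VS
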