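import Pool.Agent.H313.TE.Quot

/-!
Semisimple representations whose restriction to the normal subgroup has virtually solvable image.
-/

set_option autoImplicit false
set_option linter.all false
set_option maxHeartbeats 4000000

open Matrix Module

namespace Pool.Agent.H313.TE

section sub

variable {G : Type} [Group G] {E : Type} [Field E] {n : ℕ}

/-- `W` is stable under `U`. -/
def StableOn (ρ : G →* GL (Fin n) E) (U : Subgroup G) (W : Submodule E (Fin n → E)) : Prop :=
  ∀ g ∈ U, ∀ w ∈ W, matrixOf ρ g *ᵥ w ∈ W

/-- the action on a stable subspace -/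
def action (ρ : G →* GL (Fin n) E) {U : Subgroup G} {W : Submodule E (Fin n → E)}
    (hW : StableOn ρ U W) (u : U) : W →ₗ[E] W :=
  (Matrix.mulVecLin (matrixOf ρ u)).restrict (hW u u.2)

theorem action_apply (ρ : G →* GL (Fin n) E) {U : Subgroup G} {W : Submodule E (Fin n → E)}
    (hW : StableOn ρ U W) (u : U) (w : W) :
    ((action ρ hW u w : W) : Fin n → E) = matrixOf ρ u *ᵥ (w : Fin n → E) := rfl

/-- the representation on a stable subspace -/
noncomputable def sub (ρ : G →* GL (Fin n) E) {U : Subgroup G} {W : Submodule E (Fin n → E)}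
    (hW : StableOn ρ U W) {k : ℕ} (b : Basis (Fin k) E W) : U →* GL (Fin k) E :=
  MonoidHom.toHomUnits
    { toFun := fun u => LinearMap.toMatrix b b (action ρ hW u)
      map_one' := by
        have h1 : action ρ hW 1 = 1 := by
          apply LinearMap.ext
          intro w
          apply Subtype.ext
          rw [action_apply]
          show (ρ 1).val *ᵥ (w : Fin n → E) = w
          rw [map_one, Units.val_one, Matrix.one_mulVec]
        rw [h1, LinearMap.toMatrix_one]
      map_mul' := by
        intro u v
        have h1 : action ρ hW (u * v) = action ρ hW u * action ρ hW v := by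
          apply LinearMap.ext
          intro w
          apply Subtype.ext
          rw [action_apply, Module.End.mul_apply, action_apply, action_apply, Matrix.mulVec_mulVec]
          show (ρ (u * v)).val *ᵥ (w : Fin n → E) = _
          rw [map_mul, Units.val_mul]
        rw [h1, LinearMap.toMatrix_mul] }

theorem sub_apply (ρ : G →* GL (Fin n) E) {U : Subgroup G} {W : Submodule E (Fin n → E)}
    (hW : StableOn ρ U W) {k : ℕ} (b : Basis (Fin k) E W) (u : U) :
    matrixOf (sub ρ hW b) u = LinearMap.toMatrix b b (action ρ hW u) := rfl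

theorem sub_repr (ρ : G →* GL (Fin n) E) {U : Subgroup G} {W : Submodule E (Fin n → E)}
    (hW : StableOn ρ U W) {k : ℕ} (b : Basis (Fin k) E W) (u : U) (w : W) :
    matrixOf (sub ρ hW b) u *ᵥ (b.equivFun w) = b.equivFun (action ρ hW u w) := by
  rw [sub_apply]
  exact LinearMap.toMatrix_mulVec_repr b b (action ρ hW u) w

/-- Every subspace stable under a subgroup of finite index has a stable complement. -/
def SemisimpleOnAll (ρ : G →* GL (Fin n) E) : Prop :=
  ∀ U : Subgroup G, U.FiniteIndex → ∀ W, StableOn ρ U W → ∃ W', StableOn ρ U W' ∧ IsCompl W W'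

/-- The determinants of the subgroups of finite index on their stable subspaces have finite
order. -/
def FiniteDeterminants (ρ : G →* GL (Fin n) E) : Prop :=
  ∀ (U : Subgroup G) (_ : U.FiniteIndex) (W : Submodule E (Fin n → E)) (hW : StableOn ρ U W),
    ∃ M : ℕ, 0 < M ∧ ∀ u : U, LinearMap.det (action ρ hW u) ^ M = 1

/-- Some subgroup `K` which meets `N` in a subgroup of finite index of `N` has solvable image. -/
def SolvableImage (ρ : G →* GL (Fin n) E) (N : Subgroup G) : Prop :=
  ∃ K : Subgroup G, K.relIndex N ≠ 0 ∧ Group.IsSolvable (K.map ρ)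

end sub

theorem solvable_of_der {G : Type} [Group G] (M : Subgroup G) (k : ℕ) (h : der k M = ⊥) :
    Group.IsSolvable M := by
  rw [Group.isSolvable_def]
  refine ⟨k, ?_⟩
  have h2 := der_map M.subtype k ⊤
  rw [der_top, ← MonoidHom.range_eq_map, Subgroup.range_subtype, h] at h2
  rwa [Subgroup.map_eq_bot_iff_of_injective] at h2
  exact Subgroup.subtype_injective _

theorem virt_of_image {G : Type} [Group G] {E : Type} [Field E] {n : ℕ} {ρ : G →* GL (Fin n) E}
    {N K : Subgroup G} (hK : K.relIndex N ≠ 0) (hS : Group.IsSolvable (K.map ρ)) :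
    VirtuallySolvableOn ρ N := by
  refine ⟨K.map ρ, hS, ?_⟩
  have h1 : ((K.subgroupOf N).map (ρ.subgroupMap N)).FiniteIndex := by
    refine ⟨fun h0 => ?_⟩
    have h2 := Subgroup.index_map_dvd (K.subgroupOf N) (ρ.subgroupMap_surjective N)
    rw [h0, zero_dvd_iff] at h2
    exact hK h2
  have h3 : (K.subgroupOf N).map (ρ.subgroupMap N) ≤ (K.map ρ).subgroupOf (N.map ρ) := by
    rintro _ ⟨x, hx, rfl⟩
    exact ⟨x, hx, rfl⟩
  exact (Subgroup.finiteIndex_of_le h3).index_ne_zero

theorem semi {G : Type} [Group G] [Group.FG G] {N : Subgroup G} (hN : N.Normal) {n : ℕ}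
    {ρ : G →* GL (Fin n) (AlgebraicClosure ℚ)} (hss : SemisimpleOnAll ρ)
    (hfd : FiniteDeterminants ρ) (hv : SolvableImage ρ N) :
    ∀ (d : ℕ) (U : Subgroup G), U.FiniteIndex → ∀ W, StableOn ρ U W →
      Module.finrank (AlgebraicClosure ℚ) W ≤ d →
      ∃ V : Subgroup G, V.FiniteIndex ∧ ∀ h ∈ N ⊓ V, ∀ w ∈ W, matrixOf ρ h *ᵥ w = w := by
  intro d
  induction d with
  | zero =>
    intro U hU W hW hd
    refine ⟨⊤, inferInstance, fun h _ w hw => ?_⟩
    have h1 : W = ⊥ := Submodule.finrank_eq_zero.1 (Nat.le_zero.1 hd)
    rw [h1, Submodule.mem_bot] at hw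
    rw [hw, Matrix.mulVec_zero]
  | succ d ih =>
    intro U hU W hW hd
    by_cases hirr : ∀ V : Subgroup G, V.FiniteIndex → V ≤ U → ∀ W1, W1 ≤ W → StableOn ρ V W1 →
        W1 = ⊥ ∨ W1 = W
    · -- Lie-irreducible
      rcases Nat.eq_zero_or_pos (Module.finrank (AlgebraicClosure ℚ) W) with h0 | hk
      · exact ih U hU W hW (by omega)
      · set k := Module.finrank (AlgebraicClosure ℚ) W with hkdef
        let b : Basis (Fin k) (AlgebraicClosure ℚ) W := Module.finBasis _ W
        let σ := sub ρ hW b
        haveI : Group.FG U := inferInstance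
        have hlie : LieIrreducibleOn σ ⊤ := by
          intro V hV Y hY
          have h1 := hirr (V.map U.subtype) (map_finite hU hV)
            (by rintro _ ⟨u, -, rfl⟩; exact u.2)
            ((Y.comap b.equivFun.toLinearMap).map W.subtype) (by
              rintro _ ⟨w, -, rfl⟩; exact w.2) (by
              rintro _ ⟨u, hu, rfl⟩ _ ⟨w, hw, rfl⟩
              refine ⟨action ρ hW u w, ?_, rfl⟩
              show b.equivFun (action ρ hW u w) ∈ Y
              rw [← sub_repr]
              exact hY u ⟨trivial, hu⟩ _ hw)
          rcases h1 with h1 | h1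
          · left
            rw [eq_bot_iff]
            intro y hy
            have h2 : ((b.equivFun.symm y : W) : Fin n → AlgebraicClosure ℚ) ∈
                (Y.comap b.equivFun.toLinearMap).map W.subtype := by
              refine ⟨b.equivFun.symm y, ?_, rfl⟩
              show b.equivFun (b.equivFun.symm y) ∈ Y
              rwa [LinearEquiv.apply_symm_apply]
            rw [h1, Submodule.mem_bot] at h2
            have h3 : b.equivFun.symm y = 0 := Subtype.ext h2
            rw [Submodule.mem_bot]
            exact (LinearEquiv.map_eq_zero_iff _).1 h3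
          · right
            rw [eq_top_iff]
            intro y _
            have h2 : ((b.equivFun.symm y : W) : Fin n → AlgebraicClosure ℚ) ∈
                (Y.comap b.equivFun.toLinearMap).map W.subtype := by
              rw [h1]
              exact (b.equivFun.symm y).2
            obtain ⟨w, hw, hwy⟩ := h2
            have h3 : w = b.equivFun.symm y := Subtype.ext hwy
            rw [h3] at hw
            have h4 : b.equivFun (b.equivFun.symm y) ∈ Y := hw
            rwa [LinearEquiv.apply_symm_apply] at h4
        have hfin : HasFiniteDet σ := by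
          obtain ⟨M, hM, hdet⟩ := hfd U hU W hW
          refine ⟨M, hM, fun u => ?_⟩
          have h1 : (matrixOf σ u).det = LinearMap.det (action ρ hW u) := by
            rw [sub_apply, LinearMap.det_toMatrix]
          rw [h1]
          exact hdet u
        have hvs : VirtuallySolvableOn σ (N.subgroupOf U) := by
          obtain ⟨K, hK, hKs⟩ := hv
          obtain ⟨j, hj⟩ := der_solvable _ hKs
          have hKj : der j K ≤ ρ.ker := by
            intro x hx
            have h1 : ρ x ∈ (der j K).map ρ := Subgroup.mem_map_of_mem ρ hx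
            rw [der_map, hj, Subgroup.mem_bot] at h1
            exact h1
          refine virt_of_image (K := K.subgroupOf U) ?_ (solvable_of_der _ j ?_)
          · rw [← Subgroup.inf_subgroupOf_right N U, Subgroup.relIndex_subgroupOf inf_le_right]
            intro h0
            exact hK (Subgroup.relIndex_eq_zero_of_le_right inf_le_left h0)
          · rw [← der_map, eq_bot_iff]
            rintro _ ⟨u, hu, rfl⟩
            have h2 : (u : G) ∈ (der j (K.subgroupOf U)).map U.subtype :=
              Subgroup.mem_map_of_mem U.subtype hu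
            rw [der_map] at h2
            have h3 : ρ (u : G) = 1 := by
              refine hKj (der_mono j ?_ h2)
              rintro _ ⟨v, hv, rfl⟩
              exact hv
            rw [Subgroup.mem_bot]
            apply Units.ext
            show matrixOf σ u = 1
            have h4 : action ρ hW u = 1 := by
              apply LinearMap.ext
              intro w
              apply Subtype.ext
              rw [action_apply]
              show (ρ u).val *ᵥ (w : Fin n → AlgebraicClosure ℚ) = w
              rw [h3, Units.val_one, Matrix.one_mulVec]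
            rw [sub_apply, h4, LinearMap.toMatrix_one]
        obtain ⟨V, hV, hVσ⟩ := full2 (N.subgroupOf U) Subgroup.normal_subgroupOf hk σ hlie hfin hvs
        refine ⟨V.map U.subtype, map_finite hU hV, ?_⟩
        rintro _ ⟨hN', u, hu, rfl⟩ w hw
        have h1 : σ u = 1 := hVσ u ⟨hN', hu⟩
        have h2 := sub_repr ρ hW b u ⟨w, hw⟩
        have h3 : matrixOf (sub ρ hW b) u = 1 := by
          show (σ u).val = 1
          rw [h1, Units.val_one]
        rw [h3, Matrix.one_mulVec] at h2
        have h4 := b.equivFun.injective h2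
        have h5 := congrArg Subtype.val h4
        exact h5.symm
    · -- reducible on a subgroup
      push Not at hirr
      obtain ⟨V, hV, hVU, W1, hW1, hst, hne0, hneW⟩ := hirr
      obtain ⟨C, hC, hcompl⟩ := hss V hV W1 hst
      have hst2 : StableOn ρ V (C ⊓ W) := by
        intro g hg w hw
        exact ⟨hC g hg w hw.1, hW g (hVU hg) w hw.2⟩
      have hlt1 : W1 < W := lt_of_le_of_ne hW1 hneW
      have hsup : W1 ⊔ (C ⊓ W) = W := by
        rw [← sup_inf_assoc_of_le C hW1, hcompl.sup_eq_top, top_inf_eq]
      have hlt2 : C ⊓ W < W := by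
        refine lt_of_le_of_ne inf_le_right fun h0 => ?_
        apply hne0
        have h1 : W1 ≤ C := hW1.trans (by rw [← h0]; exact inf_le_left)
        rw [eq_bot_iff, ← hcompl.inf_eq_bot]
        exact le_inf le_rfl h1
      obtain ⟨V1, hV1, h1⟩ := ih V hV W1 hst (by
        have := Submodule.finrank_lt_finrank_of_lt hlt1
        omega)
      obtain ⟨V2, hV2, h2⟩ := ih V hV (C ⊓ W) hst2 (by
        have := Submodule.finrank_lt_finrank_of_lt hlt2
        omega)
      refine ⟨V1 ⊓ V2, inferInstance, ?_⟩
      rintro h ⟨hN', hh1, hh2⟩ w hw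
      rw [← hsup, Submodule.mem_sup] at hw
      obtain ⟨x, hx, y, hy, rfl⟩ := hw
      rw [Matrix.mulVec_add, h1 h ⟨hN', hh1⟩ x hx, h2 h ⟨hN', hh2⟩ y hy]

theorem semi_base {G : Type} [Group G] [Group.FG G] {N : Subgroup G} (hN : N.Normal) {n : ℕ}
    {ρ : G →* GL (Fin n) (AlgebraicClosure ℚ)} (hss : SemisimpleOnAll ρ)
    (hfd : FiniteDeterminants ρ) (hv : SolvableImage ρ N) : ComesFromBase ρ N := by
  obtain ⟨V, hV, h⟩ := semi hN hss hfd hv _ ⊤ inferInstance ⊤ (fun _ _ _ _ => trivial) le_rfl
  refine ⟨V, hV, fun g hg => ?_⟩
  apply Units.ext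
  ext i j
  have h1 := congrFun (h g hg (Pi.single j 1) trivial) i
  rw [Matrix.mulVec_single_one] at h1
  rw [Units.val_one, Matrix.one_apply]
  simpa [Pi.single_apply, Matrix.col_apply] using h1

end Pool.Agent.H313.TE
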