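import Pool.Agent.H313.TE.Disc

/-!
Representations whose restriction to the normal subgroup has virtually solvable image.
-/

set_option autoImplicit false
set_option linter.all false
set_option maxHeartbeats 4000000

open Matrix Topology Filter Kronecker

namespace Pool.Agent.H313.TE

section der

variable {G : Type} [Group G]

/-- iterated commutator subgroups -/
def der : ℕ → Subgroup G → Subgroup G
  | 0, M => M
  | k + 1, M => der k ⁅M, M⁆

theorem der_succ (k : ℕ) (M : Subgroup G) : der (k + 1) M = ⁅der k M, der k M⁆ := by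
  induction k generalizing M with
  | zero => rfl
  | succ k ih => exact ih ⁅M, M⁆

theorem der_mono (k : ℕ) {M M' : Subgroup G} (h : M ≤ M') : der k M ≤ der k M' := by
  induction k generalizing M M' with
  | zero => exact h
  | succ k ih => exact ih (Subgroup.commutator_mono h h)

theorem der_map {G' : Type} [Group G'] (f : G →* G') (k : ℕ) (M : Subgroup G) :
    (der k M).map f = der k (M.map f) := by
  induction k generalizing M with
  | zero => rfl
  | succ k ih =>
    show (der k ⁅M, M⁆).map f = der k ⁅M.map f, M.map f⁆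
    rw [ih, Subgroup.map_commutator]

theorem der_top (k : ℕ) : der k (⊤ : Subgroup G) = derivedSeries G k := by
  induction k with
  | zero => rfl
  | succ k ih => rw [der_succ, ih, derivedSeries_succ]

theorem der_solvable (S : Subgroup G) (hS : Group.IsSolvable S) : ∃ k, der k S = ⊥ := by
  obtain ⟨k, hk⟩ := (Group.isSolvable_def _).1 hS
  refine ⟨k, ?_⟩
  have h1 := der_map S.subtype k ⊤
  rw [der_top, hk, Subgroup.map_bot, ← MonoidHom.range_eq_map, Subgroup.range_subtype] at h1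
  exact h1.symm

end der

variable {G : Type} [Group G] {E : Type} [NormedField E] {n : ℕ}

/-- the standing assumptions -/
structure Good (ρ : G →* GL (Fin n) E) : Prop where
  near : ∀ ε : ℝ, 0 < ε → ∃ U : Subgroup G, U.FiniteIndex ∧ ∀ g ∈ U, ∀ k l,
    ‖((ρ g : Matrix (Fin n) (Fin n) E) - 1) k l‖ < ε
  lie : LieIrreducibleOn ρ ⊤
  fin : HasFiniteDet ρ

theorem map_finite {U : Subgroup G} (hU : U.FiniteIndex) {V : Subgroup U} (hV : V.FiniteIndex) :
    (V.map U.subtype).FiniteIndex := by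
  refine ⟨?_⟩
  rw [Subgroup.index_map_subtype]
  exact mul_ne_zero hV.index_ne_zero hU.index_ne_zero

theorem Good.restrict {ρ : G →* GL (Fin n) E} (h : Good ρ) (U : Subgroup G)
    (hU : U.FiniteIndex) : Good (ρ.comp U.subtype) := by
  refine ⟨?_, ?_, ?_⟩
  · intro ε hε
    obtain ⟨V, hV, hVe⟩ := h.near ε hε
    refine ⟨V.subgroupOf U, inferInstance, ?_⟩
    intro g hg k l
    exact hVe g hg k l
  · intro V hV W hW
    refine h.lie _ (map_finite hU hV) W ?_
    rintro g ⟨-, u, hu, rfl⟩ w hw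
    exact hW u ⟨trivial, hu⟩ w hw
  · obtain ⟨M, hM, hdet⟩ := h.fin
    exact ⟨M, hM, fun g => hdet g⟩

theorem comm_base [CharZero E] [IsAlgClosed E] (hn : 0 < n) {ρ : G →* GL (Fin n) E}
    (h : Good ρ) (M : Subgroup G) (hM : M.Normal)
    (hc : ∀ x ∈ M, ∀ y ∈ M, ρ x * ρ y = ρ y * ρ x) : ComesFromBase ρ M := by
  obtain ⟨⟨U, m, a, A, B, hU, hma, ⟨P, Q, hPQ, hQP, hρAB⟩, hBM, hA, hB, hker, hdet⟩, h2, h3⟩ :=
    disc M hM hn ρ h.near h.lie h.fin
  have ha : 0 < a := Nat.pos_of_ne_zero fun h0 => by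
    rw [h0, mul_zero] at hma
    omega
  have hAc : ∀ u v : U, (u : G) ∈ M → (v : G) ∈ M → A u * A v = A v * A u := by
    intro u v hu hv
    have h4 : ρ ((u * v * u⁻¹ * v⁻¹ : U) : G) = 1 := by
      have h5 := hc u hu v hv
      show ρ ((u : G) * v * (u : G)⁻¹ * (v : G)⁻¹) = 1
      rw [map_mul, map_mul, map_mul, h5, map_inv, map_inv]
      group
    have h5 := (hker _ h4).1
    rw [map_mul, map_mul, map_mul, map_inv, map_inv, mul_inv_eq_one, mul_inv_eq_iff_eq_mul] at h5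
    exact h5
  have hsc : ∀ u : U, (u : G) ∈ M → ∃ c : E, ∀ w, matrixOf A u *ᵥ w = c • w := by
    intro u hu
    haveI : Nonempty (Fin a) := ⟨⟨0, ha⟩⟩
    obtain ⟨c, hcc⟩ := Module.End.exists_eigenvalue (Matrix.mulVecLin (matrixOf A u))
    refine ⟨c, ?_⟩
    have h4 : Module.End.eigenspace (Matrix.mulVecLin (matrixOf A u)) c = ⊤ := by
      have h5 := hA ⊤ inferInstance (Module.End.eigenspace (Matrix.mulVecLin (matrixOf A u)) c) (by
        rintro v ⟨hv, -⟩ w hw
        rw [Module.End.mem_eigenspace_iff, Matrix.mulVecLin_apply] at hw ⊢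
        have h6 : matrixOf A u * matrixOf A v = matrixOf A v * matrixOf A u := by
          have h7 := congrArg Units.val (hAc u v hu hv)
          rwa [Units.val_mul, Units.val_mul] at h7
        rw [Matrix.mulVec_mulVec, h6, ← Matrix.mulVec_mulVec, hw, Matrix.mulVec_smul])
      rcases h5 with h5 | h5
      · exact absurd h5 hcc
      · exact h5
    intro w
    have h5 : w ∈ Module.End.eigenspace (Matrix.mulVecLin (matrixOf A u)) c := by
      rw [h4]; trivial
    rwa [Module.End.mem_eigenspace_iff, Matrix.mulVecLin_apply] at h5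
  apply h2
  refine ⟨Pi.single ⟨0, hn⟩ 1, by simp, U, hU, ?_⟩
  rintro g ⟨hg1, hg2⟩
  obtain ⟨c, hcc⟩ := hsc ⟨g, hg2⟩ hg1
  refine ⟨c, ?_⟩
  have h4 : matrixOf A ⟨g, hg2⟩ = c • (1 : Matrix (Fin a) (Fin a) E) := by
    ext i j
    have h5 := congrFun (hcc (Pi.single j 1)) i
    rw [Matrix.mulVec_single_one] at h5
    rw [Matrix.smul_apply, Matrix.one_apply]
    simpa [Pi.single_apply, Matrix.col_apply] using h5
  have h5 : matrixOf ρ g = c • (1 : Matrix (Fin n) (Fin n) E) := by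
    have h6 : matrixOf ρ g = P * (matrixOf B ⟨g, hg2⟩ ⊗ₖ matrixOf A ⟨g, hg2⟩) * Q :=
      hρAB ⟨g, hg2⟩
    have h7 : matrixOf B ⟨g, hg2⟩ = 1 := by
      show ((B ⟨g, hg2⟩ : GL (Fin m) E) : Matrix (Fin m) (Fin m) E) = 1
      rw [hBM ⟨g, hg2⟩ hg1, Units.val_one]
    rw [h6, h4, h7, Matrix.kronecker_smul, Matrix.one_kronecker_one, Matrix.mul_smul,
      Matrix.mul_one, Matrix.smul_mul, hPQ]
  rw [h5, Matrix.smul_mulVec, Matrix.one_mulVec]

theorem solv_base [CharZero E] [IsAlgClosed E] (hn : 0 < n) {ρ : G →* GL (Fin n) E}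
    (h : Good ρ) (k : ℕ) : ∀ M : Subgroup G, M.Normal → der k M ≤ ρ.ker → ComesFromBase ρ M := by
  induction k with
  | zero =>
    intro M hM hk
    exact ⟨⊤, inferInstance, fun g hg => hk hg.1⟩
  | succ k ih =>
    intro M hM hk
    obtain ⟨U, hU, hUM⟩ := ih ⁅M, M⁆ (Subgroup.commutator_normal M M) hk
    have h' := h.restrict U hU
    have hM' : (M.subgroupOf U).Normal := Subgroup.normal_subgroupOf
    obtain ⟨V, hV, hVM⟩ := comm_base hn h' (M.subgroupOf U) hM' (by
      intro x hx y hy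
      have h4 : ρ ((x * y * x⁻¹ * y⁻¹ : U) : G) = 1 := by
        refine hUM _ ⟨?_, (x * y * x⁻¹ * y⁻¹).2⟩
        exact Subgroup.commutator_mem_commutator hx hy
      have h5 : ρ.comp U.subtype (x * y * x⁻¹ * y⁻¹) = 1 := h4
      rw [map_mul, map_mul, map_mul, map_inv, map_inv, mul_inv_eq_one, mul_inv_eq_iff_eq_mul] at h5
      exact h5)
    refine ⟨V.map U.subtype, map_finite hU hV, ?_⟩
    rintro g ⟨hg1, u, hu, rfl⟩
    exact hVM u ⟨hg1, hu⟩

section eps

attribute [local instance] Matrix.normedAddCommGroup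

theorem exists_eps (W : Set (Matrix (Fin n) (Fin n) E)) (hW : IsOpen W)
    (h1 : (1 : Matrix (Fin n) (Fin n) E) ∈ W) :
    ∃ ε : ℝ, 0 < ε ∧ ∀ x : Matrix (Fin n) (Fin n) E, (∀ k l, ‖(x - 1) k l‖ < ε) → x ∈ W := by
  obtain ⟨ε, hε, h⟩ := Metric.isOpen_iff.1 hW 1 h1
  refine ⟨ε, hε, fun x hx => h ?_⟩
  rw [Metric.mem_ball, dist_eq_norm]
  exact (Matrix.norm_lt_iff hε).2 hx

end eps

theorem no_torsion [CharZero E] (e : ℕ) (he : 0 < e) :
    ∃ ε : ℝ, 0 < ε ∧ ∀ x : Matrix (Fin n) (Fin n) E, (∀ k l, ‖(x - 1) k l‖ < ε) →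
      x ^ e = 1 → x = 1 := by
  obtain ⟨ε, hε, h⟩ := exists_eps {x : Matrix (Fin n) (Fin n) E |
      (∑ i ∈ Finset.range e, x ^ i).det ≠ 0} (by
    refine isOpen_ne_fun ?_ continuous_const
    exact (continuous_finset_sum _ fun i _ => continuous_pow i).matrix_det) (by
    show (∑ i ∈ Finset.range e, (1 : Matrix (Fin n) (Fin n) E) ^ i).det ≠ 0
    have h1 : (∑ i ∈ Finset.range e, (1 : Matrix (Fin n) (Fin n) E) ^ i) =
        (e : E) • (1 : Matrix (Fin n) (Fin n) E) := by
      rw [Finset.sum_congr rfl fun i _ => one_pow i, Finset.sum_const, Finset.card_range,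
        ← Nat.cast_smul_eq_nsmul E]
    rw [h1, Matrix.det_smul, Matrix.det_one, mul_one]
    exact pow_ne_zero _ (Nat.cast_ne_zero.2 he.ne'))
  refine ⟨ε, hε, fun x hx hxe => ?_⟩
  have h1 : (∑ i ∈ Finset.range e, x ^ i).det ≠ 0 := h x hx
  have h2 : (∑ i ∈ Finset.range e, x ^ i) * (x - 1) = 0 := by
    rw [geom_sum_mul, hxe, sub_self]
  have h3 : IsUnit (∑ i ∈ Finset.range e, x ^ i) := by
    rw [Matrix.isUnit_iff_isUnit_det]
    exact isUnit_iff_ne_zero.2 h1
  have h4 : x - 1 = 0 := (h3.mul_right_eq_zero).1 h2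
  exact sub_eq_zero.1 h4

/-- The image of `N` under `ρ` has a solvable subgroup of finite index. -/
def VirtuallySolvableOn {E : Type} [Field E] (ρ : G →* GL (Fin n) E) (N : Subgroup G) : Prop :=
  ∃ S : Subgroup (GL (Fin n) E), Group.IsSolvable S ∧ S.relIndex (N.map ρ) ≠ 0

theorem virt_base [CharZero E] [IsAlgClosed E] (hn : 0 < n) {ρ : G →* GL (Fin n) E}
    (h : Good ρ) (N : Subgroup G) (hN : N.Normal) (hv : VirtuallySolvableOn ρ N) :
    ComesFromBase ρ N := by
  obtain ⟨S, hS, hi⟩ := hv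
  set e := (S.relIndex (N.map ρ)).factorial with hedef
  have he : 0 < e := Nat.factorial_pos _
  let P : Subgroup G := Subgroup.normalClosure {x | ∃ y ∈ N, y ^ e = x}
  have hP : P.map ρ ≤ S := by
    rw [Subgroup.map_le_iff_le_comap]
    refine (Subgroup.closure_le _).2 ?_
    intro x hx
    rw [Group.mem_conjugatesOfSet_iff] at hx
    obtain ⟨z, ⟨y, hy, rfl⟩, hxz⟩ := hx
    obtain ⟨c, rfl⟩ := isConj_iff.1 hxz
    show ρ (c * y ^ e * c⁻¹) ∈ S
    rw [← conj_pow, map_pow]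
    refine (Subgroup.pow_mem_of_relIndex_ne_zero_of_dvd hi
      (Subgroup.mem_map_of_mem ρ (hN.conj_mem y hy c)) fun m hm1 hm2 => ?_).1
    exact Nat.dvd_factorial hm1 hm2
  obtain ⟨k, hk⟩ := der_solvable S hS
  have hPk : der k P ≤ ρ.ker := by
    intro x hx
    have h1 : ρ x ∈ (der k P).map ρ := Subgroup.mem_map_of_mem ρ hx
    rw [der_map] at h1
    have h2 := der_mono k hP h1
    rw [hk, Subgroup.mem_bot] at h2
    exact h2
  obtain ⟨U, hU, hUP⟩ := solv_base hn h k P Subgroup.normalClosure_normal hPk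
  obtain ⟨ε, hε, hεt⟩ := no_torsion (n := n) (E := E) e he
  obtain ⟨V, hV, hVe⟩ := h.near ε hε
  refine ⟨U ⊓ V, inferInstance, ?_⟩
  rintro g ⟨hgN, hgU, hgV⟩
  have h1 : ρ (g ^ e) = 1 :=
    hUP _ ⟨Subgroup.subset_normalClosure ⟨g, hgN, rfl⟩, U.pow_mem hgU e⟩
  apply Units.ext
  refine hεt _ (hVe g hgV) ?_
  rw [← Units.val_pow_eq_pow_val, ← map_pow, h1, Units.val_one]

/-- everything for finitely generated groups -/
theorem full2 {G : Type} [Group G] [Group.FG G] (N : Subgroup G) (hN : N.Normal) {n : ℕ}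
    (hn : 0 < n) (ρ : G →* GL (Fin n) (AlgebraicClosure ℚ))
    (hlie : LieIrreducibleOn ρ ⊤) (hfin : HasFiniteDet ρ)
    (hv : VirtuallySolvableOn ρ N) : ComesFromBase ρ N := by
  obtain ⟨p, hp, i, hi⟩ := exists_padic ρ
  letI : NormedField (AlgebraicClosure ℚ) :=
    NormedField.induced (AlgebraicClosure ℚ) (PadicAlgCl p) i i.injective
  exact virt_base hn ⟨hi, hlie, hfin⟩ N hN hv

end Pool.Agent.H313.TE
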