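import Pool.Agent.H313.TE.Tfae

/-!
Subrepresentations by intertwining matrices.
-/

set_option autoImplicit false
set_option linter.all false
set_option maxHeartbeats 4000000

open Matrix Module

namespace Pool.Agent.H313.TE

variable {G : Type} [Group G] {E : Type} [Field E] {n : ℕ}

/-- `σ` is isomorphic to a subrepresentation of the restriction of `ρ` to `U`. -/
def IsSub {k : ℕ} (ρ : G →* GL (Fin n) E) (U : Subgroup G) (σ : U →* GL (Fin k) E) : Prop :=
  ∃ P : Matrix (Fin n) (Fin k) E, Function.Injective P.mulVec ∧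
    ∀ u : U, matrixOf ρ u * P = P * matrixOf σ u

/-- The subrepresentations on subgroups of finite index have determinants of finite order. -/
def FiniteDets (ρ : G →* GL (Fin n) E) : Prop :=
  ∀ U : Subgroup G, U.FiniteIndex → ∀ (k : ℕ) (σ : U →* GL (Fin k) E), IsSub ρ U σ →
    HasFiniteDet σ

theorem isSub_sub (ρ : G →* GL (Fin n) E) {U : Subgroup G} {W : Submodule E (Fin n → E)}
    (hW : StableOn ρ U W) {k : ℕ} (b : Basis (Fin k) E W) : IsSub ρ U (sub ρ hW b) := by
  let P : Matrix (Fin n) (Fin k) E := Matrix.of fun i j => (b j : Fin n → E) i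
  have hP : ∀ x : Fin k → E, P *ᵥ x = ((b.equivFun.symm x : W) : Fin n → E) := by
    intro x
    rw [Basis.equivFun_symm_apply]
    funext i
    rw [Submodule.coe_sum, Finset.sum_apply]
    show ∑ j, P i j * x j = _
    refine Finset.sum_congr rfl fun j _ => ?_
    show (b j : Fin n → E) i * x j = x j * (b j : Fin n → E) i
    ring
  refine ⟨P, ?_, ?_⟩
  · intro x y hxy
    have h1 : P *ᵥ x = P *ᵥ y := hxy
    rw [hP, hP] at h1
    exact b.equivFun.symm.injective (Subtype.ext h1)
  · intro u
    have h1 : ∀ x, (matrixOf ρ u * P) *ᵥ x = (P * matrixOf (sub ρ hW b) u) *ᵥ x := by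
      intro x
      rw [← Matrix.mulVec_mulVec, ← Matrix.mulVec_mulVec, hP, hP]
      have h2 := sub_repr ρ hW b u (b.equivFun.symm x)
      rw [LinearEquiv.apply_symm_apply] at h2
      rw [h2, LinearEquiv.symm_apply_apply, action_apply]
    ext i j
    have h2 := congrFun (h1 (Pi.single j 1)) i
    rw [Matrix.mulVec_single_one, Matrix.mulVec_single_one] at h2
    exact h2

theorem dets_of {ρ : G →* GL (Fin n) E} (h : FiniteDets ρ) : FiniteDeterminants ρ := by
  intro U hU W hW
  obtain ⟨M, hM, hd⟩ := h U hU _ (sub ρ hW (Module.finBasis E W)) (isSub_sub ρ hW _)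
  refine ⟨M, hM, fun u => ?_⟩
  have h1 := hd u
  rwa [sub_apply, LinearMap.det_toMatrix] at h1

end Pool.Agent.H313.TE
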