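import Pool.Agent.H313.TE.Semi

/-!
Equivalent conditions for semisimple representations.
-/

set_option autoImplicit false
set_option linter.all false
set_option maxHeartbeats 4000000

open Matrix Module

namespace Pool.Agent.H313.TE

variable {G : Type} [Group G] {E : Type} [Field E] {n : ℕ}

theorem solv_of_base {ρ : G →* GL (Fin n) E} {N : Subgroup G} (h : ComesFromBase ρ N) :
    SolvableImage ρ N := by
  obtain ⟨U, hU, h⟩ := h
  refine ⟨U ⊓ N, ?_, ?_⟩
  · rw [Subgroup.inf_relIndex_right]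
    exact (inferInstance : (U.subgroupOf N).FiniteIndex).index_ne_zero
  · have h1 : (U ⊓ N).map ρ = ⊥ := by
      rw [eq_bot_iff]
      rintro _ ⟨g, hg, rfl⟩
      rw [Subgroup.mem_bot]
      exact h g ⟨hg.2, hg.1⟩
    rw [h1]
    infer_instance

theorem finite_of_base {ρ : G →* GL (Fin n) E} {N : Subgroup G} (h : ComesFromBase ρ N) :
    Finite (N.map ρ) := by
  obtain ⟨U, hU, h⟩ := h
  have h1 : (ρ.ker).relIndex N ≠ 0 := by
    have h2 : (U ⊓ N).relIndex N ≠ 0 := by
      rw [Subgroup.inf_relIndex_right]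
      exact (inferInstance : (U.subgroupOf N).FiniteIndex).index_ne_zero
    have h3 : U ⊓ N ≤ ρ.ker := fun g hg => h g ⟨hg.2, hg.1⟩
    intro h0
    exact h2 (Subgroup.relIndex_eq_zero_of_le_left h3 h0)
  rw [Subgroup.relIndex_ker] at h1
  exact Nat.finite_of_card_ne_zero h1

theorem solv_of_finite {ρ : G →* GL (Fin n) E} {N : Subgroup G} (h : Finite (N.map ρ)) :
    SolvableImage ρ N := by
  refine ⟨ρ.ker, ?_, ?_⟩
  · rw [Subgroup.relIndex_ker]
    exact Nat.card_pos.ne'
  · have h1 : ρ.ker.map ρ = ⊥ := by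
      rw [eq_bot_iff]
      rintro _ ⟨g, hg, rfl⟩
      rw [Subgroup.mem_bot]
      exact hg
    rw [h1]
    infer_instance

end Pool.Agent.H313.TE
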