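import Pool.Agent.H313.TE.Vs
import Pool.Agent.H313.TE.Fac2

/-!
Images of proper free factors are virtually unipotent.
-/

set_option autoImplicit false
set_option linter.all false
set_option maxHeartbeats 400000

open Matrix

namespace Pool.Agent.H313.TE.VS

open Pool.Agent.H313.TE.Typ Pool.Agent.H313.TE.Fac Pool.Agent.H313.TE.Two

theorem virt_unip {n d : ℕ} (hn : 3 ≤ n)
    {ρ : FreeGroup (Fin n) →* SpecialLinearGroup (Fin d) ℂ}
    {V : Subgroup (MulAut (FreeGroup (Fin n)))} (hV : V.FiniteIndex)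
    (hρ : ∀ σ ∈ V, ∃ g : SpecialLinearGroup (Fin d) ℂ,
    ∀ w, ρ (σ w) = g * ρ w * g⁻¹) (i : Fin n) :
    ∃ S : Subgroup (ρ.comp (fac i).subtype).range, S.FiniteIndex ∧ Group.IsSolvable S ∧
      ∀ x ∈ S, IsNilpotent (x.val.val - 1) := by
  let X : Set (FreeGroup (Fin n)) := {x | ∃ j, j ≠ i ∧ x = FreeGroup.of j}
  have hX : X.Finite := by
    refine (Set.finite_range (fun j : Fin n => FreeGroup.of j)).subset ?_
    rintro _ ⟨j, -, rfl⟩
    exact ⟨j, rfl⟩
  let k : Set (fac i) := (fac i).subtype ⁻¹' X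
  haveI : Finite k := (hX.preimage Subtype.val_injective.injOn).to_subtype
  let f : fac i →* SpecialLinearGroup (Fin d) ℂ := ρ.comp (fac i).subtype
  obtain ⟨U, hU, hUg⟩ := exists_good (fun x : k => x.val) (by
    rw [Subtype.range_coe]
    exact Subgroup.closure_closure_coe_preimage) (toM.comp f)
  have hS : ∀ x ∈ U.map f.rangeRestrict, IsNilpotent (x.val.val - 1) := by
    rintro _ ⟨w, hw, rfl⟩
    exact hUg w hw (fun c z hz hc => Pool.Agent.H313.TE.Fac2.eig_fac hn hV hρ i w hz hc)
  refine ⟨U.map f.rangeRestrict, ?_, ?_, hS⟩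
  · refine ⟨?_⟩
    intro h0
    have h1 := Subgroup.index_map_dvd U f.rangeRestrict_surjective
    rw [h0, zero_dvd_iff] at h1
    exact hU.index_ne_zero h1
  · exact solv_of_comm (f.range.subtype.comp (U.map f.rangeRestrict).subtype)
      (Subtype.val_injective.comp Subtype.val_injective) (fun x _ => hS x.val x.2)

end Pool.Agent.H313.TE.VS
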